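import Mathlib

/-!
# Valuations of number fields
-/

open NumberField IsDedekindDomain

namespace Pool.Agent.STb

variable {M : Type*} [Field M] [NumberField M]

omit [NumberField M] in
lemma isIntegral_nat (D : ℕ) : IsIntegral ℤ (D : M) := by
  have h3 : IsIntegral ℤ ((D : ℤ) : M) := isIntegral_algebraMap (R := ℤ) (A := M)
  rwa [Int.cast_natCast] at h3

/-- the valuation of `x` at `P` is even -/
def SqAt (P : HeightOneSpectrum (𝓞 M)) (x : M) : Prop := ∃ y : M, P.valuation M (x * y ^ 2) = 1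

lemma sqAt_iff {P : HeightOneSpectrum (𝓞 M)} {x : M} {a : ℤ}
    (ha : P.valuation M x = WithZero.exp a) : SqAt P x ↔ Even a := by
  constructor
  · rintro ⟨y, hy⟩
    have hy0 : y ≠ 0 := by
      rintro rfl
      rw [zero_pow (by norm_num), mul_zero, map_zero] at hy
      exact zero_ne_one hy
    have hvy : P.valuation M y ≠ 0 := (Valuation.ne_zero_iff _).2 hy0
    rw [map_mul, map_pow, ha, ← WithZero.exp_log hvy, pow_two, ← WithZero.exp_add,
      ← WithZero.exp_add, ← WithZero.exp_zero, WithZero.exp_injective.eq_iff] at hy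
    exact ⟨-WithZero.log (P.valuation M y), by omega⟩
  · rintro ⟨b, rfl⟩
    obtain ⟨y, hy⟩ := P.valuation_surjective M (WithZero.exp (-b))
    refine ⟨y, ?_⟩
    rw [map_mul, map_pow, ha, hy, pow_two, ← WithZero.exp_add, ← WithZero.exp_add,
      ← WithZero.exp_zero]
    congr 1
    ring

lemma exists_exp {P : HeightOneSpectrum (𝓞 M)} {x : M} (hx : x ≠ 0) :
    ∃ a : ℤ, P.valuation M x = WithZero.exp a :=
  ⟨_, (WithZero.exp_log ((Valuation.ne_zero_iff _).2 hx)).symm⟩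

lemma SqAt.mul_of_iff {P : HeightOneSpectrum (𝓞 M)} {x x' : M} (hx : x ≠ 0) (hx' : x' ≠ 0)
    (h : SqAt P x ↔ SqAt P x') : SqAt P (x * x') := by
  obtain ⟨a, ha⟩ := exists_exp (P := P) hx
  obtain ⟨b, hb⟩ := exists_exp (P := P) hx'
  rw [sqAt_iff ha, sqAt_iff hb] at h
  rw [sqAt_iff (by rw [map_mul, ha, hb, ← WithZero.exp_add])]
  rw [Int.even_add]
  exact h

/-- the valuation of the integer `D` outside `D` -/
lemma val_nat {P : HeightOneSpectrum (𝓞 M)} {D : ℕ} (hP : (D : 𝓞 M) ∉ P.asIdeal) :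
    P.valuation M (D : M) = 1 := by
  have := (P.valuation_eq_one_iff_notMem (K := M) (r := (D : 𝓞 M))).2 hP
  simpa using this

lemma val_nat_lt {P : HeightOneSpectrum (𝓞 M)} {D : ℕ} (hP : (D : 𝓞 M) ∈ P.asIdeal) :
    P.valuation M (D : M) < 1 := by
  have := (P.valuation_lt_one_iff_mem (K := M) (D : 𝓞 M)).2 hP
  simpa using this

lemma val_int (P : HeightOneSpectrum (𝓞 M)) {x : M} (hx : IsIntegral ℤ x) :
    P.valuation M x ≤ 1 :=
  P.valuation_le_one (K := M) (⟨x, hx⟩ : 𝓞 M)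

lemma pow_small {a b : WithZero (Multiplicative ℤ)} (ha : a < 1) : ∃ k : ℕ, a ^ k * b ≤ 1 := by
  by_cases ha0 : a = 0
  · exact ⟨1, by rw [ha0]; simp⟩
  by_cases hb0 : b = 0
  · exact ⟨0, by rw [hb0]; simp⟩
  have h1 : WithZero.log a < 0 := by
    rw [← WithZero.log_one, WithZero.log_lt_log ha0 one_ne_zero]; exact ha
  refine ⟨(WithZero.log b).toNat, ?_⟩
  have h2 : a ^ (WithZero.log b).toNat * b =
      WithZero.exp ((WithZero.log b).toNat * WithZero.log a + WithZero.log b) := by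
    rw [WithZero.exp_add, WithZero.exp_log hb0]
    congr 1
    rw [← nsmul_eq_mul, ← WithZero.log_pow, WithZero.exp_log (pow_ne_zero _ ha0)]
  rw [h2, ← WithZero.exp_zero, WithZero.exp_le_exp]
  have h3 : WithZero.log b ≤ (WithZero.log b).toNat := Int.self_le_toNat _
  have h4 : (0 : ℤ) ≤ (WithZero.log b).toNat := by positivity
  nlinarith

/-- elements which are integral outside `D` -/
lemma integral_of_val {D : ℕ} {r : M}
    (h : ∀ P : HeightOneSpectrum (𝓞 M), (D : 𝓞 M) ∉ P.asIdeal → P.valuation M r ≤ 1) :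
    ∃ k : ℕ, IsIntegral ℤ ((D : M) ^ k * r) := by
  classical
  have hfin := HeightOneSpectrum.Support.finite (𝓞 M) r
  have hk : ∀ P : HeightOneSpectrum (𝓞 M), ∃ k : ℕ, 1 < P.valuation M r →
      ∀ l ≥ k, (P.valuation M (D : M)) ^ l * P.valuation M r ≤ 1 := by
    intro P
    by_cases hP : (D : 𝓞 M) ∈ P.asIdeal
    · obtain ⟨k, hk⟩ := pow_small (b := P.valuation M r) (val_nat_lt hP)
      refine ⟨k, fun _ l hl => ?_⟩
      obtain ⟨j, rfl⟩ := Nat.exists_eq_add_of_le hl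
      rw [pow_add, mul_assoc, mul_left_comm]
      have h1 : (P.valuation M (D : M)) ^ j ≤ 1 := pow_le_one₀ zero_le (val_nat_lt hP).le
      exact mul_le_one' h1 hk
    · exact ⟨0, fun hlt => absurd (h P hP) (not_le.2 hlt)⟩
  choose k hk using hk
  refine ⟨∑ P ∈ hfin.toFinset, k P, ?_⟩
  have h1 : ∀ P : HeightOneSpectrum (𝓞 M),
      P.valuation M ((D : M) ^ (∑ P ∈ hfin.toFinset, k P) * r) ≤ 1 := by
    intro P
    rw [map_mul, map_pow]
    by_cases hP : 1 < P.valuation M r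
    · apply hk P hP
      exact Finset.single_le_sum (f := k) (fun i _ => Nat.zero_le _) ((Set.Finite.mem_toFinset _).2 hP)
    · have h2 : (P.valuation M (D : M)) ^ (∑ P ∈ hfin.toFinset, k P) ≤ 1 := by
        apply pow_le_one₀ zero_le
        exact val_int P (isIntegral_nat D)
      exact mul_le_one' h2 (not_lt.1 hP)
  obtain ⟨z, hz⟩ := HeightOneSpectrum.mem_integers_of_valuation_le_one M _ h1
  rw [← hz]
  exact RingOfIntegers.isIntegral_coe z

/-- Approximation. -/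
lemma exists_approx {x : M} (P : HeightOneSpectrum (𝓞 M)) (h : SqAt P x) :
    ∃ y : M, P.valuation M (x * y ^ 2) = 1 ∧
      ∀ Q : HeightOneSpectrum (𝓞 M), Q.valuation M (x * y ^ 2) ≤ 1 := by
  classical
  obtain ⟨z, hz⟩ := h
  have hz0 : z ≠ 0 := by
    rintro rfl
    rw [zero_pow (by norm_num), mul_zero, map_zero] at hz
    exact zero_ne_one hz
  have hfin := HeightOneSpectrum.Support.finite (𝓞 M) (x * z ^ 2)
  have ht : ∀ Q : HeightOneSpectrum (𝓞 M), ∃ t : M, P.valuation M t = 1 ∧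
      (∀ Q' : HeightOneSpectrum (𝓞 M), Q'.valuation M t ≤ 1) ∧
      (Q ≠ P → Q.valuation M t * Q.valuation M (x * z ^ 2) ≤ 1) := by
    intro Q
    by_cases hQ : Q = P
    · exact ⟨1, by simp, by simp, fun h => absurd hQ h⟩
    · obtain ⟨t, ht1, ht2⟩ : ∃ t : 𝓞 M, t ∈ Q.asIdeal ∧ t ∉ P.asIdeal := by
        by_contra hcon
        push Not at hcon
        apply hQ
        apply HeightOneSpectrum.ext
        exact Q.isMaximal.eq_of_le P.isPrime.ne_top hcon
      obtain ⟨k, hk⟩ := pow_small (b := Q.valuation M (x * z ^ 2))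
        ((Q.valuation_lt_one_iff_mem (K := M) t).2 ht1)
      refine ⟨(t : M) ^ k, ?_, ?_, fun _ => ?_⟩
      · rw [map_pow, (P.valuation_eq_one_iff_notMem (K := M)).2 ht2, one_pow]
      · intro Q'
        rw [map_pow]
        exact pow_le_one₀ zero_le (Q'.valuation_le_one (K := M) t)
      · rw [map_pow]; exact hk
  choose t ht1 ht2 ht3 using ht
  have hTle : ∀ (S : Finset (HeightOneSpectrum (𝓞 M))) (Q : HeightOneSpectrum (𝓞 M)),
      Q.valuation M (∏ Q' ∈ S, t Q') ≤ 1 := by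
    intro S Q
    rw [map_prod]
    exact Finset.prod_le_one' fun Q' _ => ht2 Q' Q
  set T : M := ∏ Q ∈ hfin.toFinset, t Q with hT
  refine ⟨z * T, ?_, ?_⟩
  · have : x * (z * T) ^ 2 = (x * z ^ 2) * T ^ 2 := by ring
    rw [this, map_mul, hz, one_mul, map_pow, hT, map_prod, Finset.prod_eq_one fun Q _ => ht1 Q,
      one_pow]
  · intro Q
    have e1 : x * (z * T) ^ 2 = (x * z ^ 2) * T ^ 2 := by ring
    rw [e1, map_mul, map_pow]
    by_cases hlt : 1 < Q.valuation M (x * z ^ 2)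
    · have hQP : Q ≠ P := by
        rintro rfl
        rw [hz] at hlt
        exact lt_irrefl _ hlt
      have hmem : Q ∈ hfin.toFinset := (Set.Finite.mem_toFinset _).2 hlt
      have h5 : T = t Q * ∏ Q' ∈ hfin.toFinset.erase Q, t Q' :=
        (Finset.mul_prod_erase _ _ hmem).symm
      have h6 : Q.valuation M T ≤ Q.valuation M (t Q) := by
        rw [h5, map_mul]
        exact mul_le_of_le_one_right' (hTle _ _)
      have h7 : Q.valuation M T ≤ 1 := hTle _ _
      calc Q.valuation M (x * z ^ 2) * Q.valuation M T ^ 2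
          ≤ Q.valuation M (x * z ^ 2) * Q.valuation M (t Q) := by
            apply mul_le_mul_right
            rw [pow_two]
            exact (mul_le_of_le_one_right' h7).trans h6
        _ ≤ 1 := by rw [mul_comm]; exact ht3 Q hQP
    · have h7 : Q.valuation M T ≤ 1 := hTle _ _
      exact mul_le_one' (not_lt.1 hlt) (pow_le_one₀ zero_le h7)

/-- even elements: global form -/
lemma exists_global {M : Type} [Field M] [NumberField M] {D : ℕ} {x : M} (hx : x ≠ 0)
    (h : ∀ Q : HeightOneSpectrum (𝓞 M), (D : 𝓞 M) ∉ Q.asIdeal → SqAt Q x) :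
    ∃ (k : ℕ) (ι : Type) (_ : Fintype ι) (y c : ι → M),
      (∀ i, IsIntegral ℤ (c i)) ∧ (∀ i, IsIntegral ℤ (x * y i ^ 2)) ∧
      ∑ i, c i * (x * y i ^ 2) = (D : M) ^ k := by
  classical
  let Y := {y : M // IsIntegral ℤ (x * y ^ 2)}
  let g : Y → 𝓞 M := fun y => ⟨x * y.1 ^ 2, y.2⟩
  have hg : ∀ y, algebraMap (𝓞 M) M (g y) = x * y.1 ^ 2 := fun y => rfl
  let I : Ideal (𝓞 M) := Ideal.span (Set.range g)
  have hD : (D : 𝓞 M) ∈ I.radical := by
    rw [Ideal.radical_eq_sInf, Submodule.mem_sInf]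
    rintro J ⟨hIJ, hJ⟩
    by_contra hDJ
    have hJ0 : J ≠ ⊥ := by
      rintro rfl
      obtain ⟨a, b, hb, hab⟩ := IsFractionRing.div_surjective (A := 𝓞 M) x
      have hb0 : algebraMap (𝓞 M) M b ≠ 0 := by
        have := nonZeroDivisors.ne_zero hb
        exact fun h0 => this (RingOfIntegers.coe_injective (by rw [h0, map_zero]))
      have h1 : x * (algebraMap (𝓞 M) M b) ^ 2 = algebraMap (𝓞 M) M (a * b) := by
        rw [← hab, map_mul]; field_simp
      have h2 : IsIntegral ℤ (x * (algebraMap (𝓞 M) M b) ^ 2) := by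
        rw [h1]; exact RingOfIntegers.isIntegral_coe _
      have h3 : g ⟨algebraMap (𝓞 M) M b, h2⟩ ∈ (⊥ : Ideal (𝓞 M)) :=
        hIJ (Ideal.subset_span ⟨_, rfl⟩)
      have h4 : g ⟨algebraMap (𝓞 M) M b, h2⟩ = 0 := h3
      have h5 := hg ⟨algebraMap (𝓞 M) M b, h2⟩
      rw [h4, map_zero] at h5
      exact mul_ne_zero hx (pow_ne_zero 2 hb0) h5.symm
    let P : HeightOneSpectrum (𝓞 M) := ⟨J, hJ, hJ0⟩
    obtain ⟨y, hy1, hy2⟩ := exists_approx P (h P hDJ)
    obtain ⟨z, hz⟩ := HeightOneSpectrum.mem_integers_of_valuation_le_one M _ hy2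
    have hint : IsIntegral ℤ (x * y ^ 2) := by rw [← hz]; exact RingOfIntegers.isIntegral_coe z
    have h3 : g ⟨y, hint⟩ ∈ J := hIJ (Ideal.subset_span ⟨_, rfl⟩)
    have h4 : P.valuation M (algebraMap (𝓞 M) M (g ⟨y, hint⟩)) < 1 :=
      (P.valuation_lt_one_iff_mem (K := M) (g ⟨y, hint⟩)).2 h3
    rw [hg, hy1] at h4
    exact lt_irrefl _ h4
  obtain ⟨k, hk⟩ := hD
  obtain ⟨c, hc⟩ := Finsupp.mem_ideal_span_range_iff_exists_finsupp.1 hk
  refine ⟨k, c.support, inferInstance, fun i => i.1.1, fun i => algebraMap (𝓞 M) M (c i.1),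
    fun i => RingOfIntegers.isIntegral_coe _, fun i => i.1.2, ?_⟩
  have h6 := congrArg (algebraMap (𝓞 M) M) hc
  rw [Finsupp.sum, map_sum, map_pow, map_natCast, ← Finset.sum_coe_sort] at h6
  rw [← h6]
  refine Finset.sum_congr rfl fun i _ => ?_
  rw [map_mul, hg]

lemma charP_quot {P : HeightOneSpectrum (𝓞 M)} {l : ℕ} (hl : l.Prime)
    (hlP : (l : 𝓞 M) ∈ P.asIdeal) : CharP (𝓞 M ⧸ P.asIdeal) l := by
  have hP := P.isMaximal
  have hnt : Nontrivial (𝓞 M ⧸ P.asIdeal) := Ideal.Quotient.nontrivial_iff.2 hP.ne_top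
  have hl0 : (l : 𝓞 M ⧸ P.asIdeal) = 0 := by
    have h1 : Ideal.Quotient.mk P.asIdeal (l : 𝓞 M) = 0 :=
      Ideal.Quotient.eq_zero_iff_mem.2 hlP
    rwa [map_natCast] at h1
  obtain ⟨p, hp⟩ := CharP.exists (𝓞 M ⧸ P.asIdeal)
  have h1 : p ∣ l := (CharP.cast_eq_zero_iff _ p l).1 hl0
  rcases (Nat.dvd_prime hl).1 h1 with h2 | h2
  · exfalso
    rw [h2] at hp
    exact CharP.false_of_nontrivial_of_char_one (R := 𝓞 M ⧸ P.asIdeal)
  · rwa [h2] at hp

end Pool.Agent.STb
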