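import Mathlib

/-!
# Quadratic extensions of subfields of `ℝ`
-/

open IntermediateField

namespace Pool.Agent.STb

/-- The extension `E(θ)`. -/
noncomputable def ext (E : IntermediateField ℚ ℝ) (θ : ℝ) : IntermediateField ℚ ℝ := E ⊔ ℚ⟮θ⟯

lemma le_ext (E : IntermediateField ℚ ℝ) (θ : ℝ) : E ≤ ext E θ := le_sup_left

lemma self_mem_ext (E : IntermediateField ℚ ℝ) (θ : ℝ) : θ ∈ ext E θ :=
  (le_sup_right : ℚ⟮θ⟯ ≤ ext E θ) (mem_adjoin_simple_self ℚ θ)

lemma ext_le {E E' : IntermediateField ℚ ℝ} {θ : ℝ} (h : E ≤ E') (hθ : θ ∈ E') : ext E θ ≤ E' :=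
  sup_le h (by rw [adjoin_simple_le_iff]; exact hθ)

lemma ext_mono {E E' : IntermediateField ℚ ℝ} {θ : ℝ} (h : E ≤ E') : ext E θ ≤ ext E' θ :=
  ext_le (h.trans (le_ext _ _)) (self_mem_ext _ _)

lemma ext_eq_self {E : IntermediateField ℚ ℝ} {θ : ℝ} (h : θ ∈ E) : ext E θ = E :=
  le_antisymm (ext_le le_rfl h) (le_ext _ _)

variable {E : IntermediateField ℚ ℝ} {θ : ℝ}

lemma norm_ne_zero (hθ : θ ∉ E) {a b : ℝ} (ha : a ∈ E) (hb : b ∈ E)
    (h : a + b * θ ≠ 0) : a - b * θ ≠ 0 := by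
  intro h1
  by_cases hb0 : b = 0
  · subst hb0; apply h; linear_combination h1
  · apply hθ
    have : θ = a / b := by field_simp; linear_combination -h1
    rw [this]; exact div_mem ha hb

/-- Elements of the quadratic extension. -/
lemma mem_ext_iff (hd : θ ^ 2 ∈ E) (hθ : θ ∉ E) {x : ℝ} :
    x ∈ ext E θ ↔ ∃ a ∈ E, ∃ b ∈ E, x = a + b * θ := by
  constructor
  · intro hx
    let S : IntermediateField ℚ ℝ :=
      { carrier := {x | ∃ a ∈ E, ∃ b ∈ E, x = a + b * θ}
        mul_mem' := by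
          rintro x y ⟨a, ha, b, hb, rfl⟩ ⟨c, hc, d, hd', rfl⟩
          exact ⟨a * c + b * d * θ ^ 2, add_mem (mul_mem ha hc) (mul_mem (mul_mem hb hd') hd),
            a * d + b * c, add_mem (mul_mem ha hd') (mul_mem hb hc), by ring⟩
        add_mem' := by
          rintro x y ⟨a, ha, b, hb, rfl⟩ ⟨c, hc, d, hd', rfl⟩
          exact ⟨a + c, add_mem ha hc, b + d, add_mem hb hd', by ring⟩
        algebraMap_mem' := fun r => ⟨algebraMap ℚ ℝ r, E.algebraMap_mem r, 0, zero_mem _, by ring⟩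
        inv_mem' := by
          rintro x ⟨a, ha, b, hb, rfl⟩
          by_cases h0 : a + b * θ = 0
          · rw [h0, inv_zero]; exact ⟨0, zero_mem _, 0, zero_mem _, by ring⟩
          · have h1 := norm_ne_zero hθ ha hb h0
            have hN : a ^ 2 - b ^ 2 * θ ^ 2 ∈ E :=
              sub_mem (pow_mem ha 2) (mul_mem (pow_mem hb 2) hd)
            have hN0 : a ^ 2 - b ^ 2 * θ ^ 2 ≠ 0 := by
              have : a ^ 2 - b ^ 2 * θ ^ 2 = (a + b * θ) * (a - b * θ) := by ring
              rw [this]; exact mul_ne_zero h0 h1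
            refine ⟨a / (a ^ 2 - b ^ 2 * θ ^ 2), div_mem ha hN,
              - b / (a ^ 2 - b ^ 2 * θ ^ 2), div_mem (neg_mem hb) hN, ?_⟩
            rw [inv_eq_iff_eq_inv, eq_comm, inv_eq_iff_eq_inv, eq_comm]
            field_simp
            ring }
    have hle : ext E θ ≤ S := by
      apply ext_le
      · intro y hy; exact ⟨y, hy, 0, zero_mem _, by ring⟩
      · exact ⟨0, zero_mem _, 1, one_mem _, by ring⟩
    exact hle hx
  · rintro ⟨a, ha, b, hb, rfl⟩
    exact add_mem (le_ext E θ ha) (mul_mem (le_ext E θ hb) (self_mem_ext E θ))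

lemma coords_unique (hθ : θ ∉ E) {a b a' b' : ℝ} (ha : a ∈ E) (hb : b ∈ E) (ha' : a' ∈ E)
    (hb' : b' ∈ E) (h : a + b * θ = a' + b' * θ) : a = a' ∧ b = b' := by
  have hbb : b = b' := by
    by_contra hne
    apply hθ
    have h1 : b' - b ≠ 0 := sub_ne_zero.2 (Ne.symm hne)
    have : θ = (a - a') / (b' - b) := by field_simp; linear_combination -h
    rw [this]; exact div_mem (sub_mem ha ha') (sub_mem hb' hb)
  subst hbb
  exact ⟨by linear_combination h, rfl⟩

/-- Conjugation in the quadratic extension. -/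
lemma exists_conj (hd : θ ^ 2 ∈ E) (hθ : θ ∉ E) :
    ∃ σ : ext E θ →+* ext E θ, ∀ a (_ : a ∈ E) b (_ : b ∈ E) (h : a + b * θ ∈ ext E θ),
      ((σ ⟨a + b * θ, h⟩ : ext E θ) : ℝ) = a - b * θ := by
  have hex : ∀ x : ext E θ, ∃ a ∈ E, ∃ b ∈ E, (x : ℝ) = a + b * θ :=
    fun x => (mem_ext_iff hd hθ).1 x.2
  choose A hA B hB hAB using hex
  have hmem : ∀ a ∈ E, ∀ b ∈ E, a - b * θ ∈ ext E θ := fun a ha b hb =>
    sub_mem (le_ext E θ ha) (mul_mem (le_ext E θ hb) (self_mem_ext E θ))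
  have hAeq : ∀ (x : ext E θ) a b, a ∈ E → b ∈ E → (x : ℝ) = a + b * θ → A x = a ∧ B x = b := by
    intro x a b ha hb h
    exact coords_unique hθ (hA x) (hB x) ha hb (by rw [← hAB, h])
  have h1 := hAeq 1 1 0 (one_mem _) (zero_mem _) (by simp)
  have h0 := hAeq 0 0 0 (zero_mem _) (zero_mem _) (by simp)
  have hmul := fun x y : ext E θ => hAeq (x * y) (A x * A y + B x * B y * θ ^ 2)
    (A x * B y + B x * A y)
    (add_mem (mul_mem (hA x) (hA y)) (mul_mem (mul_mem (hB x) (hB y)) hd))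
    (add_mem (mul_mem (hA x) (hB y)) (mul_mem (hB x) (hA y)))
    (by rw [MulMemClass.coe_mul, hAB x, hAB y]; ring)
  have hadd := fun x y : ext E θ => hAeq (x + y) (A x + A y) (B x + B y)
    (add_mem (hA x) (hA y)) (add_mem (hB x) (hB y))
    (by rw [AddMemClass.coe_add, hAB x, hAB y]; ring)
  refine ⟨{ toFun := fun x => ⟨A x - B x * θ, hmem _ (hA x) _ (hB x)⟩
            map_one' := by
              apply Subtype.ext; change A 1 - B 1 * θ = 1
              rw [h1.1, h1.2]; ring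
            map_mul' := by
              intro x y
              apply Subtype.ext
              change A (x * y) - B (x * y) * θ = (A x - B x * θ) * (A y - B y * θ)
              rw [(hmul x y).1, (hmul x y).2]; ring
            map_zero' := by
              apply Subtype.ext; change A 0 - B 0 * θ = 0
              rw [h0.1, h0.2]; ring
            map_add' := by
              intro x y
              apply Subtype.ext
              change A (x + y) - B (x + y) * θ = (A x - B x * θ) + (A y - B y * θ)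
              rw [(hadd x y).1, (hadd x y).2]; ring }, ?_⟩
  intro a ha b hb h
  obtain ⟨h3, h4⟩ := hAeq ⟨a + b * θ, h⟩ a b ha hb rfl
  change A _ - B _ * θ = _
  rw [h3, h4]

/-- Hilbert 90 for squares. -/
lemma hilbert90 (hd : θ ^ 2 ∈ E) (hθ : θ ∉ E) {a b s : ℝ} (ha : a ∈ E) (hb : b ∈ E)
    (hs : s ∈ E) (hs0 : s ≠ 0) (h : (a + b * θ) * (a - b * θ) = s ^ 2) :
    ∃ z ∈ E, z ≠ 0 ∧ ∃ w ∈ ext E θ, w ≠ 0 ∧ a + b * θ = z * w ^ 2 := by
  have hmem : a + b * θ ∈ ext E θ :=
    add_mem (le_ext E θ ha) (mul_mem (le_ext E θ hb) (self_mem_ext E θ))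
  by_cases hr : a + b * θ = - s
  · exact ⟨-s, neg_mem hs, neg_ne_zero.2 hs0, 1, one_mem _, one_ne_zero, by rw [hr]; ring⟩
  · set u : ℝ := s + (a + b * θ) with hu
    have hu0 : u ≠ 0 := by
      intro h0; apply hr; rw [hu] at h0; linear_combination h0
    have hu' : (s + a) + b * θ ≠ 0 := by intro h0; apply hu0; rw [hu]; linear_combination h0
    have hu1 := norm_ne_zero hθ (add_mem hs ha) hb hu'
    have hNu : ((s + a) + b * θ) * ((s + a) - b * θ) ∈ E := by
      have : ((s + a) + b * θ) * ((s + a) - b * θ) = (s + a) ^ 2 - b ^ 2 * θ ^ 2 := by ring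
      rw [this]
      exact sub_mem (pow_mem (add_mem hs ha) 2) (mul_mem (pow_mem hb 2) hd)
    have hN0 := mul_ne_zero hu' hu1
    refine ⟨s / (((s + a) + b * θ) * ((s + a) - b * θ)), div_mem hs hNu, div_ne_zero hs0 hN0,
      u, add_mem (le_ext E θ hs) hmem, hu0, ?_⟩
    rw [div_mul_eq_mul_div, eq_div_iff hN0]
    -- x * N(u) = s * u ^ 2
    have h5 : (a + b * θ) * ((s + a) - b * θ) = s * ((s + a) + b * θ) := by
      linear_combination h
    rw [hu]
    linear_combination ((s + a) + b * θ) * h5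

end Pool.Agent.STb
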