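import Pool.Agent.Lib.MP_1ef7cf_nt_b.Tower

/-!
# Totally positive elements of the fields `ℚ(cc n)`
-/

open IntermediateField Polynomial

namespace Pool.Agent.STb

/-- `dd n = √(2 - cc n)`. -/
noncomputable def dd (n : ℕ) : ℝ := Real.sqrt (2 - cc n)

lemma dd_sq (n : ℕ) : dd n ^ 2 = 2 - cc n := by
  unfold dd; rw [Real.sq_sqrt (by linarith [cc_lt_two n])]

lemma dd_pos (n : ℕ) : 0 < dd n := Real.sqrt_pos.2 (by linarith [cc_lt_two n])

lemma dd_zero : dd 0 = cc 1 := by unfold dd; rw [cc_succ, cc_zero, sub_zero, add_zero]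

lemma dd_succ_mul (n : ℕ) : dd (n + 1) * cc (n + 2) = dd n := by
  have h1 : (dd (n + 1) * cc (n + 2)) ^ 2 = dd n ^ 2 := by
    rw [mul_pow, dd_sq, dd_sq, cc_sq]
    linear_combination - cc_sq n
  exact (pow_left_inj₀ (mul_pos (dd_pos _) (cc_pos _)).le (dd_pos n).le (by norm_num)).1 h1

/-- the fields `ℚ(cc n)` -/
noncomputable abbrev QQ (n : ℕ) : IntermediateField ℚ ℝ := tw ⊥ n

lemma dd_eq (n : ℕ) : ∃ r ∈ QQ n, r ≠ 0 ∧ dd n = r * cc (n + 1) := by
  induction n with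
  | zero => exact ⟨1, one_mem _, one_ne_zero, by rw [dd_zero, one_mul]⟩
  | succ n ih =>
    obtain ⟨r, hr, hr0, hr1⟩ := ih
    have h1 : dd n ∈ QQ (n + 1) := by
      rw [hr1]; exact mul_mem (tw_le_succ _ _ hr) (cc_mem_tw _ _)
    have h2 : 2 + cc (n + 1) ∈ QQ (n + 1) := add_mem (ofNat_mem _ 2) (cc_mem_tw _ _)
    have h3 : 2 + cc (n + 1) ≠ 0 := by linarith [cc_pos n]
    refine ⟨dd n / (2 + cc (n + 1)), div_mem h1 h2, div_ne_zero (dd_pos n).ne' h3, ?_⟩
    have h4 := dd_succ_mul n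
    have h5 := cc_sq (n + 1)
    rw [← h4, ← h5]
    have h6 := (cc_pos (n + 1)).ne'
    field_simp

lemma dd_mem (n : ℕ) : dd n ∈ QQ (n + 1) := by
  obtain ⟨r, hr, -, hr1⟩ := dd_eq n
  rw [hr1]; exact mul_mem (tw_le_succ _ _ hr) (cc_mem_tw _ _)

lemma cc_notMem (n : ℕ) : cc (n + 1) ∉ QQ n := by
  induction n with
  | zero =>
    unfold QQ
    rw [tw_zero, IntermediateField.mem_bot]
    rintro ⟨q, hq⟩
    have h1 : cc 1 = Real.sqrt 2 := by rw [cc_succ, cc_zero, add_zero]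
    rw [zero_add, h1] at hq
    exact irrational_sqrt_two ⟨q, hq⟩
  | succ n ih =>
    intro h
    have h' : cc (n + 2) ∈ ext (QQ n) (cc (n + 1)) := by rw [← tw_succ]; exact h
    obtain ⟨a, ha, b, hb, hab⟩ := (mem_ext_iff (sq_mem_tw _ n) ih).1 h'
    have h1 := cc_sq (n + 1)
    have h0 := cc_sq n
    have hc := cc_mem_tw (⊥ : IntermediateField ℚ ℝ) n
    have h2 : 2 + 1 * cc (n + 1) = (a ^ 2 + b ^ 2 * (2 + cc n)) + (2 * a * b) * cc (n + 1) := by
      have : cc (n + 2) ^ 2 = 2 + cc (n + 1) := h1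
      rw [hab] at this
      linear_combination -this + b ^ 2 * h0
    have h2m : (2 : ℝ) ∈ QQ n := ofNat_mem _ 2
    obtain ⟨h3, h4⟩ := coords_unique ih h2m (one_mem _)
      (add_mem (pow_mem ha 2) (mul_mem (pow_mem hb 2) (add_mem h2m hc)))
      (mul_mem (mul_mem h2m ha) hb) h2
    have h5 : (a ^ 2 - b ^ 2 * (2 + cc n)) ^ 2 = dd n ^ 2 := by
      rw [dd_sq]
      have : (a ^ 2 - b ^ 2 * (2 + cc n)) ^ 2 =
        (a ^ 2 + b ^ 2 * (2 + cc n)) ^ 2 - (2 * a * b) ^ 2 * (2 + cc n) := by ring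
      rw [this, ← h3, ← h4]; ring
    have h6 : dd n ∈ QQ n := by
      have h7 : a ^ 2 - b ^ 2 * (2 + cc n) ∈ QQ n :=
        sub_mem (pow_mem ha 2) (mul_mem (pow_mem hb 2) (add_mem h2m hc))
      rcases sq_eq_sq_iff_eq_or_eq_neg.1 h5 with h8 | h8
      · rw [← h8]; exact h7
      · have : dd n = -(a ^ 2 - b ^ 2 * (2 + cc n)) := by linear_combination h8
        rw [this]; exact neg_mem h7
    obtain ⟨r, hr, hr0, hr1⟩ := dd_eq n
    apply ih
    have : cc (n + 1) = dd n / r := by rw [hr1]; field_simp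
    rw [this]; exact div_mem h6 hr

/-- cyclicity of the tower -/
lemma mem_of_sq_mem (n : ℕ) {s : ℝ} (hs : s ∈ QQ (n + 2)) (hs2 : s ^ 2 ∈ QQ n) :
    s ∈ QQ (n + 1) := by
  have hn1 := cc_notMem (n + 1)
  have hn0 := cc_notMem n
  have hs' : s ∈ ext (QQ (n + 1)) (cc (n + 2)) := by rw [← tw_succ]; exact hs
  obtain ⟨a, ha, b, hb, hab⟩ := (mem_ext_iff (sq_mem_tw _ (n + 1)) hn1).1 hs'
  have h2m : (2 : ℝ) ∈ QQ (n + 1) := ofNat_mem _ 2
  have hc2 := cc_sq (n + 1)
  have h1 : s ^ 2 + 0 * cc (n + 2) =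
      (a ^ 2 + b ^ 2 * (2 + cc (n + 1))) + (2 * a * b) * cc (n + 2) := by
    rw [hab]
    have : cc (n + 2) ^ 2 = 2 + cc (n + 1) := hc2
    linear_combination b ^ 2 * this
  obtain ⟨h3, h4⟩ := coords_unique hn1 (tw_le_succ _ _ hs2) (zero_mem _)
    (add_mem (pow_mem ha 2) (mul_mem (pow_mem hb 2) (add_mem h2m (cc_mem_tw _ _))))
    (mul_mem (mul_mem h2m ha) hb) h1
  have h5 : a = 0 ∨ b = 0 := by
    have : a * b = 0 := by linear_combination -h4 / 2
    exact mul_eq_zero.1 this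
  rcases h5 with rfl | rfl
  · -- s = b * cc (n+2), b ∈ QQ (n+1) = QQ n (cc (n+1))
    by_cases hb0 : b = 0
    · rw [hab, hb0]; simp
    exfalso
    have hb' : b ∈ ext (QQ n) (cc (n + 1)) := by rw [← tw_succ]; exact hb
    obtain ⟨u, hu, v, hv, huv⟩ := (mem_ext_iff (sq_mem_tw _ n) hn0).1 hb'
    have hc1 := cc_sq n
    have hc := cc_mem_tw (⊥ : IntermediateField ℚ ℝ) n
    have h2m' : (2 : ℝ) ∈ QQ n := ofNat_mem _ 2
    -- s ^ 2 = (u + v c) ^ 2 (2 + c), c ^ 2 = 2 + cc n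
    have h6 : (u ^ 2 + v ^ 2 * (2 + cc n)) + 2 * (2 * u * v) = 0 := by
      have h7 : s ^ 2 + 0 * cc (n + 1) =
          (2 * (u ^ 2 + v ^ 2 * (2 + cc n)) + (2 * u * v) * (2 + cc n)) +
          ((u ^ 2 + v ^ 2 * (2 + cc n)) + 2 * (2 * u * v)) * cc (n + 1) := by
        rw [h3, huv]
        linear_combination (2 * v ^ 2 + v ^ 2 * cc (n + 1) + 2 * u * v) * hc1
      exact (coords_unique hn0 hs2 (zero_mem _)
        (add_mem (mul_mem h2m' (add_mem (pow_mem hu 2) (mul_mem (pow_mem hv 2)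
          (add_mem h2m' hc)))) (mul_mem (mul_mem (mul_mem h2m' hu) hv) (add_mem h2m' hc)))
        (add_mem (add_mem (pow_mem hu 2) (mul_mem (pow_mem hv 2) (add_mem h2m' hc)))
          (mul_mem h2m' (mul_mem (mul_mem h2m' hu) hv))) h7).2.symm
    -- (u + 2 v) ^ 2 = v ^ 2 (2 - cc n) = (v * dd n) ^ 2
    have h8 : (u + 2 * v) ^ 2 = (v * dd n) ^ 2 := by
      rw [mul_pow, dd_sq]; linear_combination h6
    obtain ⟨r, hr, hr0, hr1⟩ := dd_eq n
    have hv0 : v ≠ 0 := by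
      rintro rfl
      have : u = 0 := by
        have h9 : u ^ 2 = 0 := by linear_combination h8
        exact pow_eq_zero_iff (by norm_num) |>.1 h9
      apply hb0; rw [huv, this]; ring
    have h10 : v * dd n ∈ QQ n := by
      have h7 : u + 2 * v ∈ QQ n := add_mem hu (mul_mem h2m' hv)
      rcases sq_eq_sq_iff_eq_or_eq_neg.1 h8 with h8 | h8
      · rw [← h8]; exact h7
      · have : v * dd n = -(u + 2 * v) := by linear_combination h8
        rw [this]; exact neg_mem h7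
    apply hn0
    have : cc (n + 1) = (v * dd n) / (v * r) := by rw [hr1]; field_simp
    rw [this]; exact div_mem h10 (mul_mem hv hr)
  · rw [hab]; simpa using ha

lemma mem_of_sq_mem' {n : ℕ} {s : ℝ} (hs : s ∈ tinf ⊥) (hs2 : s ^ 2 ∈ QQ n) :
    s ∈ QQ (n + 1) := by
  obtain ⟨k, hk⟩ := mem_tinf.1 hs
  have key : ∀ j, s ∈ QQ (n + 1 + j) → s ∈ QQ (n + 1) := by
    intro j
    induction j with
    | zero => exact id
    | succ j ih =>
      intro h
      apply ih
      have h1 : s ^ 2 ∈ QQ (n + j) := tw_mono _ (by omega) hs2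
      have h2 : s ∈ QQ (n + j + 2) := by
        have : n + 1 + (j + 1) = n + j + 2 := by omega
        rw [← this]; exact h
      have h3 := mem_of_sq_mem (n + j) h2 h1
      have : n + 1 + j = n + j + 1 := by omega
      rw [this]; exact h3
  rcases le_total k (n + 1) with h | h
  · exact tw_mono _ h hk
  · obtain ⟨j, rfl⟩ := Nat.exists_eq_add_of_le h
    exact key j hk

/-- square roots in the tower -/
lemma sq_root_cases {n : ℕ} {s : ℝ} (hs : s ∈ tinf ⊥) (hs2 : s ^ 2 ∈ QQ n) :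
    s ∈ QQ n ∨ ∃ b ∈ QQ n, s = b * cc (n + 1) := by
  have h1 := mem_of_sq_mem' hs hs2
  have hn := cc_notMem n
  have h1' : s ∈ ext (QQ n) (cc (n + 1)) := by rw [← tw_succ]; exact h1
  obtain ⟨a, ha, b, hb, hab⟩ := (mem_ext_iff (sq_mem_tw _ n) hn).1 h1'
  have hc := sq_mem_tw (⊥ : IntermediateField ℚ ℝ) n
  have h2 : s ^ 2 + 0 * cc (n + 1) = (a ^ 2 + b ^ 2 * cc (n + 1) ^ 2) +
      (2 * a * b) * cc (n + 1) := by rw [hab]; ring
  have h2m' : (2 : ℝ) ∈ QQ n := ofNat_mem _ 2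
  obtain ⟨-, h4⟩ := coords_unique hn hs2 (zero_mem _)
    (add_mem (pow_mem ha 2) (mul_mem (pow_mem hb 2) hc)) (mul_mem (mul_mem h2m' ha) hb) h2
  have h5 : a = 0 ∨ b = 0 := by
    have : a * b = 0 := by linear_combination -h4 / 2
    exact mul_eq_zero.1 this
  rcases h5 with rfl | rfl
  · right; exact ⟨b, hb, by rw [hab]; ring⟩
  · left; rw [hab]; simpa using ha

lemma two_add_cc_inv (n : ℕ) : ((2 : ℝ) + cc n)⁻¹ ∈ DI 2 := by
  let s : ℕ → integralClosure ℤ ℝ := fun k => ⟨cc k, isIntegral_cc k⟩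
  have h0 : s 0 = 0 := Subtype.ext cc_zero
  obtain ⟨w, hw⟩ := dvd_two' (N := n) h0 (fun k _ => by
    apply Subtype.ext
    exact cc_sq k) n le_rfl
  have hw' : (2 : ℝ) = (2 + cc n) * (w : ℝ) := congrArg (fun z : integralClosure ℤ ℝ => (z : ℝ)) hw
  refine ⟨1, ?_⟩
  have h3 : (2 : ℝ) + cc n ≠ 0 := by linarith [cc_nonneg n]
  have : (((2 : ℕ) : ℝ)) ^ 1 * (2 + cc n)⁻¹ = (w : ℝ) := by
    push_cast
    rw [pow_one]
    field_simp
    linear_combination hw'
  rw [this]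
  exact w.2

lemma isGen_QQ {D : ℕ} (hD : 2 ∣ D) (n : ℕ) : IsGen D (QQ n) (cc (n + 1)) where
  sq_mem := sq_mem_tw _ n
  notMem := cc_notMem n
  two := DI_inv (by norm_num) hD
  int := DI_of_int (isIntegral_cc _)
  inv := by rw [cc_sq]; exact DI_mono hD (two_add_cc_inv n)

instance (n : ℕ) : Alg (ext (QQ n) (cc (n + 1))) := by
  rw [← tw_succ]; infer_instance

lemma TR_QQ (n : ℕ) : TR (QQ n) := TR.tw TR_bot n

/-- Valuations of even elements. -/
lemma Ev.val {D : ℕ} {E : IntermediateField ℚ ℝ} {Γ₀ : Type*} [LinearOrderedCommGroupWithZero Γ₀]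
    (v : Valuation E Γ₀) (hv : ∀ r (hr : r ∈ E), r ∈ DI D → v ⟨r, hr⟩ ≤ 1) {x : ℝ} (hx : x ∈ E)
    (h : Ev D E x) : ∃ y : E, v (⟨x, hx⟩ * y ^ 2) = 1 := by
  obtain ⟨ι, hι, y, c, h1, h2, h3, h4, h5⟩ := h
  by_contra hcon
  push Not at hcon
  have h6 : v (∑ i, (⟨c i, h2 i⟩ : E) * (⟨x, hx⟩ * ⟨y i, h1 i⟩ ^ 2)) < 1 := by
    apply v.map_sum_lt one_ne_zero
    intro i _
    rw [map_mul]
    have h7 : v (⟨x, hx⟩ * ⟨y i, h1 i⟩ ^ 2) ≤ 1 :=
      hv _ (mul_mem hx (pow_mem (h1 i) 2)) (h4 i)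
    have h8 : v (⟨x, hx⟩ * ⟨y i, h1 i⟩ ^ 2) < 1 := lt_of_le_of_ne h7 (hcon _)
    exact (mul_le_mul' (hv _ (h2 i) (h3 i)) le_rfl).trans_lt (by rwa [one_mul])
  have h9 : (∑ i, (⟨c i, h2 i⟩ : E) * (⟨x, hx⟩ * ⟨y i, h1 i⟩ ^ 2)) = 1 := by
    apply Subtype.ext
    push_cast
    exact h5
  rw [h9, map_one] at h6
  exact lt_irrefl _ h6

/-- base case -/
lemma base_zero {x : ℝ} (h : Good 2 ⊥ x) : ∃ s ∈ tinf ⊥, x = s ^ 2 := by
  obtain ⟨q, hq⟩ := IntermediateField.mem_bot.1 h.mem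
  have hq' : (q : ℝ) = x := hq
  have hxpos : 0 < x := by
    have h1 := h.tp
    rw [tp_iff h.mem] at h1
    have h2 := (h1 ((algebraMap ℝ ℂ).comp (algebraMap (⊥ : IntermediateField ℚ ℝ) ℝ))).2
    exact h2
  have hqpos : 0 < q := by rw [← hq'] at hxpos; exact_mod_cast hxpos
  -- N = num * den
  have hnum : 0 < q.num := Rat.num_pos.2 hqpos
  obtain ⟨m, hm⟩ := Int.eq_ofNat_of_zero_le hnum.le
  have hm0 : 0 < m := by
    have : (0 : ℤ) < m := by rw [← hm]; exact hnum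
    exact_mod_cast this
  have hden := q.den_pos
  obtain ⟨a, b, ha0, hb0, hab, hsf⟩ := Nat.sq_mul_squarefree_of_pos (Nat.mul_pos hm0 hden)
  -- hab : b ^ 2 * a = m * den
  have hqa : q * (q.den : ℚ) ^ 2 = (b : ℚ) ^ 2 * a := by
    have h1 : q * q.den = m := by
      have h2 := Rat.mul_den_eq_num q
      rw [h2, hm]; simp
    have h2 : ((b ^ 2 * a : ℕ) : ℚ) = ((m * q.den : ℕ) : ℚ) := by rw [hab]
    push_cast at h2
    rw [h2, ← h1]; ring
  have ha2 : a ∣ 2 := by
    have hodd : ∀ p, p.Prime → p ∣ a → p = 2 := by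
      intro p hp hpa
      by_contra hp2
      have := Fact.mk hp
      let e := (IntermediateField.botEquiv ℚ ℝ)
      let v : Valuation (⊥ : IntermediateField ℚ ℝ) _ :=
        (Rat.padicValuation p).comap (e : (⊥ : IntermediateField ℚ ℝ) →+* ℚ)
      have hv : ∀ r (hr : r ∈ (⊥ : IntermediateField ℚ ℝ)), r ∈ DI 2 → v ⟨r, hr⟩ ≤ 1 := by
        rintro r hr ⟨k, hk⟩
        obtain ⟨z, hz⟩ := IntermediateField.mem_bot.1 hr
        have hz' : (z : ℝ) = r := hz
        have he : e ⟨r, hr⟩ = z := by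
          have : (⟨r, hr⟩ : (⊥ : IntermediateField ℚ ℝ)) = (z : (⊥ : IntermediateField ℚ ℝ)) := by
            apply Subtype.ext
            push_cast
            exact hz'.symm
          rw [this, map_ratCast]; simp
        change Rat.padicValuation p (e ⟨r, hr⟩) ≤ 1
        rw [he]
        have h3 : IsIntegral ℤ ((2 : ℚ) ^ k * z) := by
          rw [← isIntegral_algebraMap_iff (algebraMap ℚ ℝ).injective]
          have : algebraMap ℚ ℝ ((2 : ℚ) ^ k * z) = ((2 : ℕ) : ℝ) ^ k * r := by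
            rw [← hz']; simp
          rw [this]; exact hk
        obtain ⟨w, hw⟩ := IsIntegrallyClosed.isIntegral_iff.1 h3
        have hw' : (w : ℚ) = (2 : ℚ) ^ k * z := hw
        have h4 : Rat.padicValuation p ((2 : ℚ) ^ k * z) ≤ 1 := by
          rw [← hw', Rat.padicValuation_cast]; exact Int.padicValuation_le_one p w
        have h5 : Rat.padicValuation p (2 : ℚ) = 1 := by
          have h6 : Rat.padicValuation p ((2 : ℤ) : ℚ) = 1 := by
            rw [Rat.padicValuation_cast, Int.padicValuation_eq_one_iff]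
            intro h7
            have h8 : p ∣ 2 := by exact_mod_cast h7
            exact hp2 ((Nat.prime_dvd_prime_iff_eq hp Nat.prime_two).1 h8)
          exact_mod_cast h6
        rwa [map_mul, map_pow, h5, one_pow, one_mul] at h4
      obtain ⟨y, hy⟩ := h.ev.val v hv h.mem
      have he : e ⟨x, h.mem⟩ = q := by
        have : (⟨x, h.mem⟩ : (⊥ : IntermediateField ℚ ℝ)) = (q : (⊥ : IntermediateField ℚ ℝ)) := by
          apply Subtype.ext
          push_cast
          exact hq'.symm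
        rw [this, map_ratCast]; simp
      change Rat.padicValuation p (e (⟨x, h.mem⟩ * y ^ 2)) = 1 at hy
      rw [map_mul, map_pow, he] at hy
      set z := e y with hz
      have hz0 : z ≠ 0 := by
        intro h0
        rw [h0] at hy
        simp at hy
      have h6 : padicValRat p (q * z ^ 2) = 0 := by
        have h7 : q * z ^ 2 ≠ 0 := mul_ne_zero hqpos.ne' (pow_ne_zero 2 hz0)
        change (if q * z ^ 2 = 0 then 0 else WithZero.exp (-padicValRat p (q * z ^ 2))) = 1 at hy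
        rw [if_neg h7, ← WithZero.exp_zero, WithZero.exp_injective.eq_iff] at hy
        omega
      have hden0 : (q.den : ℚ) ≠ 0 := by exact_mod_cast hden.ne'
      have hb0' : (b : ℚ) ≠ 0 := by exact_mod_cast hb0.ne'
      have ha0' : (a : ℚ) ≠ 0 := by exact_mod_cast ha0.ne'
      rw [padicValRat.mul hqpos.ne' (pow_ne_zero 2 hz0), padicValRat.pow] at h6
      have h8 : padicValRat p (q * (q.den : ℚ) ^ 2) = padicValRat p ((b : ℚ) ^ 2 * a) := by
        rw [hqa]
      rw [padicValRat.mul hqpos.ne' (pow_ne_zero 2 hden0), padicValRat.pow,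
        padicValRat.mul (pow_ne_zero 2 hb0') ha0', padicValRat.pow] at h8
      have h9 : padicValRat p (a : ℚ) = 1 := by
        rw [padicValRat.of_nat]
        have h10 : padicValNat p a = 1 := by
          apply le_antisymm
          · have h11 := (Nat.squarefree_iff_factorization_le_one ha0.ne').1 hsf p
            rwa [Nat.factorization_def _ hp] at h11
          · exact one_le_padicValNat_of_dvd ha0.ne' hpa
        rw [h10]; rfl
      omega
    have h1 : a = 1 ∨ a = 2 := by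
      by_cases h1 : a = 1
      · exact Or.inl h1
      right
      have h2 : a.minFac = 2 := hodd _ (Nat.minFac_prime h1) (Nat.minFac_dvd a)
      obtain ⟨c, hc⟩ : 2 ∣ a := h2 ▸ Nat.minFac_dvd a
      by_cases hc1 : c = 1
      · omega
      have h3 : c.minFac = 2 := hodd _ (Nat.minFac_prime hc1)
        ((Nat.minFac_dvd c).trans ⟨2, by omega⟩)
      obtain ⟨d, hd⟩ : 2 ∣ c := h3 ▸ Nat.minFac_dvd c
      have h4 := hsf 2 ⟨d, by rw [hc, hd]; ring⟩
      exact absurd h4 (by simp)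
    rcases h1 with h1 | h1 <;> rw [h1]
    exact one_dvd _
  have hden0 : (q.den : ℝ) ≠ 0 := by exact_mod_cast hden.ne'
  have hxa : x * (q.den : ℝ) ^ 2 = (b : ℝ) ^ 2 * a := by
    rw [← hq']; exact_mod_cast hqa
  have hbm : (b : ℝ) / q.den ∈ (⊥ : IntermediateField ℚ ℝ) :=
    div_mem (_root_.natCast_mem _ _) (_root_.natCast_mem _ _)
  rcases (Nat.dvd_prime Nat.prime_two).1 ha2 with h1 | h1
  · refine ⟨(b : ℝ) / q.den, le_tinf _ hbm, ?_⟩
    rw [h1] at hxa
    field_simp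
    rw [hxa]; push_cast; ring
  · refine ⟨(b : ℝ) / q.den * cc 1, mul_mem (le_tinf _ hbm) (tw_le_tinf _ 1 (cc_mem_tw _ 1)), ?_⟩
    rw [h1] at hxa
    rw [mul_pow, cc_sq, cc_zero]
    field_simp
    rw [hxa]; push_cast; ring

/-- **Totally positive elements of `ℚ(cc n)` which are even outside `2` become squares.** -/
theorem base_all (n : ℕ) : ∀ x, Good 2 (QQ n) x → ∃ s ∈ tinf ⊥, x = s ^ 2 := by
  induction n with
  | zero =>
    intro x hx
    unfold QQ at hx
    rw [tw_zero] at hx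
    exact base_zero hx
  | succ n ih =>
    intro x hx
    have hg := isGen_QQ (dvd_refl 2) n
    have hx' : Good 2 (ext (QQ n) (cc (n + 1))) x := by rw [← tw_succ]; exact hx
    have hTR : TR (ext (QQ n) (cc (n + 1))) := by rw [← tw_succ]; exact TR_QQ (n + 1)
    obtain ⟨a, ha, b, hb, hab⟩ := (mem_ext_iff hg.sq_mem hg.notMem).1 hx'.mem
    rw [hab] at hx'
    have hN := hg.good_norm ha hb hx'
    obtain ⟨s, hs, hs2⟩ := ih _ hN
    have hN0 : (a + b * cc (n + 1)) * (a - b * cc (n + 1)) ≠ 0 := hN.ne_zero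
    have hs0 : s ≠ 0 := by
      rintro rfl
      exact hN0 (by rw [hs2]; ring)
    -- finishing lemma
    have fin : ∀ a b : ℝ, a ∈ QQ n → b ∈ QQ n →
        Good 2 (ext (QQ n) (cc (n + 1))) (a + b * cc (n + 1)) → ∀ s ∈ QQ n, s ≠ 0 →
        (a + b * cc (n + 1)) * (a - b * cc (n + 1)) = s ^ 2 →
        ∃ w ∈ tinf ⊥, a + b * cc (n + 1) = w ^ 2 := by
      intro a b ha hb hx s hs hs0 hN
      obtain ⟨z, hz, w, hw, hw0, hzw⟩ := hg.good_of_norm hTR ha hb hx hs hs0 hN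
      obtain ⟨r, hr, hr2⟩ := ih z hz
      refine ⟨r * w, mul_mem hr ?_, ?_⟩
      · rw [← tw_succ] at hw; exact tw_le_tinf _ _ hw
      · rw [hzw, hr2]; ring
    rcases sq_root_cases hs (by rw [← hs2]; exact hN.mem) with hs1 | ⟨r, hr, hsr⟩
    · rw [hab]
      exact fin a b ha hb hx' s hs1 hs0 hs2
    · -- multiply by 2 + cc (n+1)
      have hδ : Good 2 (ext (QQ n) (cc (n + 1))) (2 + cc (n + 1)) := by
        have h1 : Good 2 (QQ (n + 1)) (2 + cc (n + 1)) := by
          refine ⟨add_mem (ofNat_mem _ 2) (cc_mem_tw _ _), ?_, ?_⟩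
          · rw [← cc_sq]
            exact TP.sq (TR_QQ (n + 2)) (cc_mem_tw _ _) (cc_pos _).ne'
          · refine Ev.unit (add_mem (ofNat_mem _ 2) (cc_mem_tw _ _)) ?_ ?_ (two_add_cc_inv _)
            · linarith [cc_pos n]
            · exact add_mem (by have := natCast_mem (DI 2) 2; exact_mod_cast this)
                (DI_of_int (isIntegral_cc _))
        rw [← tw_succ]; exact h1
      have hy := hx'.mul hδ
      have hc := cc_sq n
      have h2m' : (2 : ℝ) ∈ QQ n := ofNat_mem _ 2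
      have hcm := cc_mem_tw (⊥ : IntermediateField ℚ ℝ) n
      have hya : (a + b * cc (n + 1)) * (2 + cc (n + 1)) =
          (2 * a + b * (2 + cc n)) + (a + 2 * b) * cc (n + 1) := by
        linear_combination b * hc
      rw [hya] at hy
      obtain ⟨r', hr', hr0', hr1'⟩ := dd_eq n
      have hdd := dd_sq n
      have hNy : ((2 * a + b * (2 + cc n)) + (a + 2 * b) * cc (n + 1)) *
          ((2 * a + b * (2 + cc n)) - (a + 2 * b) * cc (n + 1)) =
          (r * r' * (2 + cc n)) ^ 2 := by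
        have h1 : ((2 * a + b * (2 + cc n)) + (a + 2 * b) * cc (n + 1)) *
          ((2 * a + b * (2 + cc n)) - (a + 2 * b) * cc (n + 1)) =
          ((a + b * cc (n + 1)) * (a - b * cc (n + 1))) * (2 - cc n) := by
          linear_combination (-(a + 2 * b) ^ 2 + b ^ 2 * (2 - cc n)) * hc
        rw [h1, hs2, hsr, ← hdd, hr1']
        linear_combination (r ^ 2 * r' ^ 2) * (cc (n + 1) ^ 2 + (2 + cc n)) * hc
      have hr0 : r ≠ 0 := by rintro rfl; exact hs0 (by rw [hsr]; ring)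
      have h2c : 2 + cc n ≠ 0 := by linarith [cc_nonneg n]
      obtain ⟨w, hw, hw2⟩ := fin _ _ (add_mem (mul_mem h2m' ha) (mul_mem hb (add_mem h2m' hcm)))
        (add_mem ha (mul_mem h2m' hb)) hy (r * r' * (2 + cc n))
        (mul_mem (mul_mem hr hr') (add_mem h2m' hcm))
        (mul_ne_zero (mul_ne_zero hr0 hr0') h2c) hNy
      refine ⟨w / cc (n + 2), div_mem hw (tw_le_tinf _ _ (cc_mem_tw _ _)), ?_⟩
      have h3 : cc (n + 2) ^ 2 = 2 + cc (n + 1) := cc_sq (n + 1)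
      have h4 : 2 + cc (n + 1) ≠ 0 := by linarith [cc_pos n]
      rw [div_pow, h3, ← hw2, ← hya, hab]
      field_simp

end Pool.Agent.STb
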