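import Pool.Agent.Lib.MP_1ef7cf_nt_b.Primes
import Pool.Agent.Lib.MP_1ef7cf_nt.Abelian

/-!
# Finiteness for totally real 2-extensions
-/

open IntermediateField Polynomial

namespace Pool.Agent.STb

open Pool.Agent.ST

/-- Finiteness for all `D`. -/
def FINA (E : IntermediateField ℚ ℝ) : Prop := ∀ D : ℕ, D ≠ 0 → FIN D (tinf E)

lemma FINA_bot : FINA ⊥ := fun _ hD => FIN_bot hD

lemma exists_mul_int {z : ℝ} (hz : IsIntegral ℚ z) : ∃ n : ℕ, n ≠ 0 ∧ IsIntegral ℤ ((n : ℝ) * z) := by
  have h1 : IsAlgebraic ℤ z := by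
    rw [IsFractionRing.isAlgebraic_iff ℤ ℚ ℝ]
    exact hz.isAlgebraic
  obtain ⟨y, hy, hint⟩ := h1.exists_integral_multiple
  refine ⟨y.natAbs, Int.natAbs_ne_zero.2 hy, ?_⟩
  rw [zsmul_eq_mul] at hint
  rcases Int.natAbs_eq y with h | h
  · rw [h] at hint
    simpa using hint
  · rw [h] at hint
    have := hint.neg
    simpa using this

/-- quadratic step -/
lemma FINA.ext {E : IntermediateField ℚ ℝ} [Alg E] {θ : ℝ} (h : FINA E) (hd : θ ^ 2 ∈ E)
    (hθ : IsIntegral ℚ θ) (hTR : TR (tinf (STb.ext E θ))) : FINA (STb.ext E θ) := by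
  intro D hD
  rw [tinf_ext] at hTR ⊢
  by_cases hmem : θ ∈ tinf E
  · rw [ext_eq_self hmem]; exact h D hD
  have hθ0 : θ ≠ 0 := by rintro rfl; exact hmem (zero_mem _)
  obtain ⟨n, hn, hn1⟩ := exists_mul_int hθ
  have hinv : IsIntegral ℚ (θ ^ 2)⁻¹ := (hθ.pow 2).inv
  obtain ⟨m, hm, hm1⟩ := exists_mul_int hinv
  have hg : IsGen (D * (2 * n * m)) (tinf E) θ := by
    refine ⟨le_tinf _ hd, hmem, ?_, ?_, ?_⟩
    · exact DI_inv (by norm_num) ⟨D * (n * m), by ring⟩
    · have h1 : θ = ((n : ℝ))⁻¹ * ((n : ℝ) * θ) := by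
        have : (n : ℝ) ≠ 0 := Nat.cast_ne_zero.2 hn
        field_simp
      rw [h1]
      exact mul_mem (DI_inv hn ⟨D * (2 * m), by ring⟩) (DI_of_int hn1)
    · have h1 : (θ ^ 2)⁻¹ = ((m : ℝ))⁻¹ * ((m : ℝ) * (θ ^ 2)⁻¹) := by
        have : (m : ℝ) ≠ 0 := Nat.cast_ne_zero.2 hm
        field_simp
      rw [h1]
      exact mul_mem (DI_inv hm ⟨D * (2 * n), by ring⟩) (DI_of_int hm1)
  have hD' : D * (2 * n * m) ≠ 0 := by positivity
  have halg : Alg (STb.ext (tinf E) θ) := alg_ext hθ
  exact ((h _ hD').step hg hTR).mono_D ⟨2 * n * m, rfl⟩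

section rs

variable {k : Type*} [Field k] [Algebra k ℝ]

/-- Restriction of scalars to `ℚ`. -/
noncomputable def rs (F : IntermediateField k ℝ) : IntermediateField ℚ ℝ :=
  { F.toSubfield with
    algebraMap_mem' := fun q => by
      have h : algebraMap ℚ ℝ q = (q : ℝ) := rfl
      rw [h]
      exact SubfieldClass.ratCast_mem F.toSubfield q }

lemma mem_rs {F : IntermediateField k ℝ} {x : ℝ} : x ∈ rs F ↔ x ∈ F := Iff.rfl

lemma rs_mono {F F' : IntermediateField k ℝ} (h : F ≤ F') : rs F ≤ rs F' := h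

/-- Descent along an element of order two. -/
lemma exists_half {F : IntermediateField k ℝ} [FiniteDimensional k F]
    (τ : F ≃ₐ[k] F) (hτ : τ * τ = 1) (hτ1 : τ ≠ 1) :
    ∃ θ ∈ F, act τ θ = - θ ∧ θ ^ 2 ∈ eqField τ 1 ∧ θ ∉ eqField τ 1 ∧
      rs F = STb.ext (rs (eqField τ 1)) θ := by
  have hmem : ∀ x, x ∈ eqField τ 1 ↔ x ∈ F ∧ act τ x = x := by
    intro x
    constructor
    · rintro ⟨h1, h2⟩
      exact ⟨h1, by rw [h2, act_one_left h1]⟩
    · rintro ⟨h1, h2⟩
      exact ⟨h1, by rw [h2, act_one_left h1]⟩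
  have hinv : ∀ x ∈ F, act τ (act τ x) = x := by
    intro x hx
    rw [← act_comp _ _ hx, hτ, act_one_left hx]
  obtain ⟨x, hx, hxx⟩ : ∃ x ∈ F, act τ x ≠ x := by
    by_contra hcon
    push Not at hcon
    apply hτ1
    apply act_ext
    intro x hx
    rw [hcon x hx, act_one_left hx]
  have hτx := act_mem τ hx
  have hsub : ∀ a b, a ∈ F → b ∈ F → act τ (a - b) = act τ a - act τ b := by
    intro a b ha hb
    rw [sub_eq_add_neg, act_add τ ha (neg_mem hb), act_neg τ hb, ← sub_eq_add_neg]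
  set θ := x - act τ x with hθ
  have hθm : θ ∈ F := sub_mem hx hτx
  have hτθ : act τ θ = - θ := by rw [hθ, hsub _ _ hx hτx, hinv x hx]; ring
  have hθ0 : θ ≠ 0 := by
    intro h0
    apply hxx
    rw [hθ] at h0
    linear_combination -h0
  have hsq : θ ^ 2 ∈ eqField τ 1 := by
    rw [hmem]
    refine ⟨pow_mem hθm 2, ?_⟩
    rw [act_pow τ hθm, hτθ]; ring
  refine ⟨θ, hθm, hτθ, hsq, ?_, ?_⟩
  · intro h
    have h1 := ((hmem θ).1 h).2
    rw [hτθ] at h1
    apply hθ0
    linarith
  · apply le_antisymm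
    · intro y hy
      have hyF : y ∈ F := hy
      have hτy := act_mem τ hyF
      have h2 : (2 : ℝ) ∈ F := ofNat_mem _ 2
      have ha : (y + act τ y) / 2 ∈ eqField τ 1 := by
        rw [hmem]
        refine ⟨div_mem (add_mem hyF hτy) h2, ?_⟩
        rw [act_div τ (add_mem hyF hτy) h2, act_add τ hyF hτy, hinv y hyF]
        have : act τ 2 = 2 := by
          have h3 := act_algebraMap τ (2 : k)
          rwa [map_ofNat] at h3
        rw [this]; ring
      have hb : (y - act τ y) / (2 * θ) ∈ eqField τ 1 := by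
        rw [hmem]
        have h2θ : 2 * θ ∈ F := mul_mem h2 hθm
        refine ⟨div_mem (sub_mem hyF hτy) h2θ, ?_⟩
        rw [act_div τ (sub_mem hyF hτy) h2θ, hsub _ _ hyF hτy, hinv y hyF, act_mul τ h2 hθm, hτθ]
        have : act τ 2 = 2 := by
          have h3 := act_algebraMap τ (2 : k)
          rwa [map_ofNat] at h3
        rw [this]
        field_simp
        ring
      have hy2 : y = (y + act τ y) / 2 + (y - act τ y) / (2 * θ) * θ := by
        field_simp
        ring
      rw [hy2]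
      exact add_mem (le_ext _ _ ha) (mul_mem (le_ext _ _ hb) (self_mem_ext _ _))
    · exact ext_le (fun y hy => ((hmem y).1 hy).1) hθm

lemma fd_of_le {F' F : IntermediateField k ℝ} (h : F' ≤ F) [FiniteDimensional k F] :
    FiniteDimensional k F' :=
  FiniteDimensional.of_injective (inclusion h).toLinearMap (inclusion h).injective

lemma finrank_dvd_of_le {F' F : IntermediateField k ℝ} (h : F' ≤ F) [FiniteDimensional k F] :
    Module.finrank k F' ∣ Module.finrank k F := by
  let _ : Algebra F' F := (inclusion h).toAlgebra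
  have : IsScalarTower k F' F := IsScalarTower.of_algebraMap_eq' rfl
  have := fd_of_le h
  exact ⟨_, (Module.finrank_mul_finrank k F' F).symm⟩

lemma eq_of_le_of_finrank {F' F : IntermediateField k ℝ} (h : F' ≤ F) [FiniteDimensional k F]
    (h2 : Module.finrank k F' = Module.finrank k F) : F' = F :=
  IntermediateField.eq_of_le_of_finrank_eq h h2

/-- **Finiteness for totally real abelian 2-extensions.** -/
theorem chain (h0 : FINA (rs (⊥ : IntermediateField k ℝ))) (n : ℕ) :
    ∀ F : IntermediateField k ℝ, ∀ [FiniteDimensional k F] [IsAbelianGalois k F],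
      Module.finrank k F = n → (∃ r, n = 2 ^ r) → Alg (rs F) → TR (tinf (rs F)) →
      FINA (rs F) := by
  induction n using Nat.strong_induction_on with
  | _ n ih =>
    intro F _ _ hn hr hA hTR
    obtain ⟨r, hr⟩ := hr
    by_cases hr0 : r = 0
    · rw [hr0, pow_zero] at hr
      have : F = ⊥ := by
        apply IntermediateField.finrank_eq_one_iff.1
        rw [hn, hr]
      rw [this]; exact h0
    -- an element of order two
    have hcard : Nat.card (F ≃ₐ[k] F) = 2 ^ r := by
      rw [IsGalois.card_aut_eq_finrank, hn, hr]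
    have := Fact.mk Nat.prime_two
    obtain ⟨τ, hτ⟩ := exists_prime_orderOf_dvd_card' (G := F ≃ₐ[k] F) 2
      (by rw [hcard]; exact dvd_pow_self 2 hr0)
    have hττ : τ * τ = 1 := by rw [← pow_two, ← hτ]; exact pow_orderOf_eq_one τ
    have hτ1 : τ ≠ 1 := by
      rintro rfl
      rw [orderOf_one] at hτ
      exact absurd hτ (by norm_num)
    obtain ⟨θ, hθ, -, hsq, hnot, hrs⟩ := exists_half τ hττ hτ1
    set F' := eqField τ 1 with hF'
    have hle : F' ≤ F := fun y hy => hy.1
    have := fd_of_le hle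
    have : IsAbelianGalois k F' := isAbelianGalois_of_le hle
    have hne : F' ≠ F := by
      intro h; apply hnot; rw [h]; exact hθ
    have hdvd := finrank_dvd_of_le hle
    have hlt : Module.finrank k F' < n := by
      rw [← hn]
      apply lt_of_le_of_ne (Nat.le_of_dvd Module.finrank_pos hdvd)
      intro h; exact hne (eq_of_le_of_finrank hle h)
    have hA' : Alg (rs F') := Alg.of_le (rs_mono hle)
    have h1 := ih _ hlt F' rfl (by
      rw [hn, hr] at hdvd
      obtain ⟨s, -, hs⟩ := (Nat.dvd_prime_pow Nat.prime_two).1 hdvd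
      exact ⟨s, hs⟩) hA' (hTR.mono (tinf_mono (rs_mono hle)))
    rw [hrs] at hTR ⊢
    exact h1.ext hsq (hA.int θ hθ) hTR

end rs

end Pool.Agent.STb
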