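import Mathlib

/-!
# The cyclotomic `ℤ_2`-tower

The numbers `cc n = 2 cos (π / 2 ^ (n + 1))`.
-/

open IntermediateField

namespace Pool.Agent.STb

/-- `cc n = 2 cos (π / 2 ^ (n + 1))`. -/
noncomputable def cc : ℕ → ℝ
  | 0 => 0
  | (n + 1) => Real.sqrt (2 + cc n)

lemma cc_zero : cc 0 = 0 := rfl

lemma cc_succ (n : ℕ) : cc (n + 1) = Real.sqrt (2 + cc n) := rfl

lemma cc_nonneg (n : ℕ) : 0 ≤ cc n := by
  cases n with
  | zero => exact le_rfl
  | succ n => exact Real.sqrt_nonneg _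

lemma cc_lt_two (n : ℕ) : cc n < 2 := by
  induction n with
  | zero => rw [cc_zero]; norm_num
  | succ n ih =>
    rw [cc_succ, Real.sqrt_lt' (by norm_num)]
    linarith

lemma cc_sq (n : ℕ) : cc (n + 1) ^ 2 = 2 + cc n := by
  rw [cc_succ, Real.sq_sqrt (by linarith [cc_nonneg n])]

lemma cc_pos (n : ℕ) : 0 < cc (n + 1) := by
  rw [cc_succ]; exact Real.sqrt_pos.2 (by linarith [cc_nonneg n])

lemma isIntegral_cc (n : ℕ) : IsIntegral ℤ (cc n) := by
  induction n with
  | zero => rw [cc_zero]; exact isIntegral_zero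
  | succ n ih =>
    apply IsIntegral.of_pow (n := 2) (by norm_num)
    rw [cc_sq]
    have h2 : IsIntegral ℤ (2 : ℝ) := isIntegral_algebraMap (R := ℤ) (x := 2)
    exact h2.add ih

/-- A sequence satisfying the same relations as `cc`. -/
def IsSeq {A : Type*} [CommRing A] (s : ℕ → A) : Prop := s 0 = 0 ∧ ∀ n, s (n + 1) ^ 2 = 2 + s n

lemma isSeq_cc : IsSeq cc := ⟨cc_zero, cc_sq⟩

lemma IsSeq.map {A B : Type*} [CommRing A] [CommRing B] {s : ℕ → A} (h : IsSeq s) (f : A →+* B) :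
    IsSeq (fun n => f (s n)) := by
  refine ⟨by simp [h.1], fun n => ?_⟩
  simp only
  rw [← map_pow, h.2, map_add, map_ofNat]

lemma isSeq_complex {s : ℕ → ℂ} {N : ℕ} (h0 : s 0 = 0)
    (h : ∀ n < N, s (n + 1) ^ 2 = 2 + s n) :
    ∀ n ≤ N, (s n).im = 0 ∧ |(s n).re| < 2 := by
  intro n
  induction n with
  | zero => intro _; rw [h0]; simp
  | succ n ih =>
    intro hn
    obtain ⟨h1, h2⟩ := ih (by omega)
    have h3 := h n (by omega)
    rw [abs_lt] at h2
    have h4 := congrArg Complex.re h3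
    have h5 := congrArg Complex.im h3
    rw [pow_two, Complex.mul_re, Complex.add_re] at h4
    rw [pow_two, Complex.mul_im, Complex.add_im, h1] at h5
    simp only [Complex.re_ofNat, Complex.im_ofNat] at h4 h5
    have h6 : (s (n + 1)).re * (s (n + 1)).im = 0 := by linarith
    rcases mul_eq_zero.1 h6 with h7 | h7
    · rw [h7] at h4
      nlinarith [mul_self_nonneg (s (n + 1)).im]
    · refine ⟨h7, ?_⟩
      rw [h7] at h4
      rw [abs_lt]
      constructor <;> nlinarith [mul_self_nonneg ((s (n + 1)).re - 2),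
        mul_self_nonneg ((s (n + 1)).re + 2)]

lemma IsSeq.complex {s : ℕ → ℂ} (h : IsSeq s) (n : ℕ) : (s n).im = 0 ∧ |(s n).re| < 2 :=
  isSeq_complex (N := n) h.1 (fun n _ => h.2 n) n le_rfl

/-- `2 / (2 - s n)` and `2 / (2 + s n)` are integral. -/
lemma dvd_two {A : Type*} [CommRing A] {s : ℕ → A} (h0 : s 0 = 0) {N : ℕ}
    (h : ∀ n < N, s (n + 1) ^ 2 = 2 + s n) :
    ∀ n ≤ N, (2 - s n) ∣ 2 := by
  intro n
  induction n with
  | zero => intro _; rw [h0, sub_zero]
  | succ n ih =>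
    intro hn
    refine dvd_trans ⟨2 + s (n + 1), ?_⟩ (ih (by omega))
    have := h n (by omega)
    linear_combination this

lemma dvd_two' {A : Type*} [CommRing A] {s : ℕ → A} (h0 : s 0 = 0) {N : ℕ}
    (h : ∀ n < N, s (n + 1) ^ 2 = 2 + s n) :
    ∀ n ≤ N, (2 + s n) ∣ 2 := by
  intro n hn
  cases n with
  | zero => rw [h0, add_zero]
  | succ n =>
    refine dvd_trans ⟨2 - s (n + 1), ?_⟩ (dvd_two h0 h n (by omega))
    have := h n (by omega)
    linear_combination this

section roots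

variable {κ : Type*} [Field κ]

/-- in a field: if `z + z⁻¹ = s n` then `z ^ (2 ^ (n + 1)) = -1`. -/
lemma pow_eq_neg_one {s : ℕ → κ} (h0 : s 0 = 0) {N : ℕ} (h : ∀ n < N, s (n + 1) ^ 2 = 2 + s n) :
    ∀ n ≤ N, ∀ z : κ, z ≠ 0 → z + z⁻¹ = s n → z ^ (2 ^ (n + 1)) = -1 := by
  intro n
  induction n with
  | zero =>
    intro _ z hz hzs
    rw [h0] at hzs
    have : z * (z + z⁻¹) = z ^ 2 + 1 := by field_simp
    rw [hzs, mul_zero] at this
    simp only [zero_add, pow_one]
    linear_combination -this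
  | succ n ih =>
    intro hn z hz hzs
    have h1 := h n (by omega)
    have h2 : z ^ 2 + (z ^ 2)⁻¹ = s n := by
      have h3 : (z + z⁻¹) ^ 2 = z ^ 2 + (z ^ 2)⁻¹ + 2 := by field_simp; ring
      rw [hzs, h1] at h3
      linear_combination -h3
    have h3 := ih (by omega) (z ^ 2) (pow_ne_zero 2 hz) h2
    rw [← pow_mul] at h3
    rw [pow_succ, mul_comm]
    exact h3

end roots

end Pool.Agent.STb
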