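import Pool.Agent.Lib.MP_1ef7cf_nt.Desc
import Pool.Agent.Lib.MP_1ef7cf_nt_b.Cyc

/-!
# Complex conjugation over the second embedding, and units without the square root condition
-/

open NumberField IsDedekindDomain nonZeroDivisors IntermediateField Polynomial

namespace Pool.Agent.STb

open Pool.Agent.ST

section emb

variable {K : Type*} [Field K] [Algebra K ℝ] {H L M : IntermediateField K ℝ}

/-- Two embeddings with the same restriction to `K` differ by an automorphism (abstract). -/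
lemma exists_aut_aux {K F : Type*} [Field K] [Field F] [Algebra K F] [Normal K F]
    {g g₀ : F →+* ℂ} (hg : ∀ a : K, g (algebraMap K F a) = g₀ (algebraMap K F a)) :
    ∃ δ : F ≃ₐ[K] F, ∀ x, g x = g₀ (δ x) := by
  let _ : Algebra K ℂ := (g₀.comp (algebraMap K F)).toAlgebra
  let _ : Algebra F ℂ := g₀.toAlgebra
  have : IsScalarTower K F ℂ := IsScalarTower.of_algebraMap_eq (fun a => rfl)
  let g₂ : F →ₐ[K] ℂ := { g with commutes' := hg }
  obtain ⟨C, hC⟩ := (Normal.algHomEquivAut K ℂ F).symm.surjective g₂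
  refine ⟨C, ?_⟩
  intro x
  have := congrArg (fun f : F →ₐ[K] ℂ => f x) hC
  exact this.symm

lemma exists_aut [Normal K L] {g g₀ : L →+* ℂ}
    (hg : ∀ a : K, g (algebraMap K L a) = g₀ (algebraMap K L a)) :
    ∃ δ : L ≃ₐ[K] L, ∀ x ∈ L, emb g x = emb g₀ (act δ x) := by
  obtain ⟨δ, hδ⟩ := exists_aut_aux hg
  refine ⟨δ, fun x hx => ?_⟩
  rw [emb_of_mem g hx, act_of_mem δ hx, emb_coe, hδ]

/-- embeddings over the first embedding of `K` are real -/
lemma emb_real [Normal K L] {g : L →+* ℂ}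
    (hg : ∀ a : K, g (algebraMap K L a) = (algebraMap K ℝ a : ℂ)) :
    ∃ δ : L ≃ₐ[K] L, ∀ x ∈ L, emb g x = (act δ x : ℂ) := by
  let g₀ : L →+* ℂ := Complex.ofRealHom.comp (algebraMap L ℝ)
  obtain ⟨δ, hδ⟩ := exists_aut (g := g) (g₀ := g₀) (fun a => hg a)
  refine ⟨δ, fun x hx => ?_⟩
  rw [hδ x hx, emb_of_mem g₀ (act_mem δ hx)]
  rfl

/-- `γ` is complex conjugation for all embeddings over `σ₂`. -/
def IsConj (σ₂ : K →+* ℝ) (L : IntermediateField K ℝ) (γ : L ≃ₐ[K] L) : Prop :=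
  ∀ g : L →+* ℂ, Over σ₂ g → ∀ x ∈ L, emb g (act γ x) = (starRingEnd ℂ) (emb g x)

variable {σ₂ : K →+* ℝ}

lemma exists_isConj (σ₂ : K →+* ℝ) [FiniteDimensional K L] [IsAbelianGalois K L] :
    ∃ γ : L ≃ₐ[K] L, IsConj σ₂ L γ := by
  obtain ⟨g₀, hg₀⟩ := exists_over (H := L) σ₂
  obtain ⟨γ, hγ⟩ := ST.exists_conj hg₀
  refine ⟨γ, fun g hg x hx => ?_⟩
  obtain ⟨δ, hδ⟩ := exists_aut (g := g) (g₀ := g₀) (fun a => (hg a).trans (hg₀ a).symm)
  rw [hδ _ (act_mem γ hx), hδ x hx, act_act_comm δ γ hx, hγ _ (act_mem δ hx)]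

lemma IsConj.unique [FiniteDimensional K L] {γ γ' : L ≃ₐ[K] L} (h : IsConj σ₂ L γ)
    (h' : IsConj σ₂ L γ') : γ = γ' := by
  obtain ⟨g, hg⟩ := exists_over (H := L) σ₂
  apply act_ext
  intro x hx
  apply emb_inj g (act_mem γ hx) (act_mem γ' hx)
  rw [h g hg x hx, h' g hg x hx]

lemma IsConj.sq [FiniteDimensional K L] {γ : L ≃ₐ[K] L} (h : IsConj σ₂ L γ) : γ * γ = 1 := by
  obtain ⟨g, hg⟩ := exists_over (H := L) σ₂
  apply act_ext
  intro x hx
  rw [act_comp _ _ hx, act_one_left hx]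
  apply emb_inj g (act_mem γ (act_mem γ hx)) hx
  rw [h g hg _ (act_mem γ hx), h g hg x hx, Complex.conj_conj]

lemma IsConj.res (hHL : H ≤ L) [FiniteDimensional K L] [Normal K H] {γ : L ≃ₐ[K] L}
    (h : IsConj σ₂ L γ) : IsConj σ₂ H (ST.res hHL γ) := by
  intro g hg x hx
  obtain ⟨g', hg'⟩ := ST.exists_extend g hHL
  have hg'o : Over σ₂ g' := by
    intro a
    have h1 := hg' (algebraMap K ℝ a) (H.algebraMap_mem a)
    rw [emb_of_mem _ (L.algebraMap_mem a), emb_of_mem _ (H.algebraMap_mem a)] at h1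
    exact h1.trans (hg a)
  rw [act_res hHL γ hx, ← hg' x hx, ← h g' hg'o x (hHL hx)]
  have h3 : act γ x ∈ H := by rw [← act_res hHL γ hx]; exact act_mem _ hx
  rw [hg' _ h3]

lemma cc_mem_of_le {n k : ℕ} (h : cc n ∈ L) (hk : k ≤ n) : cc k ∈ L := by
  induction n with
  | zero =>
    have : k = 0 := by omega
    rw [this]; exact h
  | succ n ih =>
    rcases Nat.lt_or_ge n k with h1 | h1
    · have : k = n + 1 := by omega
      rw [this]; exact h
    · apply ih _ h1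
      have h2 : cc n = cc (n + 1) ^ 2 - 2 := by rw [cc_sq]; ring
      rw [h2]
      exact sub_mem (pow_mem h 2) (ofNat_mem _ 2)

lemma emb_add' (g : L →+* ℂ) {x y : ℝ} (hx : x ∈ L) (hy : y ∈ L) :
    emb g (x + y) = emb g x + emb g y := by
  lift x to L using hx
  lift y to L using hy
  rw [← AddMemClass.coe_add, emb_coe, emb_coe, emb_coe, map_add]

lemma emb_two (g : L →+* ℂ) : emb g 2 = 2 := by
  rw [emb_of_mem g (ofNat_mem _ 2)]
  have : (⟨2, ofNat_mem _ 2⟩ : L) = 2 := rfl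
  rw [this, map_ofNat]

lemma emb_cc {n : ℕ} (h : cc n ∈ L) (g : L →+* ℂ) : (emb g (cc n)).im = 0 := by
  have h0 : emb g (cc 0) = 0 := by
    rw [cc_zero, emb_of_mem g (zero_mem _)]
    have : (⟨0, zero_mem _⟩ : L) = 0 := rfl
    rw [this, map_zero]
  have h1 := isSeq_complex (s := fun k => emb g (cc k)) (N := n) h0 (fun k hk => by
    have h2 := cc_mem_of_le h hk
    have h3 := cc_mem_of_le h hk.le
    rw [pow_two, ← emb_mul g h2 h2, ← pow_two, cc_sq, emb_add' g (ofNat_mem _ 2) h3, emb_two])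
    n le_rfl
  exact h1.1

lemma IsConj.fix_cc [FiniteDimensional K L] {γ : L ≃ₐ[K] L} (hγ : IsConj σ₂ L γ) {n : ℕ}
    (h : cc n ∈ L) : act γ (cc n) = cc n := by
  obtain ⟨g, hg⟩ := exists_over (H := L) σ₂
  apply emb_inj g (act_mem γ h) h
  rw [hγ g hg _ h]
  exact Complex.conj_eq_iff_im.2 (emb_cc h g)

/-- The conditions on a Stark unit, without the square root condition. -/
structure PreStark (σ₂ : K →+* ℝ) (H : IntermediateField K ℝ) (u : ℝ) : Prop where
  mem : u ∈ H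
  pos : ∀ σ : H ≃ₐ[K] H, 0 < act σ u
  int : IsIntegral ℤ u
  int_inv : IsIntegral ℤ u⁻¹
  abs : ∀ g : H →+* ℂ, Over σ₂ g → ‖emb g u‖ = 1

lemma PreStark.pos' {u : ℝ} (h : PreStark σ₂ H u) : 0 < u := by
  have := h.pos 1; rwa [act_one_left h.mem] at this

lemma over_extend {g : H →+* ℂ} {g' : L →+* ℂ} (hg' : ∀ x ∈ H, emb g' x = emb g x)
    (hg : Over σ₂ g) : Over σ₂ g' := by
  intro a
  have h1 := hg' (algebraMap K ℝ a) (H.algebraMap_mem a)
  rw [emb_of_mem _ (L.algebraMap_mem a), emb_of_mem _ (H.algebraMap_mem a)] at h1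
  exact h1.trans (hg a)

lemma PreStark.abs_act {u : ℝ} (hu : PreStark σ₂ L u) (γ : L ≃ₐ[K] L) {g : L →+* ℂ}
    (hg : Over σ₂ g) : ‖emb g (act γ u)‖ = 1 := by
  have h1 := hu.abs (g.comp (γ : L →+* L)) (by
    intro a
    simp only [RingHom.comp_apply]
    have : (γ : L →+* L) (algebraMap K L a) = algebraMap K L a := γ.commutes a
    rw [this]; exact hg a)
  rw [act_of_mem γ hu.mem, emb_coe]
  rw [emb_of_mem _ hu.mem] at h1
  exact h1

lemma PreStark.fibProd (h : H ≤ L) [FiniteDimensional K H] [IsGalois K H]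
    [FiniteDimensional K L] [IsGalois K L] {u : ℝ} (hu : PreStark σ₂ L u) :
    PreStark σ₂ H (ST.fibProd h u 1) := by
  have hmem : ST.fibProd h u 1 ∈ H := fibProd_mem_base h hu.mem 1
  refine ⟨hmem, ?_, ?_, ?_, ?_⟩
  · intro σ
    obtain ⟨δ, rfl⟩ := res_surjective h σ
    rw [act_res h δ hmem, act_fibProd h hu.mem]
    exact Finset.prod_pos fun γ _ => hu.pos γ
  · apply IsIntegral.prod
    intro γ _
    exact isIntegral_act γ hu.mem hu.int
  · unfold ST.fibProd
    rw [← Finset.prod_inv_distrib]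
    apply IsIntegral.prod
    intro γ _
    rw [← act_inv _ hu.mem]
    exact isIntegral_act γ (inv_mem hu.mem) hu.int_inv
  · intro g hg
    obtain ⟨g', hg'⟩ := ST.exists_extend g h
    rw [← hg' _ hmem, ST.fibProd, emb_prod g' _ _ fun γ _ => act_mem γ hu.mem, norm_prod]
    apply Finset.prod_eq_one
    intro γ _
    exact hu.abs_act γ (over_extend hg' hg)

lemma PreStark.conj [FiniteDimensional K L] {u : ℝ} (hu : PreStark σ₂ L u) {γ : L ≃ₐ[K] L}
    (hγ : IsConj σ₂ L γ) : act γ u = u⁻¹ := by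
  obtain ⟨g, hg⟩ := exists_over (H := L) σ₂
  apply emb_inj g (act_mem γ hu.mem) (inv_mem hu.mem)
  rw [hγ g hg _ hu.mem, emb_inv g hu.mem]
  have h1 := hu.abs g hg
  have h2 : (starRingEnd ℂ) (emb g u) * emb g u = 1 := by
    rw [mul_comm, Complex.mul_conj, Complex.normSq_eq_norm_sq, h1]
    simp
  exact eq_inv_of_mul_eq_one_left h2

end emb

end Pool.Agent.STb
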