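import Pool.Agent.Lib.MP_1ef7cf_nt.Mg.G002
import Pool.Agent.Lib.MP_1ef7cf_nt.RQ

/-!
# Norms of primes in the principal ray class
-/

open NumberField IsDedekindDomain nonZeroDivisors

namespace Pool.Agent.STb

open Pool.Agent.ST

variable {K : Type*} [Field K] [NumberField K] [Algebra K ℝ] {σ₂ : K →+* ℝ}

lemma norm_int_eq (h2 : Module.finrank ℚ K = 2) (hσ : σ₂ ≠ sg1 K) (x : 𝓞 K) :
    ((Algebra.norm ℤ x : ℤ) : ℝ) = sg1 K (algebraMap (𝓞 K) K x) * σ₂ (algebraMap (𝓞 K) K x) := by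
  rw [← norm_eq h2 hσ]
  have h := Algebra.coe_norm_int (K := K) x
  have h' : (((Algebra.norm ℤ x : ℤ) : ℚ) : ℝ) = ((Algebra.norm ℚ (algebraMap (𝓞 K) K x) : ℚ) : ℝ) := by
    rw [h]
  rw [← h']
  push_cast
  rfl

lemma norm_congr (h2 : Module.finrank ℚ K = 2) (hσ : σ₂ ≠ sg1 K) {N : ℕ} {a b : 𝓞 K}
    (h : a - b ∈ Ideal.span {(2 : 𝓞 K) ^ N}) :
    (2 ^ N : ℤ) ∣ Algebra.norm ℤ a - Algebra.norm ℤ b := by
  obtain ⟨c, hc⟩ := Ideal.mem_span_singleton'.1 h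
  have ha : a = b + c * 2 ^ N := by rw [hc]; ring
  have haK : algebraMap (𝓞 K) K a = algebraMap (𝓞 K) K b + algebraMap (𝓞 K) K c * 2 ^ N := by
    rw [ha, map_add, map_mul, map_pow, map_ofNat]
  set a' := algebraMap (𝓞 K) K a
  set b' := algebraMap (𝓞 K) K b
  set c' := algebraMap (𝓞 K) K c
  have hint : ∀ (φ : K →+* ℝ) (x : 𝓞 K), IsIntegral ℤ (φ (algebraMap (𝓞 K) K x)) := fun φ x =>
    (RingOfIntegers.isIntegral_coe x).map φ.toIntAlgHom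
  have hz : IsIntegral ℤ (sg1 K c' * σ₂ a' + sg1 K b' * σ₂ c') :=
    ((hint _ _).mul (hint _ _)).add ((hint _ _).mul (hint _ _))
  have hN : ((2 : ℝ) ^ N) ≠ 0 := by positivity
  have h1 : (((Algebra.norm ℤ a - Algebra.norm ℤ b : ℤ) : ℝ)) =
      2 ^ N * (sg1 K c' * σ₂ a' + sg1 K b' * σ₂ c') := by
    push_cast
    rw [norm_int_eq h2 hσ, norm_int_eq h2 hσ]
    change sg1 K a' * σ₂ a' - sg1 K b' * σ₂ b' = _
    have e1 : sg1 K a' = sg1 K b' + sg1 K c' * 2 ^ N := by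
      rw [haK, map_add, map_mul, map_pow, map_ofNat]
    have e2 : σ₂ a' = σ₂ b' + σ₂ c' * 2 ^ N := by
      rw [haK, map_add, map_mul, map_pow, map_ofNat]
    rw [e1, e2]; ring
  set q : ℚ := ((Algebra.norm ℤ a - Algebra.norm ℤ b : ℤ) : ℚ) / 2 ^ N with hq
  have hq1 : IsIntegral ℤ q := by
    rw [← isIntegral_algebraMap_iff (algebraMap ℚ ℝ).injective]
    have : algebraMap ℚ ℝ q = sg1 K c' * σ₂ a' + sg1 K b' * σ₂ c' := by
      rw [hq, map_div₀, map_intCast, h1, map_pow, map_ofNat]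
      field_simp
    rw [this]; exact hz
  obtain ⟨w, hw⟩ := IsIntegrallyClosed.isIntegral_iff.1 hq1
  have hw' : (w : ℚ) = q := hw
  refine ⟨w, ?_⟩
  have : ((Algebra.norm ℤ a - Algebra.norm ℤ b : ℤ) : ℚ) = 2 ^ N * w := by
    rw [hw', hq]; field_simp
  exact_mod_cast this

/-- The norm of a prime in the principal ray class. -/
lemma norm_mod (h2 : Module.finrank ℚ K = 2) (hσ : σ₂ ≠ sg1 K) {N : ℕ} {n' : Ideal (𝓞 K)}
    (hn' : n' ≤ Ideal.span {(2 : 𝓞 K) ^ N}) {v : HeightOneSpectrum (𝓞 K)}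
    {J : primeTo (K := K) n'} (hJ : ((J : (FI K)ˣ) : FI K) = v.asIdeal)
    (hcls : cls σ₂ n' J = 1) :
    (2 ^ N : ℤ) ∣ (Ideal.absNorm v.asIdeal : ℤ) - 1 ∨
      (2 ^ N : ℤ) ∣ (Ideal.absNorm v.asIdeal : ℤ) + 1 := by
  rw [cls_eq_one_iff] at hcls
  obtain ⟨α, hα, -, hJα⟩ := hcls
  rw [hJ] at hJα
  obtain ⟨x, -, hx1, hx2⟩ := int_of_coe_eq hα hJα
  have h3 := norm_congr h2 hσ (hn' hx1)
  rw [map_one] at h3
  rw [hx2, Ideal.absNorm_span_singleton]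
  rcases Int.natAbs_eq (Algebra.norm ℤ x) with h4 | h4
  · left
    rw [← h4]; exact h3
  · right
    have h5 : (((Algebra.norm ℤ x).natAbs : ℕ) : ℤ) + 1 = -(Algebra.norm ℤ x - 1) := by omega
    rw [h5]; exact (dvd_neg).2 h3

end Pool.Agent.STb
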