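import Pool.Agent.Lib.MP_1ef7cf_nt_b.Cyc

/-!
# The numbers `cc n` in residue fields
-/

open Polynomial

namespace Pool.Agent.STb

section

variable {κ : Type*} [Field κ]

/-- existence of `z` with `z + z⁻¹ = c` in the algebraic closure -/
lemma exists_z (c : κ) : ∃ z : AlgebraicClosure κ, z ≠ 0 ∧ z + z⁻¹ = algebraMap κ _ c := by
  set c' : AlgebraicClosure κ := algebraMap κ (AlgebraicClosure κ) c
  have hdeg : (X ^ 2 - C c' * X + 1 : (AlgebraicClosure κ)[X]).degree = 2 := by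
    have : (X ^ 2 - C c' * X + 1 : (AlgebraicClosure κ)[X]) = C 1 * X ^ 2 + C (-c') * X + C 1 := by
      simp; ring
    rw [this, degree_quadratic one_ne_zero]
  obtain ⟨z, hz⟩ := IsAlgClosed.exists_root (X ^ 2 - C c' * X + 1 : (AlgebraicClosure κ)[X]) (by rw [hdeg]; decide)
  have hz' : z ^ 2 - c' * z + 1 = 0 := by simpa [IsRoot.def] using hz
  have hz0 : z ≠ 0 := by
    rintro rfl
    simp at hz'
  refine ⟨z, hz0, ?_⟩
  field_simp
  linear_combination hz'

variable {s : ℕ → κ} {N : ℕ}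

/-- Frobenius-type invariance. -/
lemma pow_eq_self (p : ℕ) [Fact p.Prime] [CharP κ p] (h0 : s 0 = 0)
    (h : ∀ n < N, s (n + 1) ^ 2 = 2 + s n) {f : ℕ}
    (hq : (2 ^ (N + 2) : ℤ) ∣ (p : ℤ) ^ f - 1 ∨ (2 ^ (N + 2) : ℤ) ∣ (p : ℤ) ^ f + 1) :
    s N ^ (p ^ f) = s N := by
  obtain ⟨z, hz0, hz⟩ := exists_z (s N)
  have hch : CharP (AlgebraicClosure κ) p := charP_of_injective_algebraMap (algebraMap κ (AlgebraicClosure κ)).injective p
  have h1 := pow_eq_neg_one (κ := (AlgebraicClosure κ)) (s := fun n => algebraMap κ (AlgebraicClosure κ) (s n)) (by simp [h0]) (N := N)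
    (fun n hn => by rw [← map_pow, h n hn, map_add, map_ofNat]) N le_rfl z hz0 hz
  have h2 : z ^ (2 ^ (N + 2)) = 1 := by
    rw [pow_succ 2 (N + 1), pow_mul, h1]; norm_num
  have h3 : z ^ (p ^ f) + (z ^ (p ^ f))⁻¹ = z + z⁻¹ := by
    have hz' : ∀ k : ℤ, (2 ^ (N + 2) : ℤ) ∣ k → z ^ k = 1 := by
      rintro k ⟨c, rfl⟩
      rw [zpow_mul]
      have : z ^ (2 ^ (N + 2) : ℤ) = 1 := by exact_mod_cast h2
      rw [this, one_zpow]
    rcases hq with hq | hq
    · have h4 := hz' _ hq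
      rw [zpow_sub₀ hz0, zpow_one, div_eq_one_iff_eq hz0] at h4
      have h5 : z ^ (p ^ f) = z := by exact_mod_cast h4
      rw [h5]
    · have h4 := hz' _ hq
      rw [zpow_add₀ hz0, zpow_one] at h4
      have h5 : z ^ (p ^ f) * z = 1 := by exact_mod_cast h4
      have h6 : z ^ (p ^ f) = z⁻¹ := eq_inv_of_mul_eq_one_left h5
      rw [h6, inv_inv, add_comm]
  apply (algebraMap κ (AlgebraicClosure κ)).injective
  rw [map_pow, ← hz, add_pow_char_pow, inv_pow, h3]

/-- the number of elements of a residue field -/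
lemma card_sq [Finite κ] (h2 : (2 : κ) ≠ 0) (h0 : s 0 = 0)
    (h : ∀ n < N, s (n + 1) ^ 2 = 2 + s n) : 2 ^ (N + 2) ∣ Nat.card κ ^ 2 - 1 := by
  have := Fintype.ofFinite κ
  rw [Nat.card_eq_fintype_card]
  obtain ⟨z, hz0, hz⟩ := exists_z (s N)
  obtain ⟨p, hp⟩ := CharP.exists κ
  obtain ⟨f, hpp, hcard⟩ := FiniteField.card κ p
  have := Fact.mk hpp
  have hch : CharP (AlgebraicClosure κ) p := charP_of_injective_algebraMap (algebraMap κ (AlgebraicClosure κ)).injective p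
  have h1 := pow_eq_neg_one (κ := (AlgebraicClosure κ)) (s := fun n => algebraMap κ (AlgebraicClosure κ) (s n)) (by simp [h0]) (N := N)
    (fun n hn => by rw [← map_pow, h n hn, map_add, map_ofNat]) N le_rfl z hz0 hz
  have h2' : z ^ (2 ^ (N + 2)) = 1 := by
    rw [pow_succ 2 (N + 1), pow_mul, h1]; norm_num
  have hne : ¬ z ^ (2 ^ (N + 1)) = 1 := by
    rw [h1]
    intro h3
    apply h2
    apply (algebraMap κ (AlgebraicClosure κ)).injective
    rw [map_ofNat, map_zero]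
    linear_combination -h3
  have := Fact.mk Nat.prime_two
  have hord := orderOf_eq_prime_pow hne h2'
  -- z ^ q + z ^ (-q) = z + z⁻¹
  have h3 : z ^ (p ^ (f : ℕ)) + (z ^ (p ^ (f : ℕ)))⁻¹ = z + z⁻¹ := by
    have h4 : (algebraMap κ (AlgebraicClosure κ) (s N)) ^ (p ^ (f : ℕ)) = algebraMap κ (AlgebraicClosure κ) (s N) := by
      rw [← map_pow, ← hcard, FiniteField.pow_card]
    rw [← hz, add_pow_char_pow, inv_pow] at h4
    exact h4
  set q := p ^ (f : ℕ) with hq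
  have hzq := pow_ne_zero q hz0
  have h5 : (z ^ q - z) * (z ^ q * z - 1) = 0 := by
    have h6 : (z ^ q + (z ^ q)⁻¹) * (z ^ q * z) = (z + z⁻¹) * (z ^ q * z) := by rw [h3]
    field_simp at h6
    linear_combination h6
  have hq1 : 1 ≤ q := Nat.one_le_iff_ne_zero.2 (pow_ne_zero _ hpp.ne_zero)
  have h6 : z ^ (q ^ 2 - 1) = 1 := by
    have h7 : q ^ 2 - 1 = (q - 1) * (q + 1) := by
      obtain ⟨r, hr⟩ : ∃ r, q = r + 1 := ⟨q - 1, by omega⟩
      rw [hr]
      simp only [Nat.add_sub_cancel]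
      have : (r + 1) ^ 2 = r * (r + 1 + 1) + 1 := by ring
      rw [this, Nat.add_sub_cancel]
    rcases mul_eq_zero.1 h5 with h8 | h8
    · have h9 : z ^ (q - 1) = 1 := by
        have h10 : z ^ (q - 1) * z = z := by
          rw [← pow_succ, Nat.sub_add_cancel hq1]; linear_combination h8
        exact mul_right_cancel₀ hz0 (by rw [h10, one_mul])
      rw [h7, pow_mul, h9, one_pow]
    · have h9 : z ^ (q + 1) = 1 := by rw [pow_succ]; linear_combination h8
      rw [h7, mul_comm, pow_mul, h9, one_pow]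
  rw [hcard, ← hord]
  exact orderOf_dvd_of_pow_eq_one h6

end

/-- Consequence of lifting the exponent. -/
lemma two_pow_le {l f n : ℕ} (hl : ¬ 2 ∣ l) (hl1 : 1 < l) (hf : f ≠ 0)
    (h : 2 ^ (n + 2) ∣ (l ^ f) ^ 2 - 1) :
    2 ^ n ≤ f * 2 ^ (padicValNat 2 (l + 1) + padicValNat 2 (l - 1)) := by
  have := Fact.mk Nat.prime_two
  have hodd : Odd l := Nat.not_even_iff_odd.1 fun h => hl h.two_dvd
  have h1 := padicValNat.pow_two_sub_pow (x := l) (y := 1) hl1
    (by obtain ⟨k, hk⟩ := hodd; exact ⟨k, by omega⟩) hl (n := 2 * f) (by omega) ⟨f, by ring⟩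
  rw [one_pow] at h1
  have h2 : (l ^ f) ^ 2 - 1 = l ^ (2 * f) - 1 := by rw [← pow_mul, mul_comm]
  rw [h2] at h
  have hne : l ^ (2 * f) - 1 ≠ 0 := by
    have : 1 < l ^ (2 * f) := Nat.one_lt_pow (by omega) hl1
    omega
  have h3 : n + 2 ≤ padicValNat 2 (l ^ (2 * f) - 1) := (padicValNat_dvd_iff_le hne).1 h
  have h4 : padicValNat 2 (2 * f) = 1 + padicValNat 2 f := by
    rw [padicValNat.mul (by norm_num) hf, padicValNat_self]
  rw [h4] at h1
  have h5 : 2 ^ padicValNat 2 f ≤ f := Nat.le_of_dvd (Nat.pos_of_ne_zero hf) pow_padicValNat_dvd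
  calc 2 ^ n ≤ 2 ^ (padicValNat 2 f + (padicValNat 2 (l + 1) + padicValNat 2 (l - 1))) :=
        Nat.pow_le_pow_right (by norm_num) (by omega)
    _ = 2 ^ padicValNat 2 f * 2 ^ (padicValNat 2 (l + 1) + padicValNat 2 (l - 1)) := pow_add _ _ _
    _ ≤ _ := Nat.mul_le_mul_right _ h5

end Pool.Agent.STb
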