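import Pool.Agent.Lib.MP_1ef7cf_nt_b.Val
import Pool.Agent.Lib.MP_1ef7cf_nt_b.Roots
import Pool.Agent.Lib.MP_1ef7cf_nt_b.Base

/-!
# Finiteness for the cyclotomic tower over `ℚ`
-/

open NumberField IsDedekindDomain IntermediateField Polynomial

namespace Pool.Agent.STb

/-- polynomial with root `cc n` -/
noncomputable def pp : ℕ → ℚ[X]
  | 0 => X
  | (n + 1) => (pp n).comp (X ^ 2 - 2)

lemma pp_spec (n : ℕ) : aeval (cc n) (pp n) = 0 ∧ (pp n).natDegree = 2 ^ n := by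
  induction n with
  | zero => simp [pp, cc_zero]
  | succ n ih =>
    constructor
    · rw [pp, aeval_comp]
      have : aeval (cc (n + 1)) (X ^ 2 - 2 : ℚ[X]) = cc n := by
        simp only [map_sub, map_pow, aeval_X, map_ofNat]
        rw [cc_sq]; ring
      rw [this, ih.1]
    · rw [pp, natDegree_comp, ih.2]
      have : (X ^ 2 - 2 : ℚ[X]).natDegree = 2 := by
        have : (X ^ 2 - 2 : ℚ[X]) = X ^ 2 - C 2 := by rw [map_ofNat]
        rw [this, natDegree_X_pow_sub_C]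
      rw [this]; ring

lemma QQ_eq (n : ℕ) : QQ n = ℚ⟮cc n⟯ := by
  unfold QQ tw ext; rw [bot_sup_eq]

instance fd_QQ (n : ℕ) : FiniteDimensional ℚ (QQ n) := by
  rw [QQ_eq]
  exact adjoin.finiteDimensional (isIntegral_rat_of_int (isIntegral_cc n))

lemma finrank_QQ (n : ℕ) : Module.finrank ℚ (QQ n) ≤ 2 ^ n := by
  rw [QQ_eq, adjoin.finrank (isIntegral_rat_of_int (isIntegral_cc n)), ← (pp_spec n).2]
  apply natDegree_le_of_dvd (minpoly.dvd _ _ (pp_spec n).1)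
  intro h
  have := (pp_spec n).2
  rw [h, natDegree_zero] at this
  exact absurd this.symm (pow_ne_zero n (by norm_num))

instance nf_QQ (n : ℕ) : NumberField (QQ n) := NumberField.of_module_finite ℚ (QQ n)

lemma finrank_int_QQ (n : ℕ) : Module.finrank ℤ (𝓞 (QQ n)) ≤ 2 ^ n := by
  rw [RingOfIntegers.rank]
  exact finrank_QQ n

/-- Evenness from valuations. -/
lemma Ev.of_val {M : IntermediateField ℚ ℝ} [NumberField M] {D : ℕ} (hD : D ≠ 0) {x : ℝ}
    (hx : x ∈ M) (hx0 : x ≠ 0)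
    (h : ∀ Q : HeightOneSpectrum (𝓞 M), (D : 𝓞 M) ∉ Q.asIdeal → SqAt Q (⟨x, hx⟩ : M)) :
    Ev D M x := by
  obtain ⟨k, ι, hι, y, c, h1, h2, h3⟩ := exists_global (x := (⟨x, hx⟩ : M))
    (fun h0 => hx0 (congrArg Subtype.val h0)) h
  have hDk : ((D : ℝ) ^ k) ≠ 0 := pow_ne_zero k (Nat.cast_ne_zero.2 hD)
  have hDinv : (D : ℝ)⁻¹ ∈ DI D := DI_inv hD dvd_rfl
  refine ⟨ι, hι, fun i => (y i : ℝ), fun i => ((D : ℝ) ^ k)⁻¹ * (c i : ℝ), fun i => (y i).2,
    fun i => mul_mem (inv_mem (pow_mem (_root_.natCast_mem _ _) k)) (c i).2, fun i => ?_,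
    fun i => ?_, ?_⟩
  · apply mul_mem
    · rw [← inv_pow]; exact pow_mem hDinv k
    · exact DI_of_int ((h1 i).map (algebraMap M ℝ).toIntAlgHom)
  · exact DI_of_int ((h2 i).map (algebraMap M ℝ).toIntAlgHom)
  · have h4 := congrArg (fun z : M => (z : ℝ)) h3
    push_cast at h4
    have h5 : ∑ i, ((D : ℝ) ^ k)⁻¹ * (c i : ℝ) * (x * (y i : ℝ) ^ 2) =
        ((D : ℝ) ^ k)⁻¹ * ∑ i, (c i : ℝ) * (x * (y i : ℝ) ^ 2) := by
      rw [Finset.mul_sum]
      refine Finset.sum_congr rfl fun i _ => by ring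
    rw [h5, h4, inv_mul_cancel₀ hDk]

/-- Valuations from evenness. -/
lemma Ev.sqAt {M : IntermediateField ℚ ℝ} [NumberField M] {D : ℕ} {x : ℝ}
    (hx : x ∈ M) (h : Ev D M x) (Q : HeightOneSpectrum (𝓞 M)) (hQ : (D : 𝓞 M) ∉ Q.asIdeal) :
    SqAt Q (⟨x, hx⟩ : M) := by
  apply h.val (Q.valuation M) ?_ hx
  rintro r hr ⟨k, hk⟩
  have h1 : IsIntegral ℤ ((D : M) ^ k * ⟨r, hr⟩) := by
    rw [← isIntegral_algebraMap_iff (algebraMap M ℝ).injective]
    have : algebraMap M ℝ ((D : M) ^ k * ⟨r, hr⟩) = (D : ℝ) ^ k * r := by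
      rw [map_mul, map_pow, map_natCast]; rfl
    rw [this]; exact hk
  have h2 := val_int Q h1
  rwa [map_mul, map_pow, val_nat hQ, one_pow, one_mul] at h2

section norms

variable {M : Type} [Field M] [NumberField M]

lemma norm_ge {P : HeightOneSpectrum (𝓞 M)} {l : ℕ} (hl : l.Prime) (hl2 : l ≠ 2)
    (hlP : (l : 𝓞 M) ∈ P.asIdeal) {n : ℕ} {s : ℕ → 𝓞 M} (h0 : s 0 = 0)
    (h : ∀ k < n, s (k + 1) ^ 2 = 2 + s k) :
    l ^ (2 ^ n) ≤ (Ideal.absNorm P.asIdeal) ^ (2 ^ (padicValNat 2 (l + 1) + padicValNat 2 (l - 1))) := by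
  have hl2' : ¬ 2 ∣ l := fun h => hl2 ((Nat.prime_dvd_prime_iff_eq Nat.prime_two hl).1 h).symm
  have hPm := P.isMaximal
  have hch := charP_quot hl hlP
  let _ : Field (𝓞 M ⧸ P.asIdeal) := Ideal.Quotient.field P.asIdeal
  have hfin : Finite (𝓞 M ⧸ P.asIdeal) := Ideal.finiteQuotientOfFreeOfNeBot P.asIdeal P.ne_bot
  have h2κ : (2 : 𝓞 M ⧸ P.asIdeal) ≠ 0 := by
    intro h0
    apply hl2'
    have h1 : ((2 : ℕ) : 𝓞 M ⧸ P.asIdeal) = 0 := by exact_mod_cast h0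
    have h2 : l ∣ 2 := (CharP.cast_eq_zero_iff _ l 2).1 h1
    rw [(Nat.prime_dvd_prime_iff_eq hl Nat.prime_two).1 h2]
  have h3 := card_sq (κ := 𝓞 M ⧸ P.asIdeal) (s := fun k => Ideal.Quotient.mk P.asIdeal (s k))
    (N := n) h2κ (by simp [h0]) (fun k hk => by rw [← map_pow, h k hk, map_add, map_ofNat])
  have hft := Fintype.ofFinite (𝓞 M ⧸ P.asIdeal)
  obtain ⟨f, -, hcard⟩ := FiniteField.card (𝓞 M ⧸ P.asIdeal) l
  have hcard' : Ideal.absNorm P.asIdeal = l ^ (f : ℕ) := by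
    rw [Ideal.absNorm_apply, Submodule.cardQuot_apply, ← hcard, Nat.card_eq_fintype_card]
  rw [Nat.card_eq_fintype_card, hcard] at h3
  have h4 := two_pow_le hl2' hl.one_lt f.ne_zero h3
  rw [hcard', ← pow_mul]
  exact Nat.pow_le_pow_right hl.pos h4

lemma prod_norm_le {l : ℕ} (hl : l.Prime) (S : Finset (HeightOneSpectrum (𝓞 M)))
    (hS : ∀ P ∈ S, (l : 𝓞 M) ∈ P.asIdeal) :
    ∏ P ∈ S, Ideal.absNorm P.asIdeal ≤ l ^ Module.finrank ℤ (𝓞 M) := by
  classical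
  have hinj : Set.InjOn (HeightOneSpectrum.asIdeal : HeightOneSpectrum (𝓞 M) → _) S :=
    fun P _ Q _ h => HeightOneSpectrum.ext h
  have hdvd : (∏ I ∈ S.image HeightOneSpectrum.asIdeal, I) ∣ Ideal.span {(l : 𝓞 M)} := by
    apply Finset.prod_primes_dvd
    · intro I hI
      obtain ⟨P, hP, rfl⟩ := Finset.mem_image.1 hI
      exact P.prime
    · intro I hI
      obtain ⟨P, hP, rfl⟩ := Finset.mem_image.1 hI
      rw [Ideal.dvd_span_singleton]
      exact hS P hP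
  rw [Finset.prod_image hinj] at hdvd
  have h1 := map_dvd Ideal.absNorm hdvd
  rw [map_prod, Ideal.absNorm_span_natCast] at h1
  exact Nat.le_of_dvd (pow_pos hl.pos _) h1

/-- Bound on the number of primes over `l`. -/
lemma card_primes_le' {l : ℕ} (hl : l.Prime) (hl2 : l ≠ 2) {n : ℕ}
    (hn : Module.finrank ℤ (𝓞 M) ≤ 2 ^ n) {s : ℕ → 𝓞 M} (h0 : s 0 = 0)
    (h : ∀ k < n, s (k + 1) ^ 2 = 2 + s k)
    (S : Finset (HeightOneSpectrum (𝓞 M))) (hS : ∀ P ∈ S, (l : 𝓞 M) ∈ P.asIdeal) :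
    S.card ≤ 2 ^ (padicValNat 2 (l + 1) + padicValNat 2 (l - 1)) := by
  set c := padicValNat 2 (l + 1) + padicValNat 2 (l - 1) with hc
  have h1 : (l ^ (2 ^ n)) ^ S.card ≤ (l ^ (2 ^ n)) ^ (2 ^ c) := by
    calc (l ^ (2 ^ n)) ^ S.card = ∏ P ∈ S, l ^ (2 ^ n) := by rw [Finset.prod_const]
      _ ≤ ∏ P ∈ S, (Ideal.absNorm P.asIdeal) ^ (2 ^ c) :=
        Finset.prod_le_prod' fun P hP => norm_ge hl hl2 (hS P hP) h0 h
      _ = (∏ P ∈ S, Ideal.absNorm P.asIdeal) ^ (2 ^ c) := by rw [Finset.prod_pow]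
      _ ≤ (l ^ Module.finrank ℤ (𝓞 M)) ^ (2 ^ c) :=
        Nat.pow_le_pow_left (prod_norm_le hl S hS) _
      _ ≤ (l ^ (2 ^ n)) ^ (2 ^ c) :=
        Nat.pow_le_pow_left (Nat.pow_le_pow_right hl.pos hn) _
  have h2 : 1 < l ^ (2 ^ n) := Nat.one_lt_pow (pow_ne_zero _ (by norm_num)) hl.one_lt
  exact (Nat.pow_le_pow_iff_right h2).1 h1

end norms

/-- the sequence `cc k` in the ring of integers -/
lemma exists_seq (n : ℕ) : ∃ s : ℕ → 𝓞 (QQ n), s 0 = 0 ∧ ∀ k < n, s (k + 1) ^ 2 = 2 + s k := by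
  have hmem : ∀ k ≤ n, cc k ∈ QQ n := fun k hk => tw_mono _ hk (cc_mem_tw _ k)
  have hex : ∀ k, ∃ r : 𝓞 (QQ n), k ≤ n →
      ((algebraMap (𝓞 (QQ n)) (QQ n) r : QQ n) : ℝ) = cc k := by
    intro k
    by_cases hk : k ≤ n
    · have hint : IsIntegral ℤ (⟨cc k, hmem k hk⟩ : QQ n) :=
        (isIntegral_algebraMap_iff (algebraMap (QQ n) ℝ).injective).1 (isIntegral_cc k)
      exact ⟨⟨_, hint⟩, fun _ => rfl⟩
    · exact ⟨0, fun h => absurd h hk⟩
  choose s hs using hex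
  refine ⟨s, ?_, ?_⟩
  · apply RingOfIntegers.coe_injective
    apply Subtype.ext
    rw [hs 0 (Nat.zero_le n), map_zero, cc_zero]
    rfl
  · intro k hk
    apply RingOfIntegers.coe_injective
    apply Subtype.ext
    rw [map_pow, map_add, map_ofNat]
    push_cast
    rw [hs (k + 1) hk, hs k hk.le, cc_sq]
    rfl

lemma card_primes_le {l : ℕ} (hl : l.Prime) (hl2 : l ≠ 2) (n : ℕ)
    (S : Finset (HeightOneSpectrum (𝓞 (QQ n)))) (hS : ∀ P ∈ S, (l : 𝓞 (QQ n)) ∈ P.asIdeal) :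
    S.card ≤ 2 ^ (padicValNat 2 (l + 1) + padicValNat 2 (l - 1)) := by
  obtain ⟨s, h0, h⟩ := exists_seq n
  exact card_primes_le' hl hl2 (finrank_int_QQ n) h0 h S hS

/-- the bound for the number of primes over `D` not over `2` -/
noncomputable def bound (D : ℕ) : ℕ :=
  ∑ l ∈ D.primeFactors, 2 ^ (padicValNat 2 (l + 1) + padicValNat 2 (l - 1))

lemma prime_mem {M : Type} [Field M] [NumberField M] {P : HeightOneSpectrum (𝓞 M)} {D : ℕ}
    (hD : D ≠ 0) (h : (D : 𝓞 M) ∈ P.asIdeal) : ∃ l ∈ D.primeFactors, (l : 𝓞 M) ∈ P.asIdeal := by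
  have h1 : (D : 𝓞 M) = ∏ l ∈ D.primeFactors, (l : 𝓞 M) ^ D.factorization l := by
    conv_lhs => rw [← Nat.prod_factorization_pow_eq_self hD]
    rw [Finsupp.prod, Nat.support_factorization]
    push_cast
    rfl
  rw [h1] at h
  have := P.isPrime
  obtain ⟨l, hl, hl'⟩ := (Ideal.IsPrime.prod_mem_iff (p := P.asIdeal)).1 h
  exact ⟨l, hl, Ideal.IsPrime.mem_of_pow_mem this _ hl'⟩

lemma card_le_bound {D : ℕ} (hD : D ≠ 0) (n : ℕ)
    (S : Finset (HeightOneSpectrum (𝓞 (QQ n))))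
    (hS : ∀ P ∈ S, (D : 𝓞 (QQ n)) ∈ P.asIdeal ∧ (2 : 𝓞 (QQ n)) ∉ P.asIdeal) :
    S.card ≤ bound D := by
  classical
  choose! g hg1 hg2 using fun P (hP : P ∈ S) => prime_mem hD (hS P hP).1
  calc S.card = ∑ l ∈ D.primeFactors, (S.filter fun P => g P = l).card :=
        Finset.card_eq_sum_card_fiberwise hg1
    _ ≤ bound D := by
      apply Finset.sum_le_sum
      intro l hl
      by_cases hl2 : l = 2
      · have : (S.filter fun P => g P = l) = ∅ := by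
          rw [Finset.filter_eq_empty_iff]
          intro P hP hgl
          apply (hS P hP).2
          have := hg2 P hP
          rw [hgl, hl2] at this
          exact_mod_cast this
        rw [this]; simp
      · apply card_primes_le (Nat.prime_of_mem_primeFactors hl) hl2 n
        intro P hP
        rw [Finset.mem_filter] at hP
        rw [← hP.2]; exact hg2 P hP.1

lemma finite_primes {M : Type} [Field M] [NumberField M] {D : ℕ} (hD : D ≠ 0) :
    {P : HeightOneSpectrum (𝓞 M) | (D : 𝓞 M) ∈ P.asIdeal}.Finite := by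
  have h : Ideal.span {(D : 𝓞 M)} ≠ ⊥ := by
    rw [Ne, Ideal.span_singleton_eq_bot]; exact_mod_cast hD
  apply (Ideal.finite_factors h).subset
  intro P hP
  change P.asIdeal ∣ _
  rw [Ideal.dvd_span_singleton]; exact hP

/-- pairwise inequivalent good elements are few -/
lemma card_good_le {D : ℕ} (hD : D ≠ 0) (T : Finset ℝ) (hT : ∀ x ∈ T, Good D (tinf ⊥) x)
    (hne : ∀ x ∈ T, ∀ x' ∈ T, x ≠ x' → ∀ s ∈ tinf ⊥, s ≠ 0 → x ≠ x' * s ^ 2) :
    T.card ≤ 2 ^ bound D := by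
  classical
  -- common level
  obtain ⟨n, hn⟩ : ∃ n, ∀ x ∈ T, Good D (QQ n) x := by
    choose! f hf using fun x (hx : x ∈ T) => (hT x hx).finite_level
    exact ⟨T.sup f, fun x hx => hf x hx _ (Finset.le_sup (f := f) hx)⟩
  have hfin := finite_primes (M := QQ n) hD
  set PP := hfin.toFinset.filter fun P => (2 : 𝓞 (QQ n)) ∉ P.asIdeal with hPP
  have hcard : PP.card ≤ bound D := by
    apply card_le_bound hD n
    intro P hP
    rw [hPP, Finset.mem_filter, Set.Finite.mem_toFinset] at hP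
    exact hP
  by_contra hlt
  push Not at hlt
  let φ : ℝ → Finset (HeightOneSpectrum (𝓞 (QQ n))) := fun x =>
    PP.filter fun P => ∃ h : x ∈ QQ n, SqAt P (⟨x, h⟩ : QQ n)
  obtain ⟨x, hx, x', hx', hxx', hφ⟩ := Finset.exists_ne_map_eq_of_card_lt_of_maps_to
    (s := T) (t := PP.powerset) (f := φ) (by
      rw [Finset.card_powerset]
      exact lt_of_le_of_lt (Nat.pow_le_pow_right (by norm_num) hcard) hlt)
    (fun x _ => Finset.mem_coe.2 (Finset.mem_powerset.2 (Finset.filter_subset _ _)))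
  have g1 := hn x hx
  have g2 := hn x' hx'
  have n1 := g1.ne_zero
  have n2 := g2.ne_zero
  have hev : Ev 2 (QQ n) (x * x') := by
    apply Ev.of_val (by norm_num) (mul_mem g1.mem g2.mem) (mul_ne_zero n1 n2)
    intro Q hQ
    have hQ2 : (2 : 𝓞 (QQ n)) ∉ Q.asIdeal := by exact_mod_cast hQ
    have e : (⟨x * x', mul_mem g1.mem g2.mem⟩ : QQ n) = ⟨x, g1.mem⟩ * ⟨x', g2.mem⟩ := rfl
    rw [e]
    apply SqAt.mul_of_iff (fun h0 => n1 (congrArg Subtype.val h0))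
      (fun h0 => n2 (congrArg Subtype.val h0))
    by_cases hDQ : (D : 𝓞 (QQ n)) ∈ Q.asIdeal
    · have hQPP : Q ∈ PP := by
        rw [hPP, Finset.mem_filter, Set.Finite.mem_toFinset]
        exact ⟨hDQ, hQ2⟩
      have h3 : Q ∈ φ x ↔ Q ∈ φ x' := by rw [hφ]
      simp only [φ, Finset.mem_filter, hQPP, true_and] at h3
      constructor
      · intro h4
        obtain ⟨_, h5⟩ := h3.1 ⟨g1.mem, h4⟩
        exact h5
      · intro h4
        obtain ⟨_, h5⟩ := h3.2 ⟨g2.mem, h4⟩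
        exact h5
    · exact ⟨fun _ => g2.ev.sqAt g2.mem Q hDQ, fun _ => g1.ev.sqAt g1.mem Q hDQ⟩
  obtain ⟨s, hs, hs2⟩ := base_all n (x * x')
    ⟨mul_mem g1.mem g2.mem, g1.tp.mul g1.mem g2.mem g2.tp, hev⟩
  have hs0 : s ≠ 0 := by
    rintro rfl
    exact mul_ne_zero n1 n2 (by rw [hs2]; ring)
  apply hne x hx x' hx' hxx' (s / x') (div_mem hs (tw_le_tinf _ n g2.mem)) (div_ne_zero hs0 n2)
  rw [div_pow, ← hs2]
  field_simp

/-- **Finiteness for the cyclotomic tower over `ℚ`.** -/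
theorem FIN_bot {D : ℕ} (hD : D ≠ 0) : FIN D (tinf ⊥) := by
  classical
  by_contra hF
  unfold FIN at hF
  push Not at hF
  have key : ∀ k : ℕ, ∃ T : Finset ℝ, T.card = k ∧ (∀ x ∈ T, Good D (tinf ⊥) x) ∧
      (∀ x ∈ T, ∀ x' ∈ T, x ≠ x' → ∀ s ∈ tinf ⊥, s ≠ 0 → x ≠ x' * s ^ 2) := by
    intro k
    induction k with
    | zero => exact ⟨∅, rfl, by simp, by simp⟩
    | succ k ih =>
      obtain ⟨T, h1, h2, h3⟩ := ih
      obtain ⟨x, hx, hxT⟩ := hF T
      have hxn : x ∉ T := by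
        intro h
        exact hxT x h 1 (one_mem _) one_ne_zero (by ring)
      refine ⟨insert x T, by rw [Finset.card_insert_of_notMem hxn, h1], ?_, ?_⟩
      · intro y hy
        rcases Finset.mem_insert.1 hy with rfl | hy
        · exact hx
        · exact h2 y hy
      · intro y hy y' hy' hne s hs hs0 heq
        rcases Finset.mem_insert.1 hy with hy1 | hy1
        · rcases Finset.mem_insert.1 hy' with hy2 | hy2
          · exact hne (hy1.trans hy2.symm)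
          · exact hxT y' hy2 s hs hs0 (hy1 ▸ heq)
        · rcases Finset.mem_insert.1 hy' with hy2 | hy2
          · refine hxT y hy1 s⁻¹ (inv_mem hs) (inv_ne_zero hs0) ?_
            rw [heq, hy2]; field_simp
          · exact h3 y hy1 y' hy2 hne s hs hs0 heq
  obtain ⟨T, h1, h2, h3⟩ := key (2 ^ bound D + 1)
  have := card_good_le hD T h2 h3
  omega

end Pool.Agent.STb
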