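import Pool.Agent.Lib.MP_1ef7cf_nt.RCF
import Pool.Agent.Lib.MP_1ef7cf_nt_b.NormMod
import Pool.Agent.Lib.MP_1ef7cf_nt_b.Primes

/-!
# The numbers `cc n` lie in the ray class fields of modulus divisible by powers of two
-/

open NumberField IsDedekindDomain nonZeroDivisors IntermediateField Polynomial

namespace Pool.Agent.STb

open Pool.Agent.ST

section split

/-- the map `x ↦ x ^ 2 - 2` -/
def sqm {A : Type*} [CommRing A] (x : A) : A := x ^ 2 - 2

lemma aeval_pp {A : Type*} [Field A] [Algebra ℚ A] (n : ℕ) (r : A) :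
    aeval r (pp n) = (sqm^[n]) r := by
  induction n generalizing r with
  | zero => simp [pp]
  | succ n ih =>
    rw [pp, aeval_comp, Function.iterate_succ, Function.comp_apply, ← ih]
    have h1 : aeval r (X ^ 2 - 2 : ℚ[X]) = sqm r := by
      simp only [map_sub, map_pow, aeval_X, map_ofNat]
      rfl
    rw [h1]

lemma pp_monic (n : ℕ) : (pp n).Monic := by
  induction n with
  | zero => exact monic_X
  | succ n ih =>
    rw [pp]
    apply ih.comp
    · have : (X ^ 2 - 2 : ℚ[X]) = X ^ 2 - C 2 := by rw [map_ofNat]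
      rw [this]; exact monic_X_pow_sub_C _ (by norm_num)
    · have : (X ^ 2 - 2 : ℚ[X]) = X ^ 2 - C 2 := by rw [map_ofNat]
      rw [this, natDegree_X_pow_sub_C]; norm_num

/-- real roots are in `(-2, 2)` -/
lemma root_lt {n : ℕ} {r : ℝ} (h : (sqm^[n]) r = 0) : |r| < 2 := by
  induction n generalizing r with
  | zero =>
    simp only [Function.iterate_zero, id_eq] at h
    rw [h]; norm_num
  | succ n ih =>
    rw [Function.iterate_succ, Function.comp_apply] at h
    have h1 := ih h
    unfold sqm at h1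
    rw [abs_lt] at h1 ⊢
    constructor <;> nlinarith

lemma pp_splits (n : ℕ) : ((pp n).map (algebraMap ℚ ℝ)).Splits := by
  induction n with
  | zero => simp [pp]
  | succ n ih =>
    have h6 := ih.eq_prod_roots_of_monic ((pp_monic n).map _)
    rw [pp, Polynomial.map_comp, h6]
    simp only [Polynomial.map_pow, map_X, Polynomial.map_sub, Polynomial.map_ofNat,
      Polynomial.multiset_prod_comp, Multiset.map_map]
    apply Splits.multisetProd
    intro f hf
    rw [Multiset.mem_map] at hf
    obtain ⟨r, hr, rfl⟩ := hf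
    have hr' : (sqm^[n]) r = 0 := by
      have h1 := (mem_roots'.1 hr).2
      rw [IsRoot.def, eval_map_algebraMap, aeval_pp] at h1
      exact h1
    have h2 := root_lt hr'
    rw [abs_lt] at h2
    have hs : Real.sqrt (2 + r) ^ 2 = 2 + r := Real.sq_sqrt (by linarith)
    have h3 : (fun i => ((X - C i : ℝ[X]).comp (X ^ 2 - 2))) r =
        (X - C (Real.sqrt (2 + r))) * (X + C (Real.sqrt (2 + r))) := by
      simp only [sub_comp, X_comp, C_comp]
      have h4 : (X - C (Real.sqrt (2 + r))) * (X + C (Real.sqrt (2 + r))) =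
          X ^ 2 - C (Real.sqrt (2 + r) ^ 2) := by rw [map_pow]; ring
      rw [h4, hs, map_add, map_ofNat]
      ring
    simp only [Function.comp] at h3 ⊢
    rw [h3]
    exact (Splits.X_sub_C _).mul (Splits.X_add_C _)

end split

section cyc

variable {K : Type*} [Field K] [NumberField K] [Algebra K ℝ] {σ₂ : K →+* ℝ}

/-- the polynomial over `K` -/
noncomputable def ppK (K : Type*) [Field K] [CharZero K] (n : ℕ) : K[X] := (pp n).map (algebraMap ℚ K)

/-- the field generated by all the roots -/
noncomputable def CK (K : Type*) [Field K] [CharZero K] [Algebra K ℝ] (n : ℕ) :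
    IntermediateField K ℝ := adjoin K ((ppK K n).rootSet ℝ)

lemma ppK_map (n : ℕ) : (ppK K n).map (algebraMap K ℝ) = (pp n).map (algebraMap ℚ ℝ) := by
  unfold ppK
  rw [Polynomial.map_map]
  congr 1
  exact Subsingleton.elim _ _

instance (n : ℕ) : (ppK K n).IsSplittingField K (CK K n) := by
  apply adjoin_rootSet_isSplittingField
  rw [ppK_map]
  exact pp_splits n

instance (n : ℕ) : FiniteDimensional K (CK K n) :=
  IsSplittingField.finiteDimensional (CK K n) (ppK K n)

instance (n : ℕ) : IsGalois K (CK K n) := by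
  have : Normal K (CK K n) := Normal.of_isSplittingField (ppK K n)
  exact isGalois_of_normal _

omit [Algebra K ℝ] in
lemma ppK_ne_zero (n : ℕ) : ppK K n ≠ 0 := ((pp_monic n).map _).ne_zero

lemma mem_rootSet_iff {n : ℕ} {r : ℝ} : r ∈ (ppK K n).rootSet ℝ ↔ (sqm^[n]) r = 0 := by
  rw [mem_rootSet, ← aeval_pp n r]
  have h1 : aeval r (ppK K n) = aeval r (pp n) := by
    rw [aeval_def, aeval_def, ← eval_map, ← eval_map, ppK_map]
  rw [h1]
  exact ⟨fun h => h.2, fun h => ⟨ppK_ne_zero n, h⟩⟩

lemma iter_cc (n k : ℕ) : (sqm^[n]) (cc (n + k)) = cc k := by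
  induction n generalizing k with
  | zero => simp
  | succ n ih =>
    rw [Function.iterate_succ, Function.comp_apply]
    have h1 : sqm (cc (n + 1 + k)) = cc (n + k) := by
      unfold sqm
      have : n + 1 + k = (n + k) + 1 := by omega
      rw [this, cc_sq]; ring
    rw [h1, ih]

lemma cc_mem_CK (n : ℕ) : cc n ∈ CK K n := by
  apply subset_adjoin
  rw [mem_rootSet_iff]
  have := iter_cc n 0
  rw [add_zero] at this
  rw [this, cc_zero]

lemma isIntegral_root {n : ℕ} {r : ℝ} (h : (sqm^[n]) r = 0) : IsIntegral ℤ r := by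
  induction n generalizing r with
  | zero =>
    simp only [Function.iterate_zero, id_eq] at h
    rw [h]; exact isIntegral_zero
  | succ n ih =>
    rw [Function.iterate_succ, Function.comp_apply] at h
    apply IsIntegral.of_pow (n := 2) (by norm_num)
    have h1 : r ^ 2 = sqm r + 2 := by unfold sqm; ring
    have h2 : IsIntegral ℤ (2 : ℝ) := isIntegral_algebraMap (R := ℤ) (x := 2)
    rw [h1]; exact (ih h).add h2

/-- **The numbers `cc n` lie in the ray class field if the modulus is divisible by a large power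
of `2`.** -/
theorem CK_le (h2 : Module.finrank ℚ K = 2) (hσ : σ₂ ≠ sg1 K) {n : ℕ} {n' : Ideal (𝓞 K)}
    (hn' : n' ≤ Ideal.span {(2 : 𝓞 K) ^ (n + 2)}) (hne' : n' ≠ ⊥)
    {H' : IntermediateField K ℝ} {Art' : RayClassGroup σ₂ n' ≃* (H' ≃ₐ[K] H')}
    (h' : IsRCF σ₂ n' ∅ H' Art') : CK K n ≤ H' := by
  by_contra hcon
  have := h'.finite
  have := h'.galois
  have hnum := numberField_of_fd H'
  set L : IntermediateField K ℝ := H' ⊔ CK K n with hL
  have hNL : Normal K L := by
    have : Normal K H' := inferInstance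
    have : Normal K (CK K n) := inferInstance
    rw [hL]; infer_instance
  have hGL : IsGalois K L := isGalois_of_normal L
  have hfL : FiniteDimensional K L := by rw [hL]; infer_instance
  have hnL := numberField_of_fd L
  have hHL : H' ≤ L := le_sup_left
  have hCL : CK K n ≤ L := le_sup_right
  have hne : H' ≠ L := by
    intro heq
    apply hcon
    rw [heq]
    exact hCL
  obtain ⟨P, hP1, hP2, σ, hσ1, hσ2, hσ3⟩ := exists_frob_sub hHL hne _ (finite_dvd hne')
  set v := und K P with hv
  have hvn : ¬ v.asIdeal ∣ n' := hP1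
  obtain ⟨P₁, hP₁, -, hP₁'⟩ := isFrob_res hHL P
  have f1 := h'.frobP P₁ (by simp) (prJ n' v hvn) (by rw [coe_prJ, hP₁])
  have := f1.1
  have g1 := isFrob_unique (hP₁' σ hσ1) f1.2
  rw [hσ2] at g1
  have hcls : cls σ₂ n' (prJ n' v hvn) = 1 := by
    apply Art'.injective
    rw [← g1, map_one]
  have hq := norm_mod h2 hσ hn' (coe_prJ n' v hvn) hcls
  -- 2 is not in P
  have h2v : (2 : 𝓞 K) ∉ v.asIdeal := by
    intro h
    apply hvn
    rw [Ideal.dvd_iff_le]
    refine hn'.trans ?_
    rw [Ideal.span_singleton_le_iff_mem]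
    exact Ideal.pow_mem_of_mem _ h _ (by omega)
  have h2P : (2 : 𝓞 L) ∉ P.asIdeal := by
    intro h
    apply h2v
    change algebraMap (𝓞 K) (𝓞 L) 2 ∈ P.asIdeal
    rw [map_ofNat]; exact h
  have hPm := P.isMaximal
  -- the characteristic
  let _ : Field (𝓞 L ⧸ P.asIdeal) := Ideal.Quotient.field P.asIdeal
  have hfin : Finite (𝓞 L ⧸ P.asIdeal) := Ideal.finiteQuotientOfFreeOfNeBot P.asIdeal P.ne_bot
  obtain ⟨p, hp⟩ := CharP.exists (𝓞 L ⧸ P.asIdeal)
  have hpp : p.Prime := by
    have hft := Fintype.ofFinite (𝓞 L ⧸ P.asIdeal)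
    obtain ⟨f, hpp, -⟩ := FiniteField.card (𝓞 L ⧸ P.asIdeal) p
    exact hpp
  have hpf := Fact.mk hpp
  have hpv : (p : 𝓞 K) ∈ v.asIdeal := by
    change algebraMap (𝓞 K) (𝓞 L) (p : 𝓞 K) ∈ P.asIdeal
    rw [map_natCast, ← Ideal.Quotient.eq_zero_iff_mem, map_natCast]
    exact CharP.cast_eq_zero _ p
  have hchv := charP_quot hpp hpv
  obtain ⟨f, hf⟩ : ∃ f : ℕ, Ideal.absNorm v.asIdeal = p ^ f := by
    have hvm := v.isMaximal
    let _ : Field (𝓞 K ⧸ v.asIdeal) := Ideal.Quotient.field v.asIdeal
    have hfin : Finite (𝓞 K ⧸ v.asIdeal) := Ideal.finiteQuotientOfFreeOfNeBot v.asIdeal v.ne_bot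
    have hft := Fintype.ofFinite (𝓞 K ⧸ v.asIdeal)
    obtain ⟨f, -, hcard⟩ := FiniteField.card (𝓞 K ⧸ v.asIdeal) p
    exact ⟨f, by rw [Ideal.absNorm_apply, Submodule.cardQuot_apply, ← hcard,
      Nat.card_eq_fintype_card]⟩
  rw [hf] at hq
  push_cast at hq
  -- the roots are fixed
  have key : ∀ r ∈ (ppK K n).rootSet ℝ, act σ r = r := by
    intro r hr
    have hr0 := mem_rootSet_iff.1 hr
    have hrL : r ∈ L := hCL (subset_adjoin _ _ hr)
    have hsm : ∀ (k : ℕ) {x : ℝ}, x ∈ L → (sqm^[k]) x ∈ L := by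
      intro k
      induction k with
      | zero => intro x hx; exact hx
      | succ k ih =>
        intro x hx
        rw [Function.iterate_succ, Function.comp_apply]
        exact ih (sub_mem (pow_mem hx 2) (ofNat_mem _ 2))
    have hsint : ∀ k ≤ n, IsIntegral ℤ ((sqm^[n - k]) r) := by
      intro k hk
      apply isIntegral_root (n := k)
      rw [← Function.iterate_add_apply, Nat.add_sub_cancel' hk]
      exact hr0
    have hex : ∀ k, ∃ R : 𝓞 L, k ≤ n →
        ((algebraMap (𝓞 L) L R : L) : ℝ) = (sqm^[n - k]) r := by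
      intro k
      by_cases hk : k ≤ n
      · have hint : IsIntegral ℤ (⟨(sqm^[n - k]) r, hsm _ hrL⟩ : L) :=
          (isIntegral_algebraMap_iff (algebraMap L ℝ).injective).1 (hsint k hk)
        exact ⟨⟨_, hint⟩, fun _ => rfl⟩
      · exact ⟨0, fun h => absurd h hk⟩
    choose R hR using hex
    have hR0 : R 0 = 0 := by
      apply RingOfIntegers.coe_injective
      apply Subtype.ext
      rw [hR 0 (Nat.zero_le n), map_zero, Nat.sub_zero, hr0]
      rfl
    have hRsq : ∀ k < n, R (k + 1) ^ 2 = 2 + R k := by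
      intro k hk
      apply RingOfIntegers.coe_injective
      apply Subtype.ext
      rw [map_pow, map_add, map_ofNat]
      have h3 : n - k = (n - (k + 1)) + 1 := by omega
      have h4 : (sqm^[n - k]) r = ((sqm^[n - (k + 1)]) r) ^ 2 - 2 := by
        rw [h3, Function.iterate_succ_apply']
        rfl
      push_cast
      rw [hR (k + 1) hk, hR k hk.le, h4]
      change _ = (2 : ℝ) + _
      ring
    have hfix : ∀ k ≤ n, act σ ((sqm^[n - k]) r) = (sqm^[n - k]) r := by
      intro k
      induction k with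
      | zero =>
        intro _
        rw [Nat.sub_zero, hr0]
        have : (0 : ℝ) = ((0 : L) : ℝ) := rfl
        rw [this, act_coe, map_zero]
      | succ k ih =>
        intro hk
        have hk' : k < n := hk
        have h3 := ih hk'.le
        have h4 := hRsq k hk'
        have h5 := hR (k + 1) hk
        have h6 := hR k hk'.le
        rw [← h6, act_coe] at h3
        rw [← h5, act_coe]
        have h3' : σ • R k = R k := by
          apply RingOfIntegers.coe_injective
          rw [coe_smul']
          exact Subtype.ext h3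
        have h7 : (σ • R (k + 1)) ^ 2 = R (k + 1) ^ 2 := by
          rw [← smul_pow', h4, smul_add, h3']
          congr 1
          have := MulSemiringAction.toRingHom_apply (L ≃ₐ[K] L) (𝓞 L) σ 2
          rw [← this, map_ofNat]
        rcases sq_eq_sq_iff_eq_or_eq_neg.1 h7 with h8 | h8
        · have := congrArg (algebraMap (𝓞 L) L) h8
          rw [coe_smul'] at this
          rw [this]
        · exfalso
          have h9 := hσ1 (R (k + 1))
          rw [h8] at h9
          -- R ^ q ≡ R
          have h10 : (Ideal.Quotient.mk P.asIdeal (R (k + 1))) ^ (p ^ f) =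
              Ideal.Quotient.mk P.asIdeal (R (k + 1)) := by
            apply pow_eq_self (κ := 𝓞 L ⧸ P.asIdeal)
              (s := fun i => Ideal.Quotient.mk P.asIdeal (R i)) (N := k + 1) p
            · simp [hR0]
            · intro i hi
              rw [← map_pow, hRsq i (by omega), map_add, map_ofNat]
            · have hdv : (2 ^ (k + 1 + 2) : ℤ) ∣ 2 ^ (n + 2) := pow_dvd_pow _ (by omega)
              rcases hq with hq | hq
              · exact Or.inl (hdv.trans hq)
              · exact Or.inr (hdv.trans hq)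
          have h11 : - R (k + 1) - R (k + 1) ∈ P.asIdeal := by
            rw [← Ideal.Quotient.eq_zero_iff_mem] at h9 ⊢
            have h12 : pn (und K P) = p ^ f := hf
            rw [map_sub, map_pow, h12, h10, ← map_sub] at h9
            exact h9
          have h12 : (2 : 𝓞 L) * R (k + 1) ∈ P.asIdeal := by
            have : (2 : 𝓞 L) * R (k + 1) = -(- R (k + 1) - R (k + 1)) := by ring
            rw [this]; exact P.asIdeal.neg_mem h11
          rcases P.isPrime.mem_or_mem h12 with h13 | h13
          · exact h2P h13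
          · have h14 : 2 + R k ∈ P.asIdeal := by
              rw [← h4]; exact Ideal.pow_mem_of_mem _ h13 _ (by norm_num)
            exact h2P (P.asIdeal.mem_of_dvd (dvd_two' hR0 (N := n) hRsq k hk'.le) h14)
    have := hfix n le_rfl
    rwa [Nat.sub_self] at this
  apply hσ3
  apply eq_of_eq_on_sup (L₁ := H') (L₂ := CK K n) le_rfl hHL hCL
  · intro x hx
    rw [← act_res hHL σ hx, hσ2, act_one_left hx, act_one_left (hHL hx)]
  · have hle : CK K n ≤ eqField σ 1 := by
      apply adjoin_le_iff.2
      intro r hr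
      have hrL : r ∈ L := hCL (subset_adjoin _ _ hr)
      exact ⟨hrL, by rw [key r hr, act_one_left hrL]⟩
    intro x hx
    exact (hle hx).2

/-- `cc n` lies in the ray class field. -/
theorem cc_mem_rcf (h2 : Module.finrank ℚ K = 2) (hσ : σ₂ ≠ sg1 K) {n : ℕ} {n' : Ideal (𝓞 K)}
    (hn' : n' ≤ Ideal.span {(2 : 𝓞 K) ^ (n + 2)}) (hne' : n' ≠ ⊥)
    {H' : IntermediateField K ℝ} {Art' : RayClassGroup σ₂ n' ≃* (H' ≃ₐ[K] H')}
    (h' : IsRayClassField σ₂ n' H' Art') : cc n ∈ H' :=
  CK_le h2 hσ hn' hne' h'.isRCF (cc_mem_CK n)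

end cyc

end Pool.Agent.STb
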