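import Mathlib

/-!
# Totally positive numbers, totally real fields
-/

open IntermediateField Polynomial

namespace Pool.Agent.STb

/-- All elements of the field `E` are algebraic. -/
class Alg (E : IntermediateField ℚ ℝ) : Prop where
  int : ∀ x ∈ E, IsIntegral ℚ x

lemma Alg.of_le {E E' : IntermediateField ℚ ℝ} (h : E ≤ E') [hE : Alg E'] : Alg E :=
  ⟨fun x hx => hE.int x (h hx)⟩

instance (E : IntermediateField ℚ ℝ) [hE : Alg E] : Algebra.IsAlgebraic ℚ E :=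
  ⟨fun x => (isAlgebraic_algebraMap_iff (algebraMap E ℝ).injective).1
    (hE.int x x.2).isAlgebraic⟩

instance (E : IntermediateField ℚ ℝ) [FiniteDimensional ℚ E] : Alg E :=
  ⟨fun x hx => (IsIntegral.of_finite ℚ (⟨x, hx⟩ : E)).map E.val⟩

/-- `x` is totally positive: all its conjugates in `ℂ` are positive real numbers. -/
def TP (x : ℝ) : Prop := ∀ z : ℂ, aeval z (minpoly ℚ x) = 0 → z.im = 0 ∧ 0 < z.re

/-- The field `E` is totally real. -/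
def TR (E : IntermediateField ℚ ℝ) : Prop := ∀ (φ : E →+* ℂ) (x : E), (φ x).im = 0

/-- extension of embeddings -/
lemma exists_extend {E E' : IntermediateField ℚ ℝ} (h : E ≤ E') [Alg E']
    (φ : E →+* ℂ) : ∃ φ' : E' →+* ℂ, ∀ x (hx : x ∈ E), φ' ⟨x, h hx⟩ = φ ⟨x, hx⟩ := by
  let _ : Algebra E E' := (inclusion h).toAlgebra
  have : IsScalarTower ℚ E E' := IsScalarTower.of_algebraMap_eq' rfl
  let _ : Algebra E ℂ := φ.toAlgebra
  have : Algebra.IsAlgebraic E E' := Algebra.IsAlgebraic.tower_top (K := ℚ) E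
  let g' : E' →ₐ[E] ℂ := IsAlgClosed.lift
  exact ⟨g'.toRingHom, fun x hx => g'.commutes ⟨x, hx⟩⟩

lemma tp_iff {E : IntermediateField ℚ ℝ} [Alg E] {x : ℝ} (hx : x ∈ E) :
    TP x ↔ ∀ φ : E →+* ℂ, (φ ⟨x, hx⟩).im = 0 ∧ 0 < (φ ⟨x, hx⟩).re := by
  have h1 : minpoly ℚ x = minpoly ℚ (⟨x, hx⟩ : E) :=
    minpoly.algebraMap_eq (algebraMap E ℝ).injective (⟨x, hx⟩ : E)
  have h2 := Algebra.IsAlgebraic.range_eval_eq_rootSet_minpoly (F := ℚ) ℂ (⟨x, hx⟩ : E)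
  have h0 : minpoly ℚ (⟨x, hx⟩ : E) ≠ 0 :=
    minpoly.ne_zero (Algebra.IsIntegral.isIntegral (R := ℚ) (⟨x, hx⟩ : E))
  constructor
  · intro h φ
    apply h
    rw [h1]
    have h3 : φ ⟨x, hx⟩ ∈ (minpoly ℚ (⟨x, hx⟩ : E)).rootSet ℂ := by
      rw [← h2]
      exact ⟨φ.toRatAlgHom, rfl⟩
    exact (mem_rootSet.1 h3).2
  · intro h z hz
    rw [h1] at hz
    have h3 : z ∈ (minpoly ℚ (⟨x, hx⟩ : E)).rootSet ℂ := mem_rootSet.2 ⟨h0, hz⟩
    rw [← h2] at h3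
    obtain ⟨ψ, rfl⟩ := h3
    exact h ψ.toRingHom

lemma TR.mono {E E' : IntermediateField ℚ ℝ} (h : E ≤ E') [Alg E']
    (hE : TR E') : TR E := by
  intro φ x
  obtain ⟨φ', hφ'⟩ := exists_extend h φ
  rw [← hφ' x x.2]
  exact hE φ' _

lemma im_mul {a b : ℂ} (ha : a.im = 0) (hb : b.im = 0) : (a * b).im = 0 := by
  rw [Complex.mul_im, ha, hb]; ring

lemma re_mul {a b : ℂ} (ha : a.im = 0) : (a * b).re = a.re * b.re := by
  rw [Complex.mul_re, ha]; ring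

lemma TP.mul {E : IntermediateField ℚ ℝ} [Alg E] {x y : ℝ} (hx : x ∈ E)
    (hy : y ∈ E) (h1 : TP x) (h2 : TP y) : TP (x * y) := by
  rw [tp_iff hx] at h1
  rw [tp_iff hy] at h2
  rw [tp_iff (mul_mem hx hy)]
  intro φ
  obtain ⟨a1, a2⟩ := h1 φ
  obtain ⟨b1, b2⟩ := h2 φ
  have : (⟨x * y, mul_mem hx hy⟩ : E) = ⟨x, hx⟩ * ⟨y, hy⟩ := rfl
  rw [this, map_mul]
  refine ⟨im_mul a1 b1, ?_⟩
  rw [re_mul a1]
  exact mul_pos a2 b2

lemma TP.ne_zero {E : IntermediateField ℚ ℝ} [Alg E] {x : ℝ} (hx : x ∈ E)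
    (h : TP x) : x ≠ 0 := by
  rintro rfl
  rw [tp_iff hx] at h
  have := (h ((algebraMap ℝ ℂ).comp (algebraMap E ℝ))).2
  have h0 : (⟨0, hx⟩ : E) = 0 := rfl
  rw [h0, map_zero] at this
  simp at this

/-- squares of nonzero elements of totally real fields are totally positive -/
lemma TP.sq {E : IntermediateField ℚ ℝ} [Alg E] (hE : TR E) {x : ℝ}
    (hx : x ∈ E) (hx0 : x ≠ 0) : TP (x ^ 2) := by
  rw [tp_iff (pow_mem hx 2)]
  intro φ
  have : (⟨x ^ 2, pow_mem hx 2⟩ : E) = ⟨x, hx⟩ * ⟨x, hx⟩ := Subtype.ext (pow_two x)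
  have h1 := hE φ ⟨x, hx⟩
  rw [this, map_mul]
  refine ⟨im_mul h1 h1, ?_⟩
  rw [re_mul h1]
  apply mul_self_pos.2
  intro h2
  have h3 : φ ⟨x, hx⟩ = 0 := Complex.ext h2 h1
  rw [map_eq_zero] at h3
  exact hx0 (congrArg Subtype.val h3)

lemma TP.inv {E : IntermediateField ℚ ℝ} [Alg E] {x : ℝ} (hx : x ∈ E)
    (h : TP x) : TP x⁻¹ := by
  rw [tp_iff hx] at h
  rw [tp_iff (inv_mem hx)]
  intro φ
  obtain ⟨a1, a2⟩ := h φ
  have : (⟨x⁻¹, inv_mem hx⟩ : E) = (⟨x, hx⟩ : E)⁻¹ := rfl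
  rw [this, map_inv₀, Complex.inv_im, Complex.inv_re, a1]
  refine ⟨by simp, ?_⟩
  apply div_pos a2
  apply Complex.normSq_pos.2
  intro h0
  rw [h0] at a2
  simp at a2

/-- conjugation preserves total positivity -/
lemma TP.conj {E : IntermediateField ℚ ℝ} [Alg E] {x : ℝ} (hx : x ∈ E)
    (h : TP x) (σ : E →+* E) : TP ((σ ⟨x, hx⟩ : E) : ℝ) := by
  rw [tp_iff hx] at h
  rw [tp_iff (σ ⟨x, hx⟩).2]
  intro φ
  exact h (φ.comp σ)

end Pool.Agent.STb
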