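import Pool.Agent.Lib.MP_1ef7cf_nt.Mg.G001
import Pool.Agent.Lib.MP_1ef7cf_nt_b.TP

/-!
# Finiteness of the group of classes of good elements: quadratic extensions
-/

open IntermediateField Polynomial

namespace Pool.Agent.STb

/-- Totally positive elements of `E`, locally a unit times a square outside `D`. -/
structure Good (D : ℕ) (E : IntermediateField ℚ ℝ) (x : ℝ) : Prop where
  mem : x ∈ E
  tp : TP x
  ev : Ev D E x

/-- Finiteness of the group of the classes modulo squares of the good elements. -/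
def FIN (D : ℕ) (E : IntermediateField ℚ ℝ) : Prop :=
  ∃ T : Finset ℝ, ∀ x, Good D E x → ∃ t ∈ T, ∃ s ∈ E, s ≠ 0 ∧ x = t * s ^ 2

variable {D : ℕ} {E : IntermediateField ℚ ℝ} {θ : ℝ}

lemma Good.ne_zero [Alg E] {x : ℝ} (h : Good D E x) : x ≠ 0 :=
  h.tp.ne_zero h.mem

lemma Good.mul [Alg E] {x y : ℝ} (hx : Good D E x) (hy : Good D E y) :
    Good D E (x * y) :=
  ⟨mul_mem hx.mem hy.mem, hx.tp.mul hx.mem hy.mem hy.tp, hx.ev.mul hy.ev⟩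

lemma Good.inv [Alg E] {x : ℝ} (hx : Good D E x) : Good D E x⁻¹ :=
  ⟨inv_mem hx.mem, hx.tp.inv hx.mem, hx.ev.inv hx.mem hx.ne_zero⟩

lemma Good.sq [Alg E] (hE : TR E) {x : ℝ} (hx : x ∈ E) (hx0 : x ≠ 0) :
    Good D E (x ^ 2) :=
  ⟨pow_mem hx 2, TP.sq hE hx hx0, Ev.sq hx hx0⟩

lemma Good.mono_D {D' : ℕ} (h : D ∣ D') {x : ℝ} (hx : Good D E x) : Good D' E x :=
  ⟨hx.mem, hx.tp, hx.ev.mono_D h⟩

lemma Good.mono {E' : IntermediateField ℚ ℝ} (h : E ≤ E') {x : ℝ} (hx : Good D E x) :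
    Good D E' x :=
  ⟨h hx.mem, hx.tp, hx.ev.mono h⟩

lemma FIN.mono_D {D' : ℕ} (h : D ∣ D') (hF : FIN D' E) : FIN D E := by
  obtain ⟨T, hT⟩ := hF
  exact ⟨T, fun x hx => hT x (hx.mono_D h)⟩

/-- the conditions on a generator of a quadratic extension unramified outside `D` -/
structure IsGen (D : ℕ) (E : IntermediateField ℚ ℝ) (θ : ℝ) : Prop where
  sq_mem : θ ^ 2 ∈ E
  notMem : θ ∉ E
  two : ((2 : ℕ) : ℝ)⁻¹ ∈ DI D
  int : θ ∈ DI D
  inv : (θ ^ 2)⁻¹ ∈ DI D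

lemma IsGen.down (hg : IsGen D E θ) {x : ℝ} (hx : x ∈ E) (h : Ev D (ext E θ) x) : Ev D E x :=
  Ev.down hg.sq_mem hg.notMem hg.two hg.int hg.inv hx h

lemma IsGen.good_down (hg : IsGen D E θ) {x : ℝ} (hx : x ∈ E) (h : Good D (ext E θ) x) :
    Good D E x := ⟨hx, h.tp, hg.down hx h.ev⟩

lemma norm_mem (hd : θ ^ 2 ∈ E) {a b : ℝ} (ha : a ∈ E) (hb : b ∈ E) :
    (a + b * θ) * (a - b * θ) ∈ E := by
  have : (a + b * θ) * (a - b * θ) = a ^ 2 - b ^ 2 * θ ^ 2 := by ring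
  rw [this]
  exact sub_mem (pow_mem ha 2) (mul_mem (pow_mem hb 2) hd)

lemma IsGen.good_conj (hg : IsGen D E θ) [Alg (ext E θ)] {a b : ℝ}
    (ha : a ∈ E) (hb : b ∈ E) (h : Good D (ext E θ) (a + b * θ)) :
    Good D (ext E θ) (a - b * θ) := by
  obtain ⟨σ, hσ⟩ := exists_conj hg.sq_mem hg.notMem
  have h1 := hσ a ha b hb h.mem
  refine ⟨?_, ?_, ?_⟩
  · rw [← h1]; exact (σ _).2
  · rw [← h1]; exact h.tp.conj h.mem σ
  · rw [← h1]; exact h.ev.ringHom σ h.mem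

lemma IsGen.good_norm (hg : IsGen D E θ) [Alg (ext E θ)] {a b : ℝ}
    (ha : a ∈ E) (hb : b ∈ E) (h : Good D (ext E θ) (a + b * θ)) :
    Good D E ((a + b * θ) * (a - b * θ)) :=
  hg.good_down (norm_mem hg.sq_mem ha hb) (h.mul (hg.good_conj ha hb h))

/-- If the norm of a good element is a square, then it is a good element of the base field up to
squares. -/
lemma IsGen.good_of_norm (hg : IsGen D E θ) [Alg (ext E θ)]
    (hTR : TR (ext E θ)) {a b s : ℝ} (ha : a ∈ E) (hb : b ∈ E)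
    (h : Good D (ext E θ) (a + b * θ)) (hs : s ∈ E) (hs0 : s ≠ 0)
    (hN : (a + b * θ) * (a - b * θ) = s ^ 2) :
    ∃ z, Good D E z ∧ ∃ w ∈ ext E θ, w ≠ 0 ∧ a + b * θ = z * w ^ 2 := by
  obtain ⟨z, hz, hz0, w, hw, hw0, hzw⟩ := hilbert90 hg.sq_mem hg.notMem ha hb hs hs0 hN
  refine ⟨z, hg.good_down hz ?_, w, hw, hw0, hzw⟩
  have h1 : z = (a + b * θ) * (w⁻¹) ^ 2 := by
    rw [hzw]; field_simp
  rw [h1]
  exact h.mul (Good.sq hTR (inv_mem hw) (inv_ne_zero hw0))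

/-- **Quadratic step.** -/
theorem FIN.step (h : FIN D E) (hg : IsGen D E θ) [Alg (ext E θ)]
    (hTR : TR (ext E θ)) : FIN D (ext E θ) := by
  classical
  obtain ⟨T, hT⟩ := h
  let P : ℝ → ℝ → Prop := fun t x => Good D (ext E θ) x ∧ ∃ a ∈ E, ∃ b ∈ E, x = a + b * θ ∧
    ∃ s ∈ E, s ≠ 0 ∧ (a + b * θ) * (a - b * θ) = t * s ^ 2
  let X : ℝ → ℝ := fun t => if h : ∃ x, P t x then h.choose else 1
  have hX : ∀ t, (∃ x, P t x) → P t (X t) := by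
    intro t ht
    have : X t = ht.choose := dif_pos ht
    rw [this]
    exact ht.choose_spec
  refine ⟨(T ×ˢ T).image (fun p => X p.1 * p.2), ?_⟩
  intro x hx
  obtain ⟨a, ha, b, hb, hab⟩ := (mem_ext_iff hg.sq_mem hg.notMem).1 hx.mem
  have hx' : Good D (ext E θ) (a + b * θ) := by rw [← hab]; exact hx
  obtain ⟨t, ht, s, hs, hs0, hts⟩ := hT _ (hg.good_norm ha hb hx')
  obtain ⟨hXg, a', ha', b', hb', hXab, s', hs', hs0', hts'⟩ :=
    hX t ⟨x, hx, a, ha, b, hb, hab, s, hs, hs0, hts⟩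
  have hXg' : Good D (ext E θ) (a' + b' * θ) := by rw [← hXab]; exact hXg
  -- the quotient
  have hy := hx'.mul hXg'.inv
  obtain ⟨a₁, ha₁, b₁, hb₁, hab₁⟩ := (mem_ext_iff hg.sq_mem hg.notMem).1 hy.mem
  obtain ⟨σ, hσ⟩ := exists_conj hg.sq_mem hg.notMem
  have hconj : a₁ - b₁ * θ = (a - b * θ) * (a' - b' * θ)⁻¹ := by
    have h1 : (⟨a₁ + b₁ * θ, by rw [← hab₁]; exact hy.mem⟩ : ext E θ) =
        ⟨a + b * θ, hx'.mem⟩ * (⟨a' + b' * θ, hXg'.mem⟩ : ext E θ)⁻¹ :=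
      Subtype.ext hab₁.symm
    have h2 := congrArg (fun z : ext E θ => ((σ z : ext E θ) : ℝ)) h1
    simp only [map_mul, map_inv₀] at h2
    rw [MulMemClass.coe_mul] at h2
    have h3 : (((σ ⟨a' + b' * θ, hXg'.mem⟩ : ext E θ)⁻¹ : ext E θ) : ℝ) =
      ((σ ⟨a' + b' * θ, hXg'.mem⟩ : ext E θ) : ℝ)⁻¹ := rfl
    rw [h3, hσ _ ha₁ _ hb₁, hσ _ ha _ hb, hσ _ ha' _ hb'] at h2
    exact h2
  have n1 := hXg'.ne_zero
  have n2 : a' - b' * θ ≠ 0 := (hg.good_conj ha' hb' hXg').ne_zero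
  have hN : (a₁ + b₁ * θ) * (a₁ - b₁ * θ) = (s / s') ^ 2 := by
    rw [← hab₁, hconj]
    have h4 : (a + b * θ) * (a' + b' * θ)⁻¹ * ((a - b * θ) * (a' - b' * θ)⁻¹) =
      ((a + b * θ) * (a - b * θ)) / ((a' + b' * θ) * (a' - b' * θ)) := by field_simp
    have ht0 : t ≠ 0 := by
      rintro rfl
      rw [zero_mul] at hts'
      exact mul_ne_zero n1 n2 hts'
    rw [h4, hts, hts']
    field_simp
  obtain ⟨z, hz, w, hw, hw0, hzw⟩ := hg.good_of_norm hTR ha₁ hb₁ (by rw [← hab₁]; exact hy)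
    (div_mem hs hs') (div_ne_zero hs0 hs0') hN
  obtain ⟨t', ht', r, hr, hr0, htr⟩ := hT z hz
  refine ⟨X t * t', ?_, r * w, mul_mem (le_ext E θ hr) hw, mul_ne_zero hr0 hw0, ?_⟩
  · rw [Finset.mem_image]
    exact ⟨(t, t'), by simp [ht, ht'], rfl⟩
  · rw [hab, hXab]
    have h5 : (a + b * θ) * (a' + b' * θ)⁻¹ = z * w ^ 2 := by rw [hab₁, hzw]
    rw [htr] at h5
    have h6 : a + b * θ = (a' + b' * θ) * ((a + b * θ) * (a' + b' * θ)⁻¹) := by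
      rw [mul_comm (a + b * θ), ← mul_assoc, mul_inv_cancel₀ n1, one_mul]
    rw [h6, h5]; ring

end Pool.Agent.STb
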