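import Pool.Agent.Lib.MP_1ef7cf_nt_b.MainT
import Pool.Agent.Lib.MP_1ef7cf_nt.Bridge

/-!
# The square root condition for 2-extensions: statement with the definitions of `StarkRQ`
-/

open NumberField IsDedekindDomain nonZeroDivisors IntermediateField

namespace Pool.Agent.STb

open Pool.Agent.ST

variable {K : Type*} [Field K] [NumberField K] [Algebra K ℝ] {σ₂ : K →+* ℝ}

/-- The data extracted from the conditions 1-3. -/
lemma stark_data {m : Ideal (𝓞 K)} {H : IntermediateField K ℝ}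
    {Art : RayClassGroup σ₂ m ≃* (H ≃ₐ[K] H)} {Z : RayClassGroup σ₂ m → ℂ → ℂ}
    {ε : RayClassGroup σ₂ m → (𝓞 H)ˣ} (hr : IsRayClassField σ₂ m H Art)
    (hZ : ∀ A, IsPartialZeta σ₂ m A (Z A))
    (hε : ∀ A, ((((ε A : 𝓞 H) : H) : ℝ) : ℂ) = Complex.exp (-2 * deriv (Z A) 0))
    (hact : ∀ A B, Art B ((ε A : 𝓞 H) : H) = ((ε (A * B) : 𝓞 H) : H))
    (habs : ∀ A, ∀ g : H →+* ℂ, (∀ a : K, g (algebraMap K H a) = (σ₂ a : ℂ)) →
      ‖g ((ε A : 𝓞 H) : H)‖ = 1) :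
    SData σ₂ m H Art (((ε 1 : 𝓞 H) : H) : ℝ) ∧
      ∀ A, (((ε A : 𝓞 H) : H) : ℝ) = act (Art A) (((ε 1 : 𝓞 H) : H) : ℝ) := by
  set u : ℝ := (((ε 1 : 𝓞 H) : H) : ℝ) with hu
  have humem : u ∈ H := ((ε 1 : 𝓞 H) : H).2
  have hval : ∀ A, (((ε A : 𝓞 H) : H) : ℝ) = Real.exp (-2 * zd σ₂ m A) := by
    intro A
    have h1 := hε A
    rw [← zd_eq (hZ A)] at h1
    have h2 : ((Real.exp (-2 * zd σ₂ m A) : ℝ) : ℂ) = Complex.exp (-2 * (zd σ₂ m A : ℂ)) := by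
      rw [Complex.ofReal_exp]
      push_cast
      rfl
    rw [← h2] at h1
    exact_mod_cast h1
  have hactu : ∀ A, Pool.Agent.ST.act (Art A) u = Real.exp (-2 * zd σ₂ m A) := by
    intro A
    rw [← hval A, hu, act_coe, hact 1 A, one_mul]
  have hint : IsIntegral ℤ u := by
    have h1 : IsIntegral ℤ ((ε 1 : 𝓞 H) : H) := RingOfIntegers.isIntegral_coe _
    exact h1.map (algebraMap H ℝ).toIntAlgHom
  have hint' : IsIntegral ℤ u⁻¹ := by
    have h1 : IsIntegral ℤ ((((ε 1)⁻¹ : (𝓞 H)ˣ) : 𝓞 H) : H) := RingOfIntegers.isIntegral_coe _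
    have h2 : ((((((ε 1)⁻¹ : (𝓞 H)ˣ) : 𝓞 H) : H)) : ℝ) * u = 1 := by
      have h3 : (((ε 1)⁻¹ : (𝓞 H)ˣ) : 𝓞 H) * (ε 1 : 𝓞 H) = 1 := Units.inv_mul _
      have h4 : algebraMap (𝓞 H) H (((ε 1)⁻¹ : (𝓞 H)ˣ) : 𝓞 H) * algebraMap (𝓞 H) H (ε 1 : 𝓞 H) =
          1 := by rw [← map_mul, h3, map_one]
      exact congrArg (fun x : H => (x : ℝ)) h4
    rw [← eq_inv_of_mul_eq_one_left h2]
    exact h1.map (algebraMap H ℝ).toIntAlgHom
  refine ⟨⟨hr, ⟨humem, ?_, hint, hint', ?_⟩, hactu⟩, fun A => by rw [hval, hactu]⟩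
  · intro σ
    obtain ⟨A, rfl⟩ := Art.surjective σ
    rw [hactu]; exact Real.exp_pos _
  · intro g hg
    rw [emb_of_mem g humem]
    exact habs 1 g hg

/-- Norms as products over ray classes. -/
lemma finprod_eq {m : Ideal (𝓞 K)} {H : IntermediateField K ℝ} [FiniteDimensional K H]
    {Art : RayClassGroup σ₂ m ≃* (H ≃ₐ[K] H)} {L : IntermediateField K ℝ} [Normal K L]
    (hLH : L ≤ H) {u : ℝ} (hu : u ∈ H) {e : RayClassGroup σ₂ m → ℝ}
    (he : ∀ A, e A = act (Art A) u) (A : RayClassGroup σ₂ m) :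
    ∏ᶠ B ∈ {B : RayClassGroup σ₂ m | ∀ x : H, (x : ℝ) ∈ L → Art B x = x}, e (A * B) =
      act (Art A) (fibProd hLH u 1) := by
  classical
  have hset : {B : RayClassGroup σ₂ m | ∀ x : H, (x : ℝ) ∈ L → Art B x = x} =
      Art.symm '' (fib hLH (1 : L ≃ₐ[K] L) : Set (H ≃ₐ[K] H)) := by
    ext B
    simp only [Set.mem_ofPred_eq, Set.mem_image, Finset.mem_coe, mem_fib, res_eq_one_iff]
    constructor
    · intro h
      refine ⟨Art B, fun x hx => ?_, Art.symm_apply_apply B⟩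
      rw [act_of_mem _ (hLH hx), h ⟨x, hLH hx⟩ hx]
    · rintro ⟨γ, h, rfl⟩ x hx
      rw [MulEquiv.apply_symm_apply]
      have := h x hx
      rw [act_coe] at this
      exact Subtype.ext this
  rw [hset, finprod_mem_image Art.symm.injective.injOn, finprod_mem_coe_finset, fibProd,
    act_prod _ _ _ fun γ _ => act_mem γ hu]
  refine Finset.prod_congr rfl fun γ _ => ?_
  rw [he, map_mul, MulEquiv.apply_symm_apply, act_comp _ _ hu]

omit [Algebra K ℝ] in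
lemma exists_prime_two : ∃ v : HeightOneSpectrum (𝓞 K), (2 : 𝓞 K) ∈ v.asIdeal := by
  have h : Ideal.span {(2 : 𝓞 K)} ≠ ⊤ := by
    rw [Ne, Ideal.span_singleton_eq_top]
    intro hu
    obtain ⟨w, hw⟩ := hu.exists_right_inv
    have h1 : (2 : K) * algebraMap (𝓞 K) K w = 1 := by
      have := congrArg (algebraMap (𝓞 K) K) hw
      rwa [map_mul, map_ofNat, map_one] at this
    have h2 : IsIntegral ℤ ((1 / 2 : ℚ)) := by
      rw [← isIntegral_algebraMap_iff (algebraMap ℚ K).injective]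
      have h3 : algebraMap ℚ K (1 / 2) = algebraMap (𝓞 K) K w := by
        rw [map_div₀, map_one, map_ofNat]
        field_simp
        linear_combination -h1
      rw [h3]; exact RingOfIntegers.isIntegral_coe w
    obtain ⟨z, hz⟩ := IsIntegrallyClosed.isIntegral_iff.1 h2
    have hz' : (z : ℚ) = 1 / 2 := hz
    have : ((2 * z : ℤ) : ℚ) = 1 := by push_cast; rw [hz']; norm_num
    have h5 : (2 * z : ℤ) = 1 := by exact_mod_cast this
    omega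
  obtain ⟨P, hP, hle⟩ := Ideal.exists_le_maximal _ h
  have h2 : (2 : 𝓞 K) ∈ P := hle (Ideal.mem_span_singleton_self _)
  refine ⟨⟨P, hP.isPrime, ?_⟩, h2⟩
  rintro rfl
  exact two_ne_zero (α := 𝓞 K) h2

omit [Algebra K ℝ] in
lemma ne_top_of_two {m : Ideal (𝓞 K)}
    (hm2 : ∀ v : HeightOneSpectrum (𝓞 K), (2 : 𝓞 K) ∈ v.asIdeal → v.asIdeal ∣ m) : m ≠ ⊤ := by
  rintro rfl
  obtain ⟨v, hv⟩ := exists_prime_two (K := K)
  have h1 := Ideal.dvd_iff_le.1 (hm2 v hv)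
  exact v.isPrime.ne_top (top_le_iff.1 h1)

/-- final form -/
theorem final_two (hK : Module.finrank ℚ K = 2) (hσ : σ₂ ≠ algebraMap K ℝ)
    {m : Ideal (𝓞 K)} (hm : m ≠ ⊥)
    (hm2 : ∀ v : HeightOneSpectrum (𝓞 K), (2 : 𝓞 K) ∈ v.asIdeal → v.asIdeal ∣ m)
    (hS : ∀ k : ℕ, ∃ (H : IntermediateField K ℝ)
      (Art : RayClassGroup σ₂ (m * Ideal.span {2} ^ k) ≃* (H ≃ₐ[K] H)) (u : ℝ),
      SData σ₂ (m * Ideal.span {2} ^ k) H Art u)
    {H : IntermediateField K ℝ} {Art : RayClassGroup σ₂ m ≃* (H ≃ₐ[K] H)}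
    {Z : RayClassGroup σ₂ m → ℂ → ℂ}
    {ε : RayClassGroup σ₂ m → (𝓞 H)ˣ} (hH : IsRayClassField σ₂ m H Art)
    (hZ : ∀ A, IsPartialZeta σ₂ m A (Z A))
    (hε : ∀ A, ((((ε A : 𝓞 H) : H) : ℝ) : ℂ) = Complex.exp (-2 * deriv (Z A) 0))
    (hact : ∀ A B, Art B ((ε A : 𝓞 H) : H) = ((ε (A * B) : 𝓞 H) : H))
    (habs : ∀ A, ∀ g : H →+* ℂ, (∀ a : K, g (algebraMap K H a) = (σ₂ a : ℂ)) →
      ‖g ((ε A : 𝓞 H) : H)‖ = 1)
    {L : IntermediateField K ℝ} (hL : L ≤ H) (hr : ∃ r : ℕ, Module.finrank K L = 2 ^ r)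
    (A : RayClassGroup σ₂ m) :
    IsAbelianGalois K (L ⊔ K⟮√(∏ᶠ B ∈ {B : RayClassGroup σ₂ m | ∀ x : H, (x : ℝ) ∈ L → Art B x = x},
      (((ε (A * B) : 𝓞 H) : H) : ℝ))⟯ : IntermediateField K ℝ) := by
  have hm1 := ne_top_of_two hm2
  obtain ⟨hd, he⟩ := stark_data hH hZ hε hact habs
  have hfin := hH.finite
  have hgal := hH.galois
  have hab : IsAbelianGalois K H := hH.isRCF.abelian
  have habL : IsAbelianGalois K L := isAbelianGalois_of_le hL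
  have hfL : FiniteDimensional K L := fd_of_le hL
  have key := sqrt_of_two_power hK hσ hm hm1 hm2 hS hd hL hr
  have hp := hd.pre.fibProd hL
  have hfp := finprod_eq hL hd.pre.mem he A
  have h6 := sqrt_act_mem hp.mem hp.pos (ST.res hL (Art A))
  rw [act_res hL (Art A) hp.mem, ← hfp] at h6
  exact isAbelianGalois_of_le (sqrtExt_le (le_sqrtExt L _) h6)

end Pool.Agent.STb
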