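import Pool.Agent.Lib.MP_1ef7cf_nt_b.Conj
import Pool.Agent.Lib.MP_1ef7cf_nt_b.Mg.G001

/-!
# The totally positive elements attached to the units
-/

open NumberField IsDedekindDomain nonZeroDivisors IntermediateField Polynomial

namespace Pool.Agent.STb

open Pool.Agent.ST

section rs

variable {K : Type*} [Field K] [Algebra K ℝ]

/-- the field `L(cc n)` -/
noncomputable def twK (L : IntermediateField K ℝ) (n : ℕ) : IntermediateField K ℝ := L ⊔ K⟮cc n⟯

lemma le_twK (L : IntermediateField K ℝ) (n : ℕ) : L ≤ twK L n := le_sup_left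

lemma cc_mem_twK (L : IntermediateField K ℝ) (n : ℕ) : cc n ∈ twK L n :=
  (le_sup_right : K⟮cc n⟯ ≤ twK L n) (mem_adjoin_simple_self K _)

lemma twK_le {L M : IntermediateField K ℝ} {n : ℕ} (h : L ≤ M) (hc : cc n ∈ M) : twK L n ≤ M :=
  sup_le h (by rw [adjoin_simple_le_iff]; exact hc)

lemma rs_sup_adjoin (L : IntermediateField K ℝ) (c : ℝ) : rs (L ⊔ K⟮c⟯) = ext (rs L) c := by
  apply le_antisymm
  · let S : IntermediateField K ℝ :=
      { (ext (rs L) c).toSubfield with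
        algebraMap_mem' := fun a => le_ext (rs L) c (L.algebraMap_mem a) }
    have h : L ⊔ K⟮c⟯ ≤ S := by
      apply sup_le
      · intro x hx
        exact le_ext (rs L) c hx
      · rw [adjoin_simple_le_iff]
        exact self_mem_ext (rs L) c
    exact h
  · apply ext_le
    · exact (le_sup_left : L ≤ L ⊔ K⟮c⟯)
    · exact (le_sup_right : K⟮c⟯ ≤ L ⊔ K⟮c⟯) (mem_adjoin_simple_self K _)

lemma rs_twK (L : IntermediateField K ℝ) (n : ℕ) : rs (twK L n) = tw (rs L) n :=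
  rs_sup_adjoin L (cc n)

lemma twK_mono (L : IntermediateField K ℝ) {n k : ℕ} (h : n ≤ k) : twK L n ≤ twK L k :=
  twK_le (le_twK L k) (cc_mem_of_le (cc_mem_twK L k) h)

lemma ext_comm' (E : IntermediateField ℚ ℝ) (a b : ℝ) : ext (ext E a) b = ext (ext E b) a := by
  unfold ext
  rw [sup_assoc, sup_assoc, sup_comm ℚ⟮a⟯]

lemma alg_rs [FiniteDimensional K (⊥ : IntermediateField K ℝ)] (hK : ∀ a : K, IsIntegral ℚ (algebraMap K ℝ a))
    (L : IntermediateField K ℝ) [FiniteDimensional K L] : Alg (rs L) := by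
  refine ⟨fun x hx => ?_⟩
  have h1 : IsIntegral K x := isIntegral_of_mem (H := L) hx
  -- the algebraic numbers
  have h2 : IsIntegral (algebraMap K ℝ).range x := by
    obtain ⟨p, hp, hpx⟩ := h1
    refine ⟨p.map (algebraMap K ℝ).rangeRestrict, hp.map _, ?_⟩
    rw [eval₂_map]
    exact hpx
  obtain ⟨p, hp, hpx⟩ := h2
  let A := integralClosure ℚ ℝ
  have h3 : IsIntegral A x := by
    let f : (algebraMap K ℝ).range →+* A :=
      (Subring.inclusion (S := (algebraMap K ℝ).range) (T := A.toSubring) (by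
        rintro y ⟨a, rfl⟩
        exact hK a))
    refine ⟨p.map f, hp.map _, ?_⟩
    rw [eval₂_map]
    exact hpx
  exact isIntegral_trans (R := ℚ) (A := A) x h3

end rs

section main

variable {K : Type*} [Field K] [NumberField K] [Algebra K ℝ] {σ₂ : K →+* ℝ}

lemma isIntegral_K (a : K) : IsIntegral ℚ (algebraMap K ℝ a) := by
  have h := (Algebra.IsIntegral.isIntegral (R := ℚ) a)
  exact h.map ((algebraMap K ℝ).toRatAlgHom)

instance alg_rs' (L : IntermediateField K ℝ) [FiniteDimensional K L] : Alg (rs L) :=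
  alg_rs isIntegral_K L

/-- embeddings of `rs L` -/
lemma emb_rs (h2 : Module.finrank ℚ K = 2) (hσ : σ₂ ≠ algebraMap K ℝ)
    {L : IntermediateField K ℝ} [Normal K L] (φ : rs L →+* ℂ) :
    ∃ g : L →+* ℂ, (∀ x (hx : x ∈ L), φ ⟨x, hx⟩ = emb g x) ∧
      ((∃ δ : L ≃ₐ[K] L, ∀ x ∈ L, emb g x = (act δ x : ℂ)) ∨ Over σ₂ g) := by
  let ι : L →+* rs L :=
    { toFun := fun x => ⟨x.1, x.2⟩
      map_one' := rfl
      map_mul' := fun _ _ => rfl
      map_zero' := rfl
      map_add' := fun _ _ => rfl }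
  refine ⟨φ.comp ι, ?_, ?_⟩
  · intro x hx
    rw [emb_of_mem _ hx]; rfl
  · rcases emb_cases h2 hσ ((φ.comp ι).comp (algebraMap K L)) with h | h
    · left
      apply emb_real
      intro a
      exact congrArg (fun f : K →+* ℂ => f a) h
    · right
      intro a
      exact congrArg (fun f : K →+* ℂ => f a) h

/-- the fixed field of conjugation is totally real -/
lemma TR_fixed (h2 : Module.finrank ℚ K = 2) (hσ : σ₂ ≠ algebraMap K ℝ)
    {L : IntermediateField K ℝ} [FiniteDimensional K L] [IsAbelianGalois K L] {γ : L ≃ₐ[K] L}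
    (hγ : IsConj σ₂ L γ) : TR (rs (eqField γ 1)) := by
  intro φ x
  have hle : rs (eqField γ 1) ≤ rs L := fun y hy => hy.1
  obtain ⟨φ', hφ'⟩ := exists_extend hle φ
  rw [← hφ' x x.2]
  obtain ⟨g, hg, hcases⟩ := emb_rs h2 hσ φ'
  have hx : (x : ℝ) ∈ L := x.2.1
  rw [hg _ hx]
  rcases hcases with ⟨δ, hδ⟩ | hover
  · rw [hδ _ hx, Complex.ofReal_im]
  · have h3 := hγ g hover _ hx
    have h4 : act γ (x : ℝ) = x := by
      rw [x.2.2, act_one_left hx]
    rw [h4] at h3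
    exact Complex.conj_eq_iff_im.1 h3.symm

omit [NumberField K] in
lemma eqField_iff {L : IntermediateField K ℝ} {γ : L ≃ₐ[K] L} {x : ℝ} :
    x ∈ eqField γ 1 ↔ x ∈ L ∧ act γ x = x := by
  constructor
  · rintro ⟨h1, h2⟩
    exact ⟨h1, by rw [h2, act_one_left h1]⟩
  · rintro ⟨h1, h2⟩
    exact ⟨h1, by rw [h2, act_one_left h1]⟩

/-- the number `2 + x + x⁻¹` is totally positive -/
lemma tp_a (h2 : Module.finrank ℚ K = 2) (hσ : σ₂ ≠ algebraMap K ℝ)
    {L : IntermediateField K ℝ} [FiniteDimensional K L] [IsAbelianGalois K L] {x : ℝ}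
    (hx : PreStark σ₂ L x) : TP (2 + x + x⁻¹) := by
  have hm : 2 + x + x⁻¹ ∈ rs L := add_mem (add_mem (ofNat_mem _ 2) hx.mem) (inv_mem hx.mem)
  rw [tp_iff hm]
  intro φ
  obtain ⟨g, hg, hcases⟩ := emb_rs h2 hσ φ
  have h3 : φ ⟨2 + x + x⁻¹, hm⟩ = 2 + emb g x + (emb g x)⁻¹ := by
    rw [hg _ hm, emb_add' g (add_mem (ofNat_mem _ 2) hx.mem) (inv_mem hx.mem),
      emb_add' g (ofNat_mem _ 2) hx.mem, emb_two, emb_inv g hx.mem]
  rw [h3]
  rcases hcases with ⟨δ, hδ⟩ | hover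
  · rw [hδ x hx.mem]
    have h4 := hx.pos δ
    set r := act δ x
    have h5 : (2 + (r : ℂ) + (r : ℂ)⁻¹) = ((2 + r + r⁻¹ : ℝ) : ℂ) := by push_cast; rfl
    rw [h5, Complex.ofReal_im, Complex.ofReal_re]
    exact ⟨rfl, by positivity⟩
  · have h4 := hx.abs g hover
    set z := emb g x with hz
    have h5 : z⁻¹ = (starRingEnd ℂ) z := by
      have h6 : (starRingEnd ℂ) z * z = 1 := by
        rw [mul_comm, Complex.mul_conj, Complex.normSq_eq_norm_sq, h4]
        simp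
      exact (eq_inv_of_mul_eq_one_left h6).symm
    have h6 : z.re ^ 2 + z.im ^ 2 = 1 := by
      have h7 := Complex.sq_norm z
      rw [h4, Complex.normSq_apply] at h7
      linarith
    rw [h5]
    simp only [Complex.add_im, Complex.add_re, Complex.conj_im, Complex.conj_re,
      Complex.re_ofNat, Complex.im_ofNat]
    refine ⟨by ring, ?_⟩
    have h7 : z.re ≠ -1 := by
      intro h8
      have h9 : z.im = 0 := by nlinarith
      have h10 : z = emb g (-1) := by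
        rw [emb_of_mem g (neg_mem (one_mem _))]
        have : (⟨-1, neg_mem (one_mem _)⟩ : L) = -1 := rfl
        rw [this, map_neg, map_one]
        exact Complex.ext (by simp [h8]) (by simp [h9])
      have h11 := emb_inj g hx.mem (neg_mem (one_mem _)) h10
      have := hx.pos'
      rw [h11] at this
      linarith
    have h8 : -1 < z.re := by
      rcases lt_trichotomy z.re (-1) with h | h | h
      · nlinarith [sq_nonneg z.im]
      · exact absurd h h7
      · exact h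
    linarith

/-- the parameters of the quadratic extension `L / F` -/
structure IsPar (σ₂ : K →+* ℝ) (L : IntermediateField K ℝ) (γ : L ≃ₐ[K] L) (θ : ℝ) (D : ℕ) :
    Prop where
  conj : IsConj σ₂ L γ
  mem : θ ∈ L
  neg : act γ θ = - θ
  ne : θ ≠ 0
  sq : θ ^ 2 ∈ eqField γ 1
  rs : rs L = ext (rs (eqField γ 1)) θ
  two : ((2 : ℕ) : ℝ)⁻¹ ∈ DI D
  int : θ ∈ DI D
  inv : (θ ^ 2)⁻¹ ∈ DI D

lemma exists_par {L : IntermediateField K ℝ} [FiniteDimensional K L] {γ : L ≃ₐ[K] L}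
    (hγ : IsConj σ₂ L γ) (hγ1 : γ ≠ 1) : ∃ θ D, D ≠ 0 ∧ IsPar σ₂ L γ θ D := by
  obtain ⟨θ, h1, h2, h3, h4, h5⟩ := exists_half γ hγ.sq hγ1
  have hθ0 : θ ≠ 0 := by rintro rfl; exact h4 (zero_mem _)
  have hθi : IsIntegral ℚ θ := (alg_rs' L).int θ h1
  obtain ⟨n, hn, hn1⟩ := exists_mul_int hθi
  obtain ⟨m, hm, hm1⟩ := exists_mul_int (hθi.pow 2).inv
  refine ⟨θ, 2 * n * m, by positivity, hγ, h1, h2, hθ0, h3, h5, ?_, ?_, ?_⟩
  · exact DI_inv (by norm_num) ⟨n * m, by ring⟩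
  · have h1 : θ = ((n : ℝ))⁻¹ * ((n : ℝ) * θ) := by
      have : (n : ℝ) ≠ 0 := Nat.cast_ne_zero.2 hn
      field_simp
    rw [h1]
    exact mul_mem (DI_inv hn ⟨2 * m, by ring⟩) (DI_of_int hn1)
  · have h1 : (θ ^ 2)⁻¹ = ((m : ℝ))⁻¹ * ((m : ℝ) * (θ ^ 2)⁻¹) := by
      have : (m : ℝ) ≠ 0 := Nat.cast_ne_zero.2 hm
      field_simp
    rw [h1]
    exact mul_mem (DI_inv hm ⟨2 * n, by ring⟩) (DI_of_int hm1)

variable {L : IntermediateField K ℝ} {γ : L ≃ₐ[K] L} {θ : ℝ} {D : ℕ}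

omit [NumberField K] in
lemma IsPar.rs_tw (hp : IsPar σ₂ L γ θ D) (j : ℕ) :
    STb.rs (twK L j) = ext (tw (STb.rs (eqField γ 1)) j) θ := by
  rw [rs_twK, hp.rs]
  unfold tw
  rw [ext_comm']

omit [NumberField K] in
/-- conjugation on `L(cc j)` -/
lemma IsPar.conj_tw (hp : IsPar σ₂ L γ θ D) {j : ℕ} [FiniteDimensional K (twK L j)]
    [FiniteDimensional K L] [IsAbelianGalois K L] {γ' : twK L j ≃ₐ[K] twK L j} (hγ' : IsConj σ₂ (twK L j) γ') :
    (∀ y ∈ tw (STb.rs (eqField γ 1)) j, act γ' y = y) ∧ act γ' θ = - θ := by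
  have hle := le_twK L j
  have h1 : ST.res hle γ' = γ := (hγ'.res hle).unique hp.conj
  have h2 : ∀ y ∈ L, act γ' y = act γ y := by
    intro y hy
    rw [← h1, act_res hle γ' hy]
  refine ⟨?_, by rw [h2 θ hp.mem, hp.neg]⟩
  have hsub : tw (STb.rs (eqField γ 1)) j ≤ STb.rs (eqField γ' 1) := by
    apply ext_le
    · intro y hy
      obtain ⟨h3, h4⟩ := eqField_iff.1 hy
      exact eqField_iff.2 ⟨hle h3, by rw [h2 y h3, h4]⟩
    · exact eqField_iff.2 ⟨cc_mem_twK L j, hγ'.fix_cc (cc_mem_twK L j)⟩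
  intro y hy
  exact (eqField_iff.1 (hsub hy)).2

omit [NumberField K] in
lemma IsPar.gen (hp : IsPar σ₂ L γ θ D) (j : ℕ) [FiniteDimensional K (twK L j)]
    [FiniteDimensional K L] [IsAbelianGalois K L] [IsAbelianGalois K (twK L j)] :
    IsGen D (tw (STb.rs (eqField γ 1)) j) θ := by
  obtain ⟨γ', hγ'⟩ := exists_isConj (L := twK L j) σ₂
  obtain ⟨h1, h2⟩ := hp.conj_tw hγ'
  refine ⟨le_tw _ _ hp.sq, ?_, hp.two, hp.int, hp.inv⟩
  intro h
  have h3 := h1 θ h
  rw [h2] at h3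
  apply hp.ne
  linarith

/-- **The element attached to a unit is good.** -/
lemma IsPar.good (h2 : Module.finrank ℚ K = 2) (hσ : σ₂ ≠ algebraMap K ℝ)
    (hp : IsPar σ₂ L γ θ D) (j : ℕ) [FiniteDimensional K (twK L j)]
    [FiniteDimensional K L] [IsAbelianGalois K L] [IsAbelianGalois K (twK L j)] {x : ℝ}
    (hx : PreStark σ₂ (twK L j) x) : Good D (tw (STb.rs (eqField γ 1)) j) (2 + x + x⁻¹) := by
  have hx0 := hx.pos'.ne'
  have hxm : x ∈ STb.rs (twK L j) := hx.mem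
  have hg := hp.gen j
  have ham : 2 + x + x⁻¹ ∈ STb.rs (twK L j) :=
    add_mem (add_mem (ofNat_mem _ 2) hx.mem) (inv_mem hx.mem)
  have ha : 2 + x + x⁻¹ ∈ tw (STb.rs (eqField γ 1)) j := by
    obtain ⟨γ', hγ'⟩ := exists_isConj (L := twK L j) σ₂
    obtain ⟨f1, f2⟩ := hp.conj_tw hγ'
    have ham' := ham
    rw [hp.rs_tw] at ham'
    obtain ⟨p, hpm, q, hq, hpq⟩ := (mem_ext_iff hg.sq_mem hg.notMem).1 ham'
    have hpL : p ∈ twK L j := by
      have : p ∈ STb.rs (twK L j) := by rw [hp.rs_tw]; exact le_ext _ _ hpm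
      exact this
    have hqL : q ∈ twK L j := by
      have : q ∈ STb.rs (twK L j) := by rw [hp.rs_tw]; exact le_ext _ _ hq
      exact this
    have hθL : θ ∈ twK L j := le_twK L j hp.mem
    have h2L : (2 : ℝ) ∈ twK L j := ofNat_mem _ 2
    have e1 : act γ' (2 + x + x⁻¹) = 2 + x + x⁻¹ := by
      rw [act_add γ' (add_mem h2L hx.mem) (inv_mem hx.mem), act_add γ' h2L hx.mem,
        act_inv γ' hx.mem, hx.conj hγ', inv_inv]
      have : act γ' 2 = 2 := by
        have h3 := act_algebraMap γ' (2 : K)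
        rwa [map_ofNat] at h3
      rw [this]; ring
    have e2 : act γ' (2 + x + x⁻¹) = p - q * θ := by
      rw [hpq, act_add γ' hpL (mul_mem hqL hθL), act_mul γ' hqL hθL, f1 p hpm, f1 q hq, f2]
      ring
    have e3 : q * θ = 0 := by linarith
    rw [hpq, e3, add_zero]
    exact hpm
  refine ⟨ha, tp_a h2 hσ hx, ?_⟩
  apply hg.down ha
  rw [← hp.rs_tw]
  have h3 : 2 + x + x⁻¹ = (1 + x) ^ 2 * x⁻¹ := by field_simp; ring
  rw [h3]
  have h1x : 1 + x ≠ 0 := by linarith [hx.pos']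
  exact (Ev.sq (add_mem (one_mem _) hxm) h1x).mul
    (Ev.unit (inv_mem hxm) (inv_ne_zero hx0) (DI_of_int hx.int_inv)
      (by rw [inv_inv]; exact DI_of_int hx.int))

end main

end Pool.Agent.STb
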