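import Pool.Agent.Lib.MP_1ef7cf_nt.RCF4
import Pool.Agent.Lib.MP_1ef7cf_nt_b.CycIn
import Pool.Agent.Lib.MP_1ef7cf_nt_b.GoodA

/-!
# The square root condition for 2-extensions
-/

open NumberField IsDedekindDomain nonZeroDivisors IntermediateField Polynomial

namespace Pool.Agent.STb

open Pool.Agent.ST

section gen

variable {K : Type*} [Field K] [Algebra K ℝ] {A B C : IntermediateField K ℝ}

/-- Norms of elements of the form `t s ^ 2`. -/
lemma norm_sq (hAB : A ≤ B) (hBC : B ≤ C) [FiniteDimensional K B] [FiniteDimensional K C]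
    [Normal K A] [IsGalois K B] [IsGalois K C] {t s : ℝ} (ht : t ∈ A) (hs : s ∈ C)
    (hx : t * s ^ 2 ∈ B) :
    ∃ w ∈ C, fibProd hAB (t * s ^ 2) 1 = t ^ (fib hAB (1 : A ≃ₐ[K] A)).card * w ^ 2 := by
  classical
  have hex : ∀ δ : B ≃ₐ[K] B, ∃ w ∈ C, δ ∈ fib hAB (1 : A ≃ₐ[K] A) →
      act δ (t * s ^ 2) = t * w ^ 2 := by
    intro δ
    obtain ⟨δ', hδ'⟩ := res_surjective hBC δ
    refine ⟨act δ' s, act_mem δ' hs, fun hδ => ?_⟩
    rw [mem_fib] at hδ
    have h1 : act δ (t * s ^ 2) = act δ' (t * s ^ 2) := by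
      rw [← hδ', act_res hBC δ' hx]
    have h2 : act δ' t = t := by
      have h3 : act δ t = t := (res_eq_one_iff hAB δ).1 hδ t ht
      rw [← hδ', act_res hBC δ' (hAB ht)] at h3
      exact h3
    rw [h1, act_mul δ' (hBC (hAB ht)) (pow_mem hs 2), h2, act_pow δ' hs]
  choose w hw hw2 using hex
  refine ⟨∏ δ ∈ fib hAB (1 : A ≃ₐ[K] A), w δ, prod_mem fun δ _ => hw δ, ?_⟩
  unfold fibProd
  rw [Finset.prod_congr rfl fun δ hδ => hw2 δ hδ, Finset.prod_mul_distrib, Finset.prod_const,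
    Finset.prod_pow]

end gen

section main

variable {K : Type*} [Field K] [NumberField K] [Algebra K ℝ] {σ₂ : K →+* ℝ}

/-- The data of a ray class field with a unit satisfying the conditions 1-3. -/
structure SData (σ₂ : K →+* ℝ) (m : Ideal (𝓞 K)) (H : IntermediateField K ℝ)
    (Art : RayClassGroup σ₂ m ≃* (H ≃ₐ[K] H)) (u : ℝ) : Prop where
  rcf : IsRayClassField σ₂ m H Art
  pre : PreStark σ₂ H u
  act : ∀ A, ST.act (Art A) u = Real.exp (-2 * zd σ₂ m A)

/-- compatibility under norms -/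
lemma SData.compat (h2 : Module.finrank ℚ K = 2) (hσ : σ₂ ≠ sg1 K) {n' n : Ideal (𝓞 K)}
    (hle : n' ≤ n) (hn' : n' ≠ ⊥) (hn : n ≠ ⊥) (hn1 : n ≠ ⊤)
    (hdvd : ∀ v : HeightOneSpectrum (𝓞 K), v.asIdeal ∣ n' → v.asIdeal ∣ n)
    {H H' : IntermediateField K ℝ} {Art : RayClassGroup σ₂ n ≃* (H ≃ₐ[K] H)}
    {Art' : RayClassGroup σ₂ n' ≃* (H' ≃ₐ[K] H')} {u u' : ℝ} (hd : SData σ₂ n H Art u)
    (hd' : SData σ₂ n' H' Art' u') [Normal K H] [FiniteDimensional K H'] :
    ∃ hHH : H ≤ H', fibProd hHH u' 1 = u := by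
  have hHH : H ≤ H' := IsRCF.le hle hn' Set.finite_empty Set.finite_empty hd'.rcf.isRCF
    hd.rcf.isRCF
  have hprime : ∀ J : (FI K)ˣ, J ∈ primeTo n → J ∈ primeTo n' := fun J hJ v hv => hJ v (hdvd v hv)
  have hcop : ∀ I : Ideal (𝓞 K), IsCoprime I n → IsCoprime I n' := by
    intro I hI
    have hI0 : I ≠ ⊥ := ne_bot_of_coprime_ne hI hn1
    exact coprime_of_mem_primeTo (J := uI I hI0) (coe_uI I hI0)
      (hprime _ (coe_mem_primeTo (coe_uI I hI0) hI))
  refine ⟨hHH, ?_⟩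
  have h1 := fibProd_eq Art Art' hHH 1 hd'.act
  rw [zd_relation_same h2 hσ hle hn' hn hn1 hcop (mem_ovCls hle hn' hd.rcf hd'.rcf hHH 1),
    ← hd.act 1, map_one, act_one_left hd.pre.mem] at h1
  exact h1

lemma fd_rs (L : IntermediateField K ℝ) [FiniteDimensional K L] : FiniteDimensional ℚ (rs L) := by
  have := numberField_of_fd L
  let ι : L →+* rs L :=
    { toFun := fun x => ⟨x.1, x.2⟩
      map_one' := rfl
      map_mul' := fun _ _ => rfl
      map_zero' := rfl
      map_add' := fun _ _ => rfl }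
  have hbij : Function.Bijective ι := by
    refine ⟨ι.injective, ?_⟩
    rintro ⟨x, hx⟩
    exact ⟨⟨x, hx⟩, rfl⟩
  exact Module.Finite.equiv (LinearEquiv.ofBijective (ι.toAddMonoidHom.toRatLinearMap) hbij)

/-- the tower does not stabilize -/
lemma exists_not_mem (L : IntermediateField K ℝ) [FiniteDimensional K L] (N : ℕ)
    (hfd : ∀ n, FiniteDimensional K (twK L n)) : ∃ n ≥ N, cc (n + 1) ∉ twK L n := by
  by_contra hcon
  push Not at hcon
  have hall : ∀ j, cc (N + j) ∈ twK L N := by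
    intro j
    have : twK L (N + j) ≤ twK L N := by
      induction j with
      | zero => exact le_rfl
      | succ j ih =>
        have h1 := hcon (N + j) (by omega)
        exact twK_le (le_twK L N) (ih h1)
    exact this (cc_mem_twK L _)
  have hle : ∀ j, QQ j ≤ rs (twK L N) := by
    intro j
    apply ext_le bot_le
    exact cc_mem_of_le (hall j) (by omega)
  have := hfd N
  have hfin := fd_rs (twK L N)
  have hrank : ∀ j, j < Module.finrank ℚ (QQ j) := by
    intro j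
    induction j with
    | zero => exact Module.finrank_pos
    | succ j ih =>
      have h1 : QQ j ≤ QQ (j + 1) := tw_le_succ _ j
      have h2 : QQ j ≠ QQ (j + 1) := by
        intro h
        apply cc_notMem j
        rw [h]; exact cc_mem_tw _ _
      have h3 := finrank_dvd_of_le h1
      have h4 : Module.finrank ℚ (QQ j) ≠ Module.finrank ℚ (QQ (j + 1)) :=
        fun h => h2 (eq_of_le_of_finrank h1 h)
      have h5 := Nat.le_of_dvd Module.finrank_pos h3
      omega
  have h1 := hrank (Module.finrank ℚ (rs (twK L N)))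
  have h3 := finrank_dvd_of_le (hle (Module.finrank ℚ (rs (twK L N))))
  have h5 := Nat.le_of_dvd Module.finrank_pos h3
  omega

omit [NumberField K] in
/-- the fibre of a quadratic step has two elements -/
lemma card_fib_two {L : IntermediateField K ℝ} {n : ℕ} (h : cc (n + 1) ∉ twK L n)
    [FiniteDimensional K (twK L (n + 1))] [IsAbelianGalois K (twK L (n + 1))]
    [Normal K (twK L n)] :
    (fib (twK_mono L (Nat.le_succ n)) (1 : twK L n ≃ₐ[K] twK L n)).card = 2 := by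
  classical
  set hle := twK_mono L (Nat.le_succ n)
  have hc := cc_mem_twK L (n + 1)
  have hcn : cc n ∈ twK L n := cc_mem_twK L n
  obtain ⟨τ, hτ1, hτ2⟩ : ∃ τ : twK L (n + 1) ≃ₐ[K] twK L (n + 1),
      (∀ y ∈ twK L n, act τ y = y) ∧ act τ (cc (n + 1)) ≠ cc (n + 1) := by
    by_contra hcon
    push Not at hcon
    exact h (mem_of_fixed hle hc hcon)
  have hsq : ∀ τ : twK L (n + 1) ≃ₐ[K] twK L (n + 1), (∀ y ∈ twK L n, act τ y = y) →
      act τ (cc (n + 1)) = cc (n + 1) ∨ act τ (cc (n + 1)) = -cc (n + 1) := by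
    intro τ hτ
    have h1 : (act τ (cc (n + 1))) ^ 2 = cc (n + 1) ^ 2 := by
      rw [← act_pow τ hc, cc_sq]
      exact hτ _ (add_mem (ofNat_mem _ 2) hcn)
    exact sq_eq_sq_iff_eq_or_eq_neg.1 h1
  have huniq : ∀ τ τ' : twK L (n + 1) ≃ₐ[K] twK L (n + 1), (∀ y ∈ twK L n, act τ y = y) →
      (∀ y ∈ twK L n, act τ' y = y) → act τ (cc (n + 1)) = act τ' (cc (n + 1)) → τ = τ' := by
    intro τ τ' h1 h2 h3
    have hM : twK L (n + 1) ≤ twK L n ⊔ K⟮cc (n + 1)⟯ :=
      sup_le ((le_twK L n).trans le_sup_left) le_sup_right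
    apply eq_of_eq_on_sup (L₁ := twK L n) (L₂ := K⟮cc (n + 1)⟯) hM hle le_sup_right
    · intro x hx; rw [h1 x hx, h2 x hx]
    · have hle2 : K⟮cc (n + 1)⟯ ≤ eqField τ τ' := by
        rw [adjoin_simple_le_iff]; exact ⟨hc, h3⟩
      intro x hx
      exact (hle2 hx).2
  have hfib : fib hle (1 : twK L n ≃ₐ[K] twK L n) = {1, τ} := by
    ext δ
    rw [mem_fib, res_eq_one_iff, Finset.mem_insert, Finset.mem_singleton]
    constructor
    · intro hδ
      rcases hsq δ hδ with h1 | h1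
      · left
        apply huniq δ 1 hδ
        · intro y hy; exact act_one_left (hle hy)
        · rw [h1, act_one_left hc]
      · right
        apply huniq δ τ hδ hτ1
        rw [h1]
        rcases hsq τ hτ1 with h2 | h2
        · exact absurd h2 hτ2
        · exact h2.symm
    · rintro (rfl | rfl)
      · intro y hy; exact act_one_left (hle hy)
      · exact hτ1
  rw [hfib, Finset.card_pair]
  rintro rfl
  exact hτ2 (act_one_left hc)

/-- **The square root condition is automatic for 2-extensions.** -/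
theorem sqrt_of_two_power (h2 : Module.finrank ℚ K = 2) (hσ : σ₂ ≠ sg1 K) {m : Ideal (𝓞 K)}
    (hm : m ≠ ⊥) (hm1 : m ≠ ⊤)
    (hm2 : ∀ v : HeightOneSpectrum (𝓞 K), (2 : 𝓞 K) ∈ v.asIdeal → v.asIdeal ∣ m)
    (hS : ∀ k : ℕ, ∃ (H : IntermediateField K ℝ)
      (Art : RayClassGroup σ₂ (m * Ideal.span {2} ^ k) ≃* (H ≃ₐ[K] H)) (u : ℝ),
      SData σ₂ (m * Ideal.span {2} ^ k) H Art u)
    {H : IntermediateField K ℝ} {Art : RayClassGroup σ₂ m ≃* (H ≃ₐ[K] H)} {u : ℝ}
    (hd : SData σ₂ m H Art u) [FiniteDimensional K H] {L : IntermediateField K ℝ} (hLH : L ≤ H)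
    [Normal K L] (hr : ∃ r : ℕ, Module.finrank K L = 2 ^ r) :
    IsAbelianGalois K (sqrtExt L (fibProd hLH u 1)) := by
  classical
  choose H' Art' u' hd' using hS
  set M : ℕ → Ideal (𝓞 K) := fun k => m * Ideal.span {2} ^ k with hM
  have hspan : (Ideal.span {(2 : 𝓞 K)}) ≠ ⊥ := by
    rw [Ne, Ideal.span_singleton_eq_bot]; exact two_ne_zero
  have hMne : ∀ k, M k ≠ ⊥ := fun k => mul_ne_bot' hm (pow_ne_zero k hspan)
  have hMle : ∀ k, M k ≤ m := fun k => Ideal.mul_le_left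
  have hMne1 : ∀ k, M k ≠ ⊤ := fun k => ne_top_of_le (hMle k) hm1
  have hMM : ∀ {k k'}, k ≤ k' → M k' ≤ M k := by
    intro k k' hkk
    exact Ideal.mul_mono_right (Ideal.pow_le_pow_right hkk)
  have hMdvd : ∀ k (v : HeightOneSpectrum (𝓞 K)), v.asIdeal ∣ M k → v.asIdeal ∣ m := by
    intro k v hv
    rcases v.prime.dvd_or_dvd hv with h | h
    · exact h
    · have h3 := v.prime.dvd_of_dvd_pow h
      rw [Ideal.dvd_span_singleton] at h3
      exact hm2 v h3
  have hfin : ∀ k, FiniteDimensional K (H' k) := fun k => (hd' k).rcf.finite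
  have hgal : ∀ k, IsGalois K (H' k) := fun k => (hd' k).rcf.galois
  have hab : ∀ k, IsAbelianGalois K (H' k) := fun k => (hd' k).rcf.isRCF.abelian
  have hHgal : IsGalois K H := hd.rcf.galois
  have hHab : IsAbelianGalois K H := hd.rcf.isRCF.abelian
  -- compatibility
  have hc1 : ∀ k, ∃ h : H ≤ H' k, fibProd h (u' k) 1 = u := fun k =>
    hd.compat h2 hσ (hMle k) (hMne k) hm hm1 (hMdvd k) (hd' k)
  have hc2 : ∀ {k k'}, k ≤ k' → ∃ h : H' k ≤ H' k', fibProd h (u' k') 1 = u' k := fun {k k'} hkk =>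
    (hd' k).compat h2 hσ (hMM hkk) (hMne k') (hMne k) (hMne1 k)
      (fun v hv => (hMdvd k' v hv).trans ⟨_, rfl⟩) (hd' k')
  have hcc : ∀ j, cc j ∈ H' (j + 2) := by
    intro j
    refine cc_mem_rcf h2 hσ ?_ (hMne (j + 2)) (hd' (j + 2)).rcf
    have h3 : M (j + 2) ≤ Ideal.span {2} ^ (j + 2) := Ideal.mul_le_right
    rwa [Ideal.span_singleton_pow] at h3
  have hLH' : ∀ k, L ≤ H' k := fun k => hLH.trans (hc1 k).1
  have hLj : ∀ j, twK L j ≤ H' (j + 2) := fun j => twK_le (hLH' _) (hcc j)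
  have hfj : ∀ j, FiniteDimensional K (twK L j) := fun j => fd_of_le (hLj j)
  have haj : ∀ j, IsAbelianGalois K (twK L j) := fun j => isAbelianGalois_of_le (hLj j)
  have hfL : FiniteDimensional K L := fd_of_le hLH
  have haL : IsAbelianGalois K L := isAbelianGalois_of_le hLH
  -- the units
  set x : ℕ → ℝ := fun j => fibProd (hLj j) (u' (j + 2)) 1 with hx
  have hxp : ∀ j, PreStark σ₂ (twK L j) (x j) := fun j => (hd' (j + 2)).pre.fibProd (hLj j)
  have hxk : ∀ j k (hjk : j + 2 ≤ k) (h : twK L j ≤ H' k), fibProd h (u' k) 1 = x j := by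
    intro j k hjk h
    obtain ⟨h3, h4⟩ := hc2 hjk
    rw [hx]
    simp only
    rw [← h4, fibProd_trans (hLj j) h3 (hd' k).pre.mem]
  have hN : ∀ {j j'} (hjj : j ≤ j'), fibProd (twK_mono L hjj) (x j') 1 = x j := by
    intro j j' hjj
    rw [hx]
    simp only
    rw [fibProd_trans (twK_mono L hjj) (hLj j') (hd' (j' + 2)).pre.mem]
    exact hxk j (j' + 2) (by omega) _
  set X : ℝ := fibProd hLH u 1 with hX
  have hXp : PreStark σ₂ L X := hd.pre.fibProd hLH
  have hNX : ∀ j, fibProd (le_twK L j) (x j) 1 = X := by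
    intro j
    obtain ⟨h3, h4⟩ := hc1 (j + 2)
    rw [hx]
    simp only
    rw [fibProd_trans (le_twK L j) (hLj j) (hd' (j + 2)).pre.mem, hX, ← h4,
      fibProd_trans hLH h3 (hd' (j + 2)).pre.mem]
  -- conjugation
  obtain ⟨γ, hγ⟩ := exists_isConj (L := L) σ₂
  by_cases hγ1 : γ = 1
  · have h3 := hXp.conj hγ
    rw [hγ1, act_one_left hXp.mem] at h3
    have hpos := hXp.pos'
    have h4 : X = 1 := by
      have h5 : X * X = 1 := by
        nth_rw 2 [h3]
        exact mul_inv_cancel₀ hpos.ne'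
      nlinarith
    rw [h4]
    exact isAbelianGalois_of_le (M := L) (sqrtExt_le le_rfl (by rw [Real.sqrt_one]; exact one_mem _))
  obtain ⟨θ, D, hD, hp⟩ := exists_par hγ hγ1
  set F := eqField γ 1 with hF
  have hFL : F ≤ L := fun y hy => hy.1
  have hfF : FiniteDimensional K F := fd_of_le hFL
  have haF : IsAbelianGalois K F := isAbelianGalois_of_le hFL
  have hTRF : TR (rs F) := TR_fixed h2 hσ hγ
  -- finiteness
  have hFIN : FIN D (tinf (rs F)) := by
    apply chain (FINA_K0 h2 hσ) (Module.finrank K F) F rfl ?_ inferInstance hTRF.tinf D hD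
    obtain ⟨r, hr⟩ := hr
    have hdvd := finrank_dvd_of_le hFL
    rw [hr] at hdvd
    obtain ⟨s, -, hs⟩ := (Nat.dvd_prime_pow Nat.prime_two).1 hdvd
    exact ⟨s, hs⟩
  obtain ⟨T, hT⟩ := hFIN
  obtain ⟨N, hNT⟩ := mem_finset_tw (E := rs F) (T.filter (· ∈ tinf (rs F)))
    (fun t ht => (Finset.mem_filter.1 ht).2)
  obtain ⟨n, hnN, hcn⟩ := exists_not_mem L N hfj
  -- the good element
  have hgood := (hp.good h2 hσ (n + 1) (hxp (n + 1))).mono (tw_le_tinf _ _)
  obtain ⟨t, htT, s, hs, hs0, hts⟩ := hT _ hgood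
  have hx0 := (hxp (n + 1)).pos'
  have ha0 : 2 + x (n + 1) + (x (n + 1))⁻¹ ≠ 0 := by positivity
  have ht0 : t ≠ 0 := by
    rintro rfl
    rw [zero_mul] at hts
    exact ha0 hts
  have htm : t ∈ tinf (rs F) := by
    have : t = (2 + x (n + 1) + (x (n + 1))⁻¹) / s ^ 2 := by rw [hts]; field_simp
    rw [this]; exact div_mem hgood.mem (pow_mem hs 2)
  have htN : t ∈ tw (rs F) N := hNT t (Finset.mem_filter.2 ⟨htT, htm⟩)
  have htn : t ∈ twK L n := by
    have h3 : tw (rs F) N ≤ rs (twK L n) := by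
      rw [rs_twK]
      exact (tw_mono _ hnN).trans (tw_mono_left (rs_mono hFL) n)
    exact h3 htN
  obtain ⟨P, hsP⟩ := mem_tinf.1 hs
  set Q := max P (n + 1) with hQ
  have hsQ : s ∈ twK L Q := by
    have h3 : tw (rs F) P ≤ rs (twK L Q) := by
      rw [rs_twK]
      exact (tw_mono _ (le_max_left _ _)).trans (tw_mono_left (rs_mono hFL) Q)
    exact h3 hsP
  have hnQ : n + 1 ≤ Q := le_max_right _ _
  -- x (n+1) = t w ^ 2
  have hxn : x (n + 1) = t * ((1 + x (n + 1)) / (t * s)) ^ 2 := by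
    have h3 : (1 + x (n + 1)) ^ 2 = x (n + 1) * (t * s ^ 2) := by
      rw [← hts]; field_simp; ring
    rw [div_pow, h3]
    field_simp
  have hle1 := twK_mono L (Nat.le_succ n)
  have hleQ := twK_mono L hnQ
  have hxm : x (n + 1) ∈ twK L (n + 1) := (hxp (n + 1)).mem
  have hwm : (1 + x (n + 1)) / (t * s) ∈ twK L Q :=
    div_mem (add_mem (one_mem _) (hleQ hxm)) (mul_mem (hleQ (hle1 htn)) hsQ)
  obtain ⟨w, hw, hw2⟩ := norm_sq hle1 hleQ htn hwm (by rw [← hxn]; exact hxm)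
  rw [← hxn, hN (Nat.le_succ n), card_fib_two hcn] at hw2
  -- x n is a square
  have hxn2 : x n = 1 * (t * w) ^ 2 := by rw [hw2]; ring
  have htw : t * w ∈ twK L Q := mul_mem (hleQ (hle1 htn)) hw
  have hnQ' : n ≤ Q := by omega
  obtain ⟨y, hy, hy2⟩ := norm_sq (le_twK L n) (twK_mono L hnQ') (one_mem L) htw
    (by rw [← hxn2]; exact (hxp n).mem)
  rw [← hxn2, hNX, one_pow, one_mul] at hy2
  apply isAbelianGalois_of_le (M := twK L Q)
  apply sqrtExt_le (le_twK L Q)
  rw [hy2, Real.sqrt_sq_eq_abs]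
  rcases abs_choice y with h | h <;> rw [h]
  · exact hy
  · exact neg_mem hy

end main

end Pool.Agent.STb
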