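import Pool.Agent.Lib.MP_1ef7cf_nt_b.Fin
import Pool.Agent.Lib.MP_1ef7cf_nt_b.Cyc

/-!
# The fields `E(cc n)` and their union
-/

open IntermediateField Polynomial

namespace Pool.Agent.STb

lemma isIntegral_rat_of_int {x : ℝ} (h : IsIntegral ℤ x) : IsIntegral ℚ x := h.tower_top

instance alg_bot : Alg (⊥ : IntermediateField ℚ ℝ) := by
  refine ⟨fun x hx => ?_⟩
  rw [IntermediateField.mem_bot] at hx
  obtain ⟨q, rfl⟩ := hx
  exact isIntegral_algebraMap

/-- the algebraic numbers as a field -/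
noncomputable def algField : IntermediateField ℚ ℝ := algebraicClosure ℚ ℝ

lemma mem_algField {x : ℝ} : x ∈ algField ↔ IsIntegral ℚ x := by
  unfold algField
  rw [mem_algebraicClosure_iff, isAlgebraic_iff_isIntegral]

lemma alg_iff_le {E : IntermediateField ℚ ℝ} : Alg E ↔ E ≤ algField :=
  ⟨fun h x hx => mem_algField.2 (h.int x hx), fun h => ⟨fun _ hx => mem_algField.1 (h hx)⟩⟩

lemma alg_ext {E : IntermediateField ℚ ℝ} [hE : Alg E] {θ : ℝ} (h : IsIntegral ℚ θ) :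
    Alg (ext E θ) :=
  alg_iff_le.2 (ext_le (alg_iff_le.1 hE) (mem_algField.2 h))

/-- The field `E(cc n)`. -/
noncomputable def tw (E : IntermediateField ℚ ℝ) (n : ℕ) : IntermediateField ℚ ℝ := ext E (cc n)

lemma le_tw (E : IntermediateField ℚ ℝ) (n : ℕ) : E ≤ tw E n := le_ext _ _

lemma cc_mem_tw (E : IntermediateField ℚ ℝ) (n : ℕ) : cc n ∈ tw E n := self_mem_ext _ _

lemma tw_zero (E : IntermediateField ℚ ℝ) : tw E 0 = E := by
  unfold tw; rw [cc_zero]; exact ext_eq_self (zero_mem _)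

lemma cc_mem_tw_succ (E : IntermediateField ℚ ℝ) (n : ℕ) : cc n ∈ tw E (n + 1) := by
  have h1 : cc n = cc (n + 1) ^ 2 - 2 := by rw [cc_sq]; ring
  rw [h1]
  exact sub_mem (pow_mem (cc_mem_tw E (n + 1)) 2) (ofNat_mem _ 2)

lemma tw_succ (E : IntermediateField ℚ ℝ) (n : ℕ) : tw E (n + 1) = ext (tw E n) (cc (n + 1)) := by
  apply le_antisymm
  · exact ext_mono (le_tw E n)
  · exact ext_le (ext_le (le_tw E _) (cc_mem_tw_succ E n)) (cc_mem_tw E _)

lemma tw_le_succ (E : IntermediateField ℚ ℝ) (n : ℕ) : tw E n ≤ tw E (n + 1) := by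
  rw [tw_succ]; exact le_ext _ _

lemma tw_mono (E : IntermediateField ℚ ℝ) : Monotone (tw E) :=
  monotone_nat_of_le_succ (tw_le_succ E)

lemma tw_mono_left {E E' : IntermediateField ℚ ℝ} (h : E ≤ E') (n : ℕ) : tw E n ≤ tw E' n :=
  ext_mono h

lemma sq_mem_tw (E : IntermediateField ℚ ℝ) (n : ℕ) : cc (n + 1) ^ 2 ∈ tw E n := by
  rw [cc_sq]
  exact add_mem (ofNat_mem _ 2) (cc_mem_tw E n)

/-- the union of the fields `E(cc n)` -/
noncomputable def tinf (E : IntermediateField ℚ ℝ) : IntermediateField ℚ ℝ := ⨆ n, tw E n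

lemma tw_le_tinf (E : IntermediateField ℚ ℝ) (n : ℕ) : tw E n ≤ tinf E := le_iSup _ n

lemma le_tinf (E : IntermediateField ℚ ℝ) : E ≤ tinf E := (le_tw E 0).trans (tw_le_tinf E 0)

lemma mem_tinf {E : IntermediateField ℚ ℝ} {x : ℝ} : x ∈ tinf E ↔ ∃ n, x ∈ tw E n := by
  have h := IntermediateField.coe_iSup_of_directed (tw_mono E).directed_le
  unfold tinf
  rw [← SetLike.mem_coe, h, Set.mem_iUnion]
  rfl

lemma tinf_le {E F : IntermediateField ℚ ℝ} (h : E ≤ F) (hc : ∀ n, cc n ∈ F) : tinf E ≤ F :=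
  iSup_le fun n => ext_le h (hc n)

lemma tinf_ext (E : IntermediateField ℚ ℝ) (θ : ℝ) : tinf (ext E θ) = ext (tinf E) θ := by
  apply le_antisymm
  · exact tinf_le (ext_mono (le_tinf E)) fun n => le_ext _ _ (tw_le_tinf E n (cc_mem_tw E n))
  · exact ext_le (tinf_le ((le_ext E θ).trans (le_tinf _)) fun n =>
      tw_le_tinf _ n (cc_mem_tw _ n)) (le_tinf _ (self_mem_ext E θ))

lemma tinf_mono {E E' : IntermediateField ℚ ℝ} (h : E ≤ E') : tinf E ≤ tinf E' :=
  tinf_le (h.trans (le_tinf _)) fun n => tw_le_tinf _ n (cc_mem_tw _ n)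

instance alg_tw (E : IntermediateField ℚ ℝ) [Alg E] (n : ℕ) : Alg (tw E n) :=
  alg_ext (isIntegral_rat_of_int (isIntegral_cc n))

instance alg_tinf (E : IntermediateField ℚ ℝ) [hE : Alg E] : Alg (tinf E) :=
  alg_iff_le.2 (tinf_le (alg_iff_le.1 hE) fun n =>
    mem_algField.2 (isIntegral_rat_of_int (isIntegral_cc n)))

lemma mem_finset_tw {E : IntermediateField ℚ ℝ} (T : Finset ℝ) (hT : ∀ t ∈ T, t ∈ tinf E) :
    ∃ n, ∀ t ∈ T, t ∈ tw E n := by
  classical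
  induction T using Finset.induction_on with
  | empty => exact ⟨0, by simp⟩
  | insert a s ha ih =>
    obtain ⟨n, hn⟩ := ih fun t ht => hT t (Finset.mem_insert_of_mem ht)
    obtain ⟨m, hm⟩ := mem_tinf.1 (hT a (Finset.mem_insert_self _ _))
    refine ⟨max n m, fun t ht => ?_⟩
    rcases Finset.mem_insert.1 ht with rfl | ht
    · exact tw_mono E (le_max_right _ _) hm
    · exact tw_mono E (le_max_left _ _) (hn t ht)

/-- Evenness descends to a finite level. -/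
lemma Ev.finite_level {D : ℕ} {E : IntermediateField ℚ ℝ} {x : ℝ} (h : Ev D (tinf E) x) :
    ∃ n, Ev D (tw E n) x := by
  classical
  obtain ⟨ι, hι, y, c, h1, h2, h3, h4, h5⟩ := h
  obtain ⟨n, hn⟩ := mem_finset_tw (E := E) (Finset.univ.image y ∪ Finset.univ.image c) (by
    intro t ht
    rcases Finset.mem_union.1 ht with ht | ht
    · obtain ⟨i, -, rfl⟩ := Finset.mem_image.1 ht; exact h1 i
    · obtain ⟨i, -, rfl⟩ := Finset.mem_image.1 ht; exact h2 i)
  exact ⟨n, ι, hι, y, c, fun i => hn _ (by simp), fun i => hn _ (by simp), h3, h4, h5⟩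

lemma Good.finite_level {D : ℕ} {E : IntermediateField ℚ ℝ} {x : ℝ} (h : Good D (tinf E) x) :
    ∃ n, ∀ m ≥ n, Good D (tw E m) x := by
  obtain ⟨n, hn⟩ := h.ev.finite_level
  obtain ⟨k, hk⟩ := mem_tinf.1 h.mem
  refine ⟨max n k, fun m hm => ⟨tw_mono E (le_trans (le_max_right _ _) hm) hk, h.tp,
    hn.mono (tw_mono E (le_trans (le_max_left _ _) hm))⟩⟩

section real

variable {E' : IntermediateField ℚ ℝ}

/-- the elements of `E'` with real image under `φ` -/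
noncomputable def realSub (φ : E' →+* ℂ) : IntermediateField ℚ ℝ where
  carrier := {x | ∃ h : x ∈ E', (φ ⟨x, h⟩).im = 0}
  mul_mem' := by
    rintro x y ⟨hx, h1⟩ ⟨hy, h2⟩
    refine ⟨mul_mem hx hy, ?_⟩
    have : (⟨x * y, mul_mem hx hy⟩ : E') = ⟨x, hx⟩ * ⟨y, hy⟩ := rfl
    rw [this, map_mul]
    exact im_mul h1 h2
  add_mem' := by
    rintro x y ⟨hx, h1⟩ ⟨hy, h2⟩
    refine ⟨add_mem hx hy, ?_⟩
    have : (⟨x + y, add_mem hx hy⟩ : E') = ⟨x, hx⟩ + ⟨y, hy⟩ := rfl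
    rw [this, map_add, Complex.add_im, h1, h2, add_zero]
  algebraMap_mem' := by
    intro q
    refine ⟨E'.algebraMap_mem q, ?_⟩
    have : (⟨algebraMap ℚ ℝ q, E'.algebraMap_mem q⟩ : E') = (q : E') := by
      apply Subtype.ext
      push_cast
      simp
    rw [this, map_ratCast, Complex.ratCast_im]
  inv_mem' := by
    rintro x ⟨hx, h1⟩
    refine ⟨inv_mem hx, ?_⟩
    have : (⟨x⁻¹, inv_mem hx⟩ : E') = (⟨x, hx⟩ : E')⁻¹ := rfl
    rw [this, map_inv₀, Complex.inv_im, h1]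
    simp

lemma cc_real (φ : E' →+* ℂ) {n : ℕ} (h : cc n ∈ E') (hle : ∀ k ≤ n, cc k ∈ E') :
    (φ ⟨cc n, h⟩).im = 0 := by
  classical
  let s : ℕ → ℂ := fun k => if hk : cc k ∈ E' then φ ⟨cc k, hk⟩ else 0
  have hs : ∀ k (hk : cc k ∈ E'), s k = φ ⟨cc k, hk⟩ := fun k hk => dif_pos hk
  have h0 : s 0 = 0 := by
    rw [hs 0 (hle 0 (Nat.zero_le _))]
    have : (⟨cc 0, hle 0 (Nat.zero_le _)⟩ : E') = 0 := Subtype.ext cc_zero
    rw [this, map_zero]
  have h1 := isSeq_complex (N := n) h0 (fun k hk => by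
    rw [hs (k + 1) (hle _ hk), hs k (hle _ hk.le), ← map_pow]
    have : (⟨cc (k + 1), hle _ hk⟩ : E') ^ 2 = 2 + ⟨cc k, hle _ hk.le⟩ := by
      apply Subtype.ext
      push_cast
      exact cc_sq k
    rw [this, map_add, map_ofNat]) n le_rfl
  rw [← hs n h]
  exact h1.1

end real

lemma TR.tw {E : IntermediateField ℚ ℝ} [Alg E] (h : TR E) (n : ℕ) : TR (tw E n) := by
  intro φ x
  have hle : Pool.Agent.STb.tw E n ≤ realSub φ := by
    apply ext_le
    · intro y hy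
      refine ⟨le_tw E n hy, ?_⟩
      exact h (φ.comp (inclusion (le_tw E n)).toRingHom) ⟨y, hy⟩
    · exact ⟨cc_mem_tw E n, cc_real φ _ fun k hk => tw_mono E hk (cc_mem_tw E k)⟩
  obtain ⟨_, h2⟩ := hle x.2
  exact h2

lemma TR.tinf {E : IntermediateField ℚ ℝ} [Alg E] (h : TR E) : TR (tinf E) := by
  intro φ x
  have hle : Pool.Agent.STb.tinf E ≤ realSub φ := by
    apply tinf_le
    · intro y hy
      refine ⟨le_tinf E hy, ?_⟩
      exact h (φ.comp (inclusion (le_tinf E)).toRingHom) ⟨y, hy⟩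
    · intro n
      exact ⟨tw_le_tinf E n (cc_mem_tw E n), cc_real φ _ fun k _ =>
        tw_le_tinf E k (cc_mem_tw E k)⟩
  obtain ⟨_, h2⟩ := hle x.2
  exact h2

lemma TR_bot : TR (⊥ : IntermediateField ℚ ℝ) := by
  intro φ x
  have hle : (⊥ : IntermediateField ℚ ℝ) ≤ realSub φ := bot_le
  obtain ⟨_, h2⟩ := hle x.2
  exact h2

end Pool.Agent.STb
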